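import Mathlib

/-!
Commutative grammars with semilinear right hand sides generate semilinear sets.
-/

namespace Pool.Agent.Lib.MP_60edde_al.Parikh

open Pointwise

variable {N : Type*} [AddCommMonoid N] {T : Type*}

open Classical in
/-- Unit vector. -/
noncomputable def ev {T : Type*} (σ : T) : T → ℕ := fun t => if t = σ then 1 else 0

theorem ev_self {T : Type*} (σ : T) : ev σ σ = 1 := by simp [ev]

theorem ev_ne {T : Type*} {σ ρ : T} (h : ρ ≠ σ) : ev σ ρ = 0 := by simp [ev, h]

theorem sum_ev {T : Type*} [Fintype T] (σ : T) : ∑ t, ev σ t = 1 := by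
  rw [Finset.sum_eq_single σ]
  · exact ev_self σ
  · intro b _ hb; exact ev_ne hb
  · intro h; exact absurd (Finset.mem_univ σ) h

/-- Token of type `σ`. -/
noncomputable def tok (N : Type*) [AddCommMonoid N] (σ : T) : N × (T → ℕ) := (0, ev σ)

/-- Rewriting: replace a token `σ ∈ S` by an element of `F σ`. -/
inductive Reach (F : T → Set (N × (T → ℕ))) (S : Set T) (a : N × (T → ℕ)) :
    N × (T → ℕ) → Prop
  | refl : Reach F S a a
  | step {c b : N × (T → ℕ)} {σ : T} : Reach F S a (c + tok N σ) → σ ∈ S → b ∈ F σ →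
      Reach F S a (c + b)

variable {F : T → Set (N × (T → ℕ))} {S : Set T}

theorem tok_snd_self (σ : T) : (tok N σ).2 σ = 1 := ev_self σ

theorem tok_snd_ne {σ ρ : T} (h : ρ ≠ σ) : (tok N σ).2 ρ = 0 := ev_ne h

theorem exists_tok (a : N × (T → ℕ)) (σ : T) (h : 1 ≤ a.2 σ) : ∃ a', a = a' + tok N σ := by
  refine ⟨(a.1, fun t => a.2 t - ev σ t), ?_⟩
  ext t
  · simp [tok]
  · simp only [tok, Prod.snd_add, Pi.add_apply]
    by_cases ht : t = σ
    · subst ht; rw [ev_self]; omega
    · rw [ev_ne ht]; omega

theorem tok_cancel {a b : N × (T → ℕ)} {σ : T} (h : a + tok N σ = b + tok N σ) : a = b := by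
  have h1 := congrArg Prod.fst h
  have h2 := congrArg Prod.snd h
  simp only [tok, Prod.fst_add, Prod.snd_add, add_zero] at h1 h2
  exact Prod.ext h1 (add_right_cancel h2)

theorem Reach.trans {a b c : N × (T → ℕ)} (h : Reach F S a b) (h' : Reach F S b c) :
    Reach F S a c := by
  induction h' with
  | refl => exact h
  | step _ hσ hb ih => exact Reach.step ih hσ hb

theorem Reach.add_right {a b : N × (T → ℕ)} (h : Reach F S a b) (c : N × (T → ℕ)) :
    Reach F S (a + c) (b + c) := by
  induction h with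
  | refl => exact Reach.refl
  | @step x b σ _ hσ hb ih =>
    have e1 : x + tok N σ + c = (x + c) + tok N σ := by abel
    rw [e1] at ih
    have e2 : x + b + c = (x + c) + b := by abel
    rw [e2]
    exact Reach.step ih hσ hb

theorem Reach.add {a b a' b' : N × (T → ℕ)} (h : Reach F S a b) (h' : Reach F S a' b') :
    Reach F S (a + a') (b + b') := by
  have h1 := h.add_right a'
  have h2 := h'.add_right b
  rw [add_comm a' b, add_comm b' b] at h2
  exact h1.trans h2

theorem Reach.split {a a' b : N × (T → ℕ)} (h : Reach F S (a + a') b) :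
    ∃ c c', b = c + c' ∧ Reach F S a c ∧ Reach F S a' c' := by
  induction h with
  | refl => exact ⟨a, a', rfl, Reach.refl, Reach.refl⟩
  | @step x b σ _ hσ hb ih =>
    obtain ⟨c, c', hc, h1, h2⟩ := ih
    have hcount : 1 ≤ c.2 σ + c'.2 σ := by
      have := congrFun (congrArg Prod.snd hc) σ
      simp only [Prod.snd_add, Pi.add_apply, tok_snd_self] at this
      omega
    rcases Nat.lt_or_ge (c.2 σ) 1 with hlt | hge
    · obtain ⟨d', hd'⟩ := exists_tok c' σ (by omega)
      subst hd'
      refine ⟨c, d' + b, ?_, h1, Reach.step h2 hσ hb⟩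
      have : x = c + d' := by
        apply tok_cancel (σ := σ)
        rw [hc]; abel
      rw [this]; abel
    · obtain ⟨d, hd⟩ := exists_tok c σ hge
      subst hd
      refine ⟨d + b, c', ?_, Reach.step h1 hσ hb, h2⟩
      have : x = d + c' := by
        apply tok_cancel (σ := σ)
        rw [hc]; abel
      rw [this]; abel

theorem Reach.of_zero {m : N} {b : N × (T → ℕ)} (h : Reach F S (m, 0) b) : b = (m, 0) := by
  induction h with
  | refl => rfl
  | @step x b σ _ hσ hb ih =>
    exfalso
    have := congrFun (congrArg Prod.snd ih) σ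
    simp only [Prod.snd_add, Pi.add_apply, tok_snd_self, Pi.zero_apply] at this
    omega

theorem Reach.mono {S' : Set T} (hS : S ⊆ S') {a b : N × (T → ℕ)} (h : Reach F S a b) :
    Reach F S' a b := by
  induction h with
  | refl => exact Reach.refl
  | step _ hσ hb ih => exact Reach.step ih (hS hσ) hb

theorem Reach.empty {a b : N × (T → ℕ)} (h : Reach F ∅ a b) : b = a := by
  induction h with
  | refl => rfl
  | step _ hσ _ _ => exact absurd hσ (Set.notMem_empty _)

/-! ### Families -/

section big

variable {A : Type*} [AddCommMonoid A]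

/-- Sums of elements of the family `Q`, with the number of elements used of each kind. -/
def Big (Q : T → Set A) : AddSubmonoid (A × (T → ℕ)) :=
  AddSubmonoid.closure (⋃ σ, (fun z => (z, ev σ)) '' Q σ)

theorem semilinear_pair {A C : Type*} [AddCommMonoid A] [AddCommMonoid C] {Q : Set A}
    (hQ : IsSemilinearSet Q) (e : C) :
    IsSemilinearSet ((fun z => (z, e)) '' Q) := by
  have h1 := (hQ.image (AddMonoidHom.inl A C)).vadd ((0 : A), e)
  have h2 : ((0 : A), e) +ᵥ (AddMonoidHom.inl A C '' Q) = (fun z => (z, e)) '' Q := by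
    ext x
    constructor
    · rintro ⟨_, ⟨z, hz, rfl⟩, rfl⟩
      exact ⟨z, hz, by simp⟩
    · rintro ⟨z, hz, rfl⟩
      exact ⟨_, ⟨z, hz, rfl⟩, by simp⟩
  rw [h2] at h1
  exact h1

theorem semilinear_big [Finite T] {Q : T → Set A} (hQ : ∀ σ, IsSemilinearSet (Q σ)) :
    IsSemilinearSet (Big Q : Set (A × (T → ℕ))) := by
  unfold Big
  apply IsSemilinearSet.closure
  apply IsSemilinearSet.iUnion
  intro σ
  exact semilinear_pair (hQ σ) _

theorem big_single {Q : T → Set A} {σ : T} {z : A} (hz : z ∈ Q σ) :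
    (z, ev σ) ∈ Big Q :=
  AddSubmonoid.subset_closure (Set.mem_iUnion.2 ⟨σ, ⟨z, hz, rfl⟩⟩)

theorem big_zero {Q : T → Set A} {x : A × (T → ℕ)} (hx : x ∈ Big Q) : x.2 = 0 → x.1 = 0 := by
  induction hx using AddSubmonoid.closure_induction with
  | mem x hx =>
    obtain ⟨σ, z, hz, rfl⟩ := Set.mem_iUnion.1 hx
    intro h
    have := congrFun h σ
    simp only [ev_self, Pi.zero_apply] at this
    omega
  | zero => intro _; rfl
  | add x y _ _ hx hy =>
    intro h
    have h1 : x.2 = 0 := by
      funext t
      have := congrFun h t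
      simp only [Prod.snd_add, Pi.add_apply, Pi.zero_apply] at this ⊢
      omega
    have h2 : y.2 = 0 := by
      funext t
      have := congrFun h t
      simp only [Prod.snd_add, Pi.add_apply, Pi.zero_apply] at this ⊢
      omega
    rw [Prod.fst_add, hx h1, hy h2, add_zero]

/-- Splitting off one summand. -/
theorem big_split {Q : T → Set A} {x : A × (T → ℕ)} (hx : x ∈ Big Q) (σ : T) (h : 1 ≤ x.2 σ) :
    ∃ z ∈ Q σ, ∃ y ∈ Big Q, x = y + (z, ev σ) := by
  induction hx using AddSubmonoid.closure_induction with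
  | mem x hx =>
    obtain ⟨ρ, z, hz, rfl⟩ := Set.mem_iUnion.1 hx
    simp only at h
    have : σ = ρ := by
      by_contra hne
      rw [ev_ne hne] at h
      omega
    subst this
    exact ⟨z, hz, 0, zero_mem _, by simp⟩
  | zero => simp at h
  | add x y hx0 hy0 hx hy =>
    simp only [Prod.snd_add, Pi.add_apply] at h
    rcases Nat.lt_or_ge (x.2 σ) 1 with hlt | hge
    · obtain ⟨z, hz, y', hy', rfl⟩ := hy (by omega)
      exact ⟨z, hz, x + y', add_mem hx0 hy', by abel⟩
    · obtain ⟨z, hz, x', hx', rfl⟩ := hx hge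
      exact ⟨z, hz, x' + y, add_mem hx' hy0, by abel⟩

end big

/-- Decomposition of derivations starting from a multiset of tokens. -/
theorem reach_iff_big [Finite T] (d : T → ℕ) (x : N × (T → ℕ)) :
    Reach F S (0, d) x ↔ (x, d) ∈ Big (fun σ => {b | Reach F S (tok N σ) b}) := by
  constructor
  · have := Fintype.ofFinite T
    intro h
    induction hn : ∑ t, d t using Nat.strong_induction_on generalizing d x with
    | _ n ih =>
      by_cases hd : d = 0
      · subst hd
        have := h.of_zero
        subst this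
        exact zero_mem _
      · obtain ⟨σ, hσ⟩ : ∃ σ, d σ ≠ 0 := by
          by_contra hcon
          push Not at hcon
          exact hd (funext hcon)
        obtain ⟨a', ha'⟩ := exists_tok ((0 : N), d) σ (Nat.one_le_iff_ne_zero.2 hσ)
        have h1 : a'.1 = 0 := by
          have := congrArg Prod.fst ha'
          simpa [tok] using this.symm
        have h2 : d = a'.2 + ev σ := congrArg Prod.snd ha'
        rw [ha'] at h
        obtain ⟨c, c', hc, r1, r2⟩ := h.split
        have ha2 : a' = (0, a'.2) := Prod.ext h1 rfl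
        rw [ha2] at r1
        have hlt : ∑ t, a'.2 t < n := by
          rw [← hn, h2]
          simp only [Pi.add_apply, Finset.sum_add_distrib, sum_ev]
          omega
        have h3 := ih _ hlt a'.2 c r1 rfl
        have h4 := big_single (Q := fun σ => {b | Reach F S (tok N σ) b}) (z := c') r2
        have h5 := add_mem h3 h4
        rw [hc, h2]
        exact h5
  · intro h
    have key : ∀ y ∈ Big (fun σ => {b | Reach F S (tok N σ) b}), Reach F S (0, y.2) y.1 := by
      intro y hy
      induction hy using AddSubmonoid.closure_induction with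
      | mem y hy =>
        obtain ⟨σ, z, hz, rfl⟩ := Set.mem_iUnion.1 hy
        exact hz
      | zero => exact Reach.refl
      | add y z _ _ hy hz =>
        have := hy.add hz
        simpa using this
    exact key _ h

theorem reach_iff_big' [Finite T] (a x : N × (T → ℕ)) :
    Reach F S a x ↔ ∃ y, (y, a.2) ∈ Big (fun σ => {b | Reach F S (tok N σ) b}) ∧
      x = (a.1, 0) + y := by
  have ha : a = (a.1, 0) + (0, a.2) := by simp
  constructor
  · intro h
    rw [ha] at h
    obtain ⟨c, c', hc, h1, h2⟩ := h.split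
    have := h1.of_zero
    subst this
    exact ⟨c', (reach_iff_big _ _).1 h2, hc⟩
  · rintro ⟨y, hy, rfl⟩
    have h1 : Reach F S ((a.1, 0) + (0, a.2)) ((a.1, 0) + y) :=
      Reach.refl.add ((reach_iff_big _ _).2 hy)
    rwa [← ha] at h1

/-- Results of expanding one token `ρ` once and then rewriting with `S`. -/
def Zset (F : T → Set (N × (T → ℕ))) (S : Set T) (ρ : T) : Set (N × (T → ℕ)) :=
  {z | ∃ b ∈ F ρ, Reach F S b z}

/-- Multiples of elements of `Zset`. -/
def Cl (F : T → Set (N × (T → ℕ))) (S : Set T) (ρ : T) :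
    AddSubmonoid ((N × (T → ℕ)) × ℕ) :=
  AddSubmonoid.closure ((fun z => (z, 1)) '' Zset F S ρ)

theorem cl_zero {ρ : T} {x : (N × (T → ℕ)) × ℕ} (hx : x ∈ Cl F S ρ) : x.2 = 0 → x.1 = 0 := by
  induction hx using AddSubmonoid.closure_induction with
  | mem x hx =>
    obtain ⟨z, hz, rfl⟩ := hx
    intro h
    simp at h
  | zero => intro _; rfl
  | add x y _ _ hx hy =>
    intro h
    rw [Prod.snd_add] at h
    rw [Prod.fst_add, hx (by omega), hy (by omega), add_zero]

theorem cl_step {ρ σ : T} (hσ : σ ∈ S) {b : N × (T → ℕ)} (hb : b ∈ F σ)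
    {x : (N × (T → ℕ)) × ℕ} (hx : x ∈ Cl F S ρ) :
    ∀ z, x.1 = z + tok N σ → (z + b, x.2) ∈ Cl F S ρ := by
  induction hx using AddSubmonoid.closure_induction with
  | mem x hx =>
    obtain ⟨y, ⟨c, hc, hy⟩, rfl⟩ := hx
    intro z hz
    simp only at hz
    subst hz
    exact AddSubmonoid.subset_closure ⟨z + b, ⟨c, hc, Reach.step hy hσ hb⟩, rfl⟩
  | zero =>
    intro z hz
    exfalso
    have := congrFun (congrArg Prod.snd hz) σ
    simp only [Prod.snd_add, Pi.add_apply, tok_snd_self, Prod.fst_zero, Prod.snd_zero,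
      Pi.zero_apply] at this
    omega
  | add x y hx0 hy0 hx hy =>
    intro z hz
    rw [Prod.fst_add] at hz
    have hcount : 1 ≤ x.1.2 σ + y.1.2 σ := by
      have := congrFun (congrArg Prod.snd hz) σ
      simp only [Prod.snd_add, Pi.add_apply, tok_snd_self] at this
      omega
    rcases Nat.lt_or_ge (x.1.2 σ) 1 with hlt | hge
    · obtain ⟨y', hy'⟩ := exists_tok y.1 σ (by omega)
      have h1 := hy y' hy'
      have h2 := add_mem hx0 h1
      have h3 : z = x.1 + y' := by
        apply tok_cancel (σ := σ)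
        rw [← hz, hy']; abel
      have h4 : (z + b, (x + y).2) = x + (y' + b, y.2) := by
        rw [h3]
        ext1
        · simp only [Prod.fst_add]; abel
        · simp
      rw [h4]; exact h2
    · obtain ⟨x', hx'⟩ := exists_tok x.1 σ hge
      have h1 := hx x' hx'
      have h2 := add_mem h1 hy0
      have h3 : z = x' + y.1 := by
        apply tok_cancel (σ := σ)
        rw [← hz, hx']; abel
      have h4 : (z + b, (x + y).2) = (x' + b, x.2) + y := by
        rw [h3]
        ext1
        · simp only [Prod.fst_add]; abel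
        · simp
      rw [h4]; exact h2

theorem cl_multiset {ρ : T} {x : (N × (T → ℕ)) × ℕ} (hx : x ∈ Cl F S ρ) :
    ∃ L : Multiset (N × (T → ℕ)), (∀ z ∈ L, z ∈ Zset F S ρ) ∧ L.sum = x.1 ∧
      Multiset.card L = x.2 := by
  induction hx using AddSubmonoid.closure_induction with
  | mem x hx =>
    obtain ⟨z, hz, rfl⟩ := hx
    exact ⟨{z}, by simpa using hz, by simp, by simp⟩
  | zero => exact ⟨0, by simp, by simp, by simp⟩
  | add x y _ _ hx hy =>
    obtain ⟨L, a1, a2, a3⟩ := hx
    obtain ⟨L', b1, b2, b3⟩ := hy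
    refine ⟨L + L', ?_, ?_, ?_⟩
    · intro z hz
      rcases Multiset.mem_add.1 hz with h | h
      · exact a1 z h
      · exact b1 z h
    · simp [a2, b2]
    · simp [a3, b3]

/-- Reassembling. -/
theorem reassemble {ρ : T} (n : ℕ) : ∀ (L : Multiset (N × (T → ℕ))), Multiset.card L = n →
    (∀ z ∈ L, z ∈ Zset F S ρ) → ∀ a b : N × (T → ℕ), (n = 0 ∨ 1 ≤ a.2 ρ) →
    b + n • tok N ρ = a + L.sum → Reach F (insert ρ S) a b := by
  induction n with
  | zero =>
    intro L hL _ a b _ h
    rw [Multiset.card_eq_zero] at hL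
    subst hL
    have : b = a := by simpa using h
    rw [this]; exact Reach.refl
  | succ n ih =>
    intro L hL hZ a b ha h
    have ha' : 1 ≤ a.2 ρ := by
      rcases ha with h | h
      · exact absurd h (Nat.succ_ne_zero n)
      · exact h
    obtain ⟨a', rfl⟩ := exists_tok a ρ ha'
    have hexp : ∀ z ∈ L, Reach F (insert ρ S) (a' + tok N ρ) (a' + z) := by
      intro z hz
      obtain ⟨c, hc, hcz⟩ := hZ z hz
      have h1 : Reach F (insert ρ S) (a' + tok N ρ) (a' + c) :=
        Reach.step Reach.refl (Set.mem_insert _ _) hc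
      have h2 : Reach F (insert ρ S) (a' + c) (a' + z) := by
        have := (hcz.mono (Set.subset_insert ρ S)).add_right a'
        rwa [add_comm c, add_comm z] at this
      exact h1.trans h2
    have hrest : ∀ z ∈ L, ∀ L', L = z ::ₘ L' → b + n • tok N ρ = (a' + z) + L'.sum := by
      intro z hz L' hL'
      apply tok_cancel (σ := ρ)
      rw [hL'] at h
      rw [Multiset.sum_cons] at h
      have e1 : b + n • tok N ρ + tok N ρ = b + (n + 1) • tok N ρ := by
        rw [add_smul, one_smul]; abel
      rw [e1, h]; abel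
    by_cases hex : ∃ z ∈ L, 1 ≤ z.2 ρ
    · obtain ⟨z, hz, hz1⟩ := hex
      obtain ⟨L', hL'⟩ := Multiset.exists_cons_of_mem hz
      refine (hexp z hz).trans (ih L' ?_ ?_ (a' + z) b (Or.inr ?_) (hrest z hz L' hL'))
      · rw [hL', Multiset.card_cons] at hL; omega
      · intro y hy; exact hZ y (by rw [hL']; exact Multiset.mem_cons_of_mem hy)
      · simp only [Prod.snd_add, Pi.add_apply]; omega
    · push Not at hex
      obtain ⟨z, hz⟩ : ∃ z, z ∈ L := by
        have : 0 < Multiset.card L := by omega
        exact Multiset.card_pos_iff_exists_mem.1 this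
      obtain ⟨L', hL'⟩ := Multiset.exists_cons_of_mem hz
      refine (hexp z hz).trans (ih L' ?_ ?_ (a' + z) b ?_ (hrest z hz L' hL'))
      · rw [hL', Multiset.card_cons] at hL; omega
      · intro y hy; exact hZ y (by rw [hL']; exact Multiset.mem_cons_of_mem hy)
      · have hs : ∀ K : Multiset (N × (T → ℕ)), (∀ z ∈ K, z.2 ρ < 1) → K.sum.2 ρ = 0 := by
          intro K
          induction K using Multiset.induction with
          | empty => intro _; simp
          | cons k K ihK =>
            intro hK
            have h1 := hK k (Multiset.mem_cons_self _ _)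
            have h2 := ihK (fun z hz => hK z (Multiset.mem_cons_of_mem hz))
            rw [Multiset.sum_cons, Prod.snd_add, Pi.add_apply]
            omega
        have h0 := hs L hex
        have h1 := congrFun (congrArg Prod.snd h) ρ
        simp only [Prod.snd_add, Pi.add_apply, tok_snd_self, Prod.smul_snd] at h1
        rw [h0] at h1
        simp only [Pi.smul_apply, tok_snd_self, smul_eq_mul, mul_one] at h1
        simp only [Prod.snd_add, Pi.add_apply]
        omega

/-- Characterisation of reachability with one more active token type. -/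
theorem reach_insert {ρ : T} (hρ : ρ ∉ S) (τ : T) (b : N × (T → ℕ)) :
    Reach F (insert ρ S) (tok N τ) b ↔
      ∃ a z, ∃ n : ℕ, Reach F S (tok N τ) a ∧ (z, n) ∈ Cl F S ρ ∧ (n = 0 ∨ 1 ≤ a.2 ρ) ∧
        b + n • tok N ρ = a + z := by
  constructor
  · intro h
    induction h with
    | refl => exact ⟨tok N τ, 0, 0, Reach.refl, zero_mem _, Or.inl rfl, by simp⟩
    | @step c b σ _ hσ hb ih =>
      obtain ⟨a, z, n, h1, h2, h3, h4⟩ := ih
      rcases Set.mem_insert_iff.1 hσ with rfl | hσS
      · refine ⟨a, z + b, n + 1, h1, ?_, Or.inr ?_, ?_⟩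
        · have : ((z + b, n + 1) : (N × (T → ℕ)) × ℕ) = (z, n) + (b, 1) := rfl
          rw [this]
          exact add_mem h2 (AddSubmonoid.subset_closure ⟨b, ⟨b, hb, Reach.refl⟩, rfl⟩)
        · rcases h3 with h3 | h3
          · subst h3
            have hz := cl_zero h2 rfl
            simp only at hz
            rw [hz] at h4
            have := congrFun (congrArg Prod.snd h4) σ
            simp only [Prod.snd_add, Pi.add_apply, tok_snd_self, zero_smul, add_zero] at this
            omega
          · exact h3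
        · calc c + b + (n + 1) • tok N σ = (c + tok N σ + n • tok N σ) + b := by
                rw [add_smul, one_smul]; abel
            _ = a + (z + b) := by rw [h4]; abel
      · have hne : ρ ≠ σ := fun h => hρ (h ▸ hσS)
        have hcount : 1 ≤ a.2 σ + z.2 σ := by
          have := congrFun (congrArg Prod.snd h4) σ
          simp only [Prod.snd_add, Pi.add_apply, tok_snd_self] at this
          omega
        rcases Nat.lt_or_ge (a.2 σ) 1 with hlt | hge
        · obtain ⟨z', hz'⟩ := exists_tok z σ (by omega)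
          refine ⟨a, z' + b, n, h1, cl_step hσS hb h2 z' hz', h3, ?_⟩
          have h5 : c + n • tok N ρ = a + z' := by
            apply tok_cancel (σ := σ)
            calc c + n • tok N ρ + tok N σ = c + tok N σ + n • tok N ρ := by abel
              _ = a + z := h4
              _ = a + z' + tok N σ := by rw [hz']; abel
          calc c + b + n • tok N ρ = (c + n • tok N ρ) + b := by abel
            _ = a + (z' + b) := by rw [h5]; abel
        · obtain ⟨a', ha'⟩ := exists_tok a σ hge
          subst ha'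
          refine ⟨a' + b, z, n, Reach.step h1 hσS hb, h2, ?_, ?_⟩
          · rcases h3 with h3 | h3
            · exact Or.inl h3
            · right
              simp only [Prod.snd_add, Pi.add_apply, tok_snd_ne hne] at h3 ⊢
              omega
          · have h5 : c + n • tok N ρ = a' + z := by
              apply tok_cancel (σ := σ)
              calc c + n • tok N ρ + tok N σ = c + tok N σ + n • tok N ρ := by abel
                _ = a' + tok N σ + z := h4
                _ = a' + z + tok N σ := by abel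
            calc c + b + n • tok N ρ = (c + n • tok N ρ) + b := by abel
              _ = a' + b + z := by rw [h5]; abel
  · rintro ⟨a, z, n, h1, h2, h3, h4⟩
    obtain ⟨L, l1, l2, l3⟩ := cl_multiset h2
    simp only at l2 l3
    have h5 := reassemble n L l3 l1 a b h3 (by rw [h4, l2])
    exact (h1.mono (Set.subset_insert ρ S)).trans h5

theorem semilinear_prod {A C : Type*} [AddCommMonoid A] [AddCommMonoid C] {s : Set A} {t : Set C}
    (hs : IsSemilinearSet s) (ht : IsSemilinearSet t) : IsSemilinearSet (s ×ˢ t) := by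
  have a1 := hs.image (AddMonoidHom.inl A C)
  have a2 := ht.image (AddMonoidHom.inr A C)
  have a3 := a1.add a2
  convert a3 using 1
  ext ⟨x, y⟩
  constructor
  · rintro ⟨hx, hy⟩
    exact Set.mem_add.2 ⟨(x, 0), ⟨x, hx, rfl⟩, (0, y), ⟨y, hy, rfl⟩, by simp⟩
  · intro h
    obtain ⟨_, ⟨x', hx', rfl⟩, _, ⟨y', hy', rfl⟩, h⟩ := Set.mem_add.1 h
    simp only [AddMonoidHom.inl_apply, AddMonoidHom.inr_apply, Prod.mk_add_mk, add_zero,
      zero_add, Prod.mk.injEq] at h
    obtain ⟨rfl, rfl⟩ := h
    exact ⟨hx', hy'⟩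

theorem semilinear_eq {P Q : Type*} [AddCommMonoid P] [AddCommMonoid Q] [AddMonoid.FG P]
    (f g : P →+ Q) : IsSemilinearSet {x | f x = g x} := by
  simpa using isSemilinearSet_setOfPred_eq (0 : Q) 0 f g

theorem semilinear_ge_one : IsSemilinearSet {k : ℕ | 1 ≤ k} := by
  have h := (IsSemilinearSet.univ (M := ℕ)).vadd 1
  convert h using 1
  ext k
  constructor
  · intro hk
    exact ⟨k - 1, trivial, by
      simp only [Set.mem_ofPred_eq] at hk
      simp only [vadd_eq_add]; omega⟩
  · rintro ⟨j, -, rfl⟩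
    simp only [vadd_eq_add, Set.mem_ofPred_eq]; omega

theorem semilinear_Zset [AddMonoid.FG N] [Finite T] (hF : ∀ τ, IsSemilinearSet (F τ))
    (hS : ∀ τ, IsSemilinearSet {b | Reach F S (tok N τ) b}) (ρ : T) :
    IsSemilinearSet (Zset F S ρ) := by
  let A := N × (T → ℕ)
  have h1 : IsSemilinearSet ((F ρ) ×ˢ (Big (fun σ => {b | Reach F S (tok N σ) b}) :
      Set ((N × (T → ℕ)) × (T → ℕ)))) := semilinear_prod (hF ρ) (semilinear_big hS)
  let f1 : (N × (T → ℕ)) × ((N × (T → ℕ)) × (T → ℕ)) →+ (T → ℕ) :=
    (AddMonoidHom.snd _ _).comp (AddMonoidHom.fst _ _)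
  let f2 : (N × (T → ℕ)) × ((N × (T → ℕ)) × (T → ℕ)) →+ (T → ℕ) :=
    (AddMonoidHom.snd _ _).comp (AddMonoidHom.snd _ _)
  have h2 := h1.inter (semilinear_eq f1 f2)
  let g1 : (N × (T → ℕ)) × ((N × (T → ℕ)) × (T → ℕ)) →+ (N × (T → ℕ)) :=
    ((AddMonoidHom.inl N (T → ℕ)).comp (AddMonoidHom.fst _ _)).comp (AddMonoidHom.fst _ _)
  let g2 : (N × (T → ℕ)) × ((N × (T → ℕ)) × (T → ℕ)) →+ (N × (T → ℕ)) :=
    (AddMonoidHom.fst _ _).comp (AddMonoidHom.snd _ _)
  have h3 := h2.image (g1 + g2)
  convert h3 using 1
  ext z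
  constructor
  · rintro ⟨b, hb, hbz⟩
    obtain ⟨y, hy, rfl⟩ := (reach_iff_big' b z).1 hbz
    exact ⟨(b, (y, b.2)), ⟨⟨hb, hy⟩, rfl⟩, rfl⟩
  · rintro ⟨⟨b, y, d⟩, ⟨⟨hb, hy⟩, hd⟩, rfl⟩
    have hd' : b.2 = d := hd
    subst hd'
    exact ⟨b, hb, (reach_iff_big' b _).2 ⟨y, hy, rfl⟩⟩

theorem semilinear_reach_finset [AddMonoid.FG N] [Finite T] (hF : ∀ τ, IsSemilinearSet (F τ))
    (S : Finset T) : ∀ τ, IsSemilinearSet {b | Reach F (S : Set T) (tok N τ) b} := by
  classical
  induction S using Finset.induction_on with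
  | empty =>
    intro τ
    have : {b | Reach F ((∅ : Finset T) : Set T) (tok N τ) b} = {tok N τ} := by
      ext b
      constructor
      · intro h
        have h' : Reach F ∅ (tok N τ) b := by simpa using h
        exact h'.empty
      · rintro rfl
        exact Reach.refl
    rw [this]
    exact IsSemilinearSet.singleton _
  | insert ρ S hρ ih =>
    intro τ
    have hρ' : ρ ∉ (S : Set T) := by simpa using hρ
    have hZ := semilinear_Zset hF ih ρ
    have hCl : IsSemilinearSet (Cl F (S : Set T) ρ : Set ((N × (T → ℕ)) × ℕ)) :=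
      (semilinear_pair hZ 1).closure
    have h1 := semilinear_prod (IsSemilinearSet.univ (M := N × (T → ℕ)))
      (semilinear_prod (ih τ) hCl)
    let P := (N × (T → ℕ)) × ((N × (T → ℕ)) × ((N × (T → ℕ)) × ℕ))
    let pb : P →+ (N × (T → ℕ)) := AddMonoidHom.fst _ _
    let pa : P →+ (N × (T → ℕ)) := (AddMonoidHom.fst _ _).comp (AddMonoidHom.snd _ _)
    let pz : P →+ (N × (T → ℕ)) :=
      ((AddMonoidHom.fst _ _).comp (AddMonoidHom.snd _ _)).comp (AddMonoidHom.snd _ _)
    let pn : P →+ ℕ :=
      ((AddMonoidHom.snd _ _).comp (AddMonoidHom.snd _ _)).comp (AddMonoidHom.snd _ _)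
    let pρ : P →+ ℕ := ((Pi.evalAddMonoidHom (fun _ : T => ℕ) ρ).comp
      (AddMonoidHom.snd N (T → ℕ))).comp pa
    have h2 : IsSemilinearSet {x : P | pn x = 0} := by
      simpa using semilinear_eq pn 0
    have h3 : IsSemilinearSet {x : P | 1 ≤ pρ x} := semilinear_ge_one.preimage pρ
    have h4 : IsSemilinearSet {x : P | (pb + ((multiplesHom (N × (T → ℕ))) (tok N ρ)).comp pn) x
        = (pa + pz) x} := semilinear_eq _ _
    have h5 := ((h1.inter (h2.union h3)).inter h4).image pb
    convert h5 using 1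
    ext b
    rw [Set.mem_ofPred_eq, Finset.coe_insert, reach_insert hρ']
    constructor
    · rintro ⟨a, z, n, r1, r2, r3, r4⟩
      refine ⟨(b, (a, (z, n))), ⟨⟨⟨trivial, r1, r2⟩, ?_⟩, ?_⟩, rfl⟩
      · rcases r3 with r3 | r3
        · exact Or.inl r3
        · exact Or.inr r3
      · exact r4
    · rintro ⟨⟨b', a, z, n⟩, ⟨⟨⟨-, r1, r2⟩, r3⟩, r4⟩, rfl⟩
      refine ⟨a, z, n, r1, r2, ?_, r4⟩
      rcases r3 with r3 | r3
      · exact Or.inl r3
      · exact Or.inr r3

/-- The language generated from one token is semilinear. -/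
theorem semilinear_language [AddMonoid.FG N] [Finite T] (hF : ∀ τ, IsSemilinearSet (F τ)) (τ : T) :
    IsSemilinearSet {m : N | Reach F Set.univ (tok N τ) (m, 0)} := by
  have := Fintype.ofFinite T
  have h1 := semilinear_reach_finset hF (Finset.univ : Finset T) τ
  rw [Finset.coe_univ] at h1
  have h2 := (semilinear_prod (IsSemilinearSet.univ (M := N))
    (IsSemilinearSet.singleton (0 : T → ℕ)))
  have h3 := (h1.inter h2).image (AddMonoidHom.fst N (T → ℕ))
  convert h3 using 1
  ext m
  constructor
  · intro h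
    exact ⟨(m, 0), ⟨h, trivial, rfl⟩, rfl⟩
  · rintro ⟨⟨m', d⟩, ⟨h, -, hd⟩, rfl⟩
    have : d = 0 := hd
    subst this
    exact h

end Pool.Agent.Lib.MP_60edde_al.Parikh
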