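import Mathlib
import Pool.Agent.Lib.MP_60edde_al.Parikh

/-!
Groups whose word problem has semilinear intersections with finite labelled graphs.
-/

namespace Pool.Agent.Lib.MP_60edde_al.Sli

open Parikh

universe u

section walk

variable {V E : Type*} {G : Type*} [Group G]

/-- Walks in a labelled graph, with label and edge counts. -/
inductive Walk (src tgt : E → V) (lab : E → G) : V → V → G → (E → ℕ) → Prop
  | nil (v : V) : Walk src tgt lab v v 1 0
  | cons (e : E) {v : V} {g : G} {c : E → ℕ} : Walk src tgt lab (tgt e) v g c →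
      Walk src tgt lab (src e) v (lab e * g) (ev e + c)

variable {src tgt : E → V} {lab : E → G}

theorem Walk.append {u v w : V} {g h : G} {c d : E → ℕ} (p : Walk src tgt lab u v g c)
    (q : Walk src tgt lab v w h d) : Walk src tgt lab u w (g * h) (c + d) := by
  induction p with
  | nil v => simpa using q
  | cons e _ ih =>
    have := Walk.cons e (ih q)
    rw [mul_assoc, add_assoc]
    exact this

theorem Walk.map {G' : Type*} [Group G'] (φ : G →* G') {u v : V} {g : G} {c : E → ℕ}
    (p : Walk src tgt lab u v g c) : Walk src tgt (fun e => φ (lab e)) u v (φ g) c := by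
  induction p with
  | nil v => rw [map_one]; exact Walk.nil v
  | cons e _ ih => rw [map_mul]; exact Walk.cons e ih

theorem Walk.of_map {G' : Type*} [Group G'] (φ : G →* G') {u v : V} {g' : G'} {c : E → ℕ}
    (p : Walk src tgt (fun e => φ (lab e)) u v g' c) :
    ∃ g, g' = φ g ∧ Walk src tgt lab u v g c := by
  induction p with
  | nil v => exact ⟨1, (map_one φ).symm, Walk.nil v⟩
  | cons e _ ih =>
    obtain ⟨g, rfl, h⟩ := ih
    exact ⟨lab e * g, by rw [map_mul], Walk.cons e h⟩

end walk

/-- Semilinear word problem. -/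
def SLI (G : Type*) [Group G] : Prop :=
  ∀ (V E : Type) [Finite V] [Finite E] (src tgt : E → V) (lab : E → G) (u v : V),
    IsSemilinearSet {c : E → ℕ | Walk src tgt lab u v 1 c}

theorem SLI.of_injective {G K : Type*} [Group G] [Group K] (φ : K →* G)
    (hφ : Function.Injective φ) (h : SLI G) : SLI K := by
  classical
  intro V E _ _ src tgt lab u v
  convert h V E src tgt (fun e => φ (lab e)) u v using 1
  ext c
  constructor
  · intro p
    have := Walk.map φ p
    rwa [map_one] at this
  · intro p
    obtain ⟨g, hg, q⟩ := Walk.of_map φ p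
    have : g = 1 := hφ (by rw [← hg, map_one])
    rwa [this] at q

/-- The total of the integer labels. -/
theorem walk_prod {V E : Type*} [Fintype E] {G : Type*} [Group G]
    {src tgt : E → V} {lab : E → G × Multiplicative ℤ} {u v : V} {g : G × Multiplicative ℤ}
    {c : E → ℕ} (p : Walk src tgt lab u v g c) :
    Walk src tgt (fun e => (lab e).1) u v g.1 c ∧
      Multiplicative.toAdd g.2 = ∑ e, (c e : ℤ) * Multiplicative.toAdd (lab e).2 := by
  induction p with
  | nil v => exact ⟨Walk.nil v, by simp⟩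
  | @cons e v g c _ ih =>
    refine ⟨Walk.cons e ih.1, ?_⟩
    rw [Prod.snd_mul, toAdd_mul, ih.2]
    simp only [Pi.add_apply, Nat.cast_add, add_mul, Finset.sum_add_distrib]
    congr 1
    rw [Finset.sum_eq_single e]
    · rw [ev_self]; simp
    · intro b _ hb
      rw [ev_ne hb]; simp
    · intro h; exact absurd (Finset.mem_univ e) h

theorem walk_prod' {V E : Type*} {G : Type*} [Group G]
    {src tgt : E → V} {lab : E → G × Multiplicative ℤ} {u v : V} {g : G}
    {c : E → ℕ} (p : Walk src tgt (fun e => (lab e).1) u v g c) :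
    ∃ z, Walk src tgt lab u v (g, z) c := by
  induction p with
  | nil v => exact ⟨1, Walk.nil v⟩
  | @cons e v g c _ ih =>
    obtain ⟨z, hz⟩ := ih
    exact ⟨(lab e).2 * z, Walk.cons e hz⟩

theorem SLI.prod_int {G : Type*} [Group G] (h : SLI G) : SLI (G × Multiplicative ℤ) := by
  classical
  intro V E _ _ src tgt lab u v
  have := Fintype.ofFinite E
  let f : (E → ℕ) →+ ℤ :=
    { toFun := fun c => ∑ e, (c e : ℤ) * Multiplicative.toAdd (lab e).2
      map_zero' := by simp
      map_add' := by
        intro c d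
        simp only [Pi.add_apply, Nat.cast_add, add_mul, Finset.sum_add_distrib] }
  have h1 := (h V E src tgt (fun e => (lab e).1) u v).inter (semilinear_eq f 0)
  convert h1 using 1
  ext c
  constructor
  · intro p
    obtain ⟨q, hq⟩ := walk_prod p
    exact ⟨q, hq.symm⟩
  · rintro ⟨p, hp⟩
    obtain ⟨z, hz⟩ := walk_prod' p
    obtain ⟨-, h3⟩ := walk_prod hz
    have h4 : Multiplicative.toAdd z = 0 := h3.trans hp
    have h5 : z = 1 := h4
    rw [h5] at hz
    exact hz

/-! ### Finite index -/

section finite_index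

variable {G : Type*} [Group G] (H : Subgroup G)

theorem schreier_mem (a : G) (q : G ⧸ H) :
    (Quotient.out (a • q))⁻¹ * a * Quotient.out q ∈ H := by
  have h1 : ((a * Quotient.out q : G) : G ⧸ H) = ((Quotient.out (a • q) : G) : G ⧸ H) := by
    have h2 : ((Quotient.out (a • q) : G) : G ⧸ H) = a • q := Quotient.out_eq _
    rw [h2]
    have h3 : ((Quotient.out q : G) : G ⧸ H) = q := Quotient.out_eq _
    conv_rhs => rw [← h3]
    rfl
  have h2 := (QuotientGroup.eq.1 h1.symm)
  rwa [← mul_assoc] at h2

/-- Schreier label. -/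
noncomputable def sch (a : G) (q : G ⧸ H) : H :=
  ⟨(Quotient.out (a • q))⁻¹ * a * Quotient.out q, schreier_mem H a q⟩

variable {V E : Type*}
  {src tgt : E → V} {lab : E → G}

/-- Push forward of counts. -/
noncomputable def push [Fintype (G ⧸ H)] : (E × (G ⧸ H) → ℕ) →+ (E → ℕ) where
  toFun c := fun e => ∑ q, c (e, q)
  map_zero' := by ext e; simp
  map_add' := by intro c d; ext e; simp [Finset.sum_add_distrib]

theorem push_single [Fintype (G ⧸ H)] (e : E) (q : G ⧸ H) :
    push H (ev (e, q) : E × (G ⧸ H) → ℕ) = ev e := by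
  ext e'
  change ∑ q', (ev (e, q) : E × (G ⧸ H) → ℕ) (e', q') = _
  by_cases h : e' = e
  · subst h
    rw [Finset.sum_eq_single q]
    · rw [ev_self, ev_self]
    · intro b _ hb
      rw [ev_ne]
      intro h'
      exact hb (congrArg Prod.snd h')
    · intro h; exact absurd (Finset.mem_univ q) h
  · rw [ev_ne h]
    apply Finset.sum_eq_zero
    intro b _
    rw [ev_ne]
    intro h'
    exact h (congrArg Prod.fst h')

theorem walk_lift [Fintype (G ⧸ H)] {u v : V} {g : G} {c : E → ℕ}
    (p : Walk src tgt lab u v g c) (q : G ⧸ H) :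
    ∃ (c' : E × (G ⧸ H) → ℕ) (h : H), push H c' = c ∧
      (h : G) = (Quotient.out (g • q))⁻¹ * g * Quotient.out q ∧
      Walk (fun x : E × (G ⧸ H) => (src x.1, lab x.1 • x.2)) (fun x => (tgt x.1, x.2))
        (fun x => sch H (lab x.1) x.2) (u, g • q) (v, q) h c' := by
  induction p with
  | nil v => exact ⟨0, 1, map_zero _, by simp, by rw [one_smul]; exact Walk.nil _⟩
  | @cons e v g c _ ih =>
    obtain ⟨c', h, h1, h2, h3⟩ := ih
    refine ⟨ev (e, g • q) + c', sch H (lab e) (g • q) * h, ?_, ?_, ?_⟩
    · rw [map_add, h1, push_single]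
    · rw [Subgroup.coe_mul, h2, mul_smul]
      change (Quotient.out (lab e • g • q))⁻¹ * lab e * Quotient.out (g • q) * _ = _
      group
    · have := Walk.cons (src := fun x : E × (G ⧸ H) => (src x.1, lab x.1 • x.2))
        (tgt := fun x => (tgt x.1, x.2)) (lab := fun x => sch H (lab x.1) x.2) (e, g • q) h3
      rw [mul_smul]
      exact this

theorem walk_unlift [Fintype (G ⧸ H)] {x y : V × (G ⧸ H)} {h : H} {c' : E × (G ⧸ H) → ℕ}
    (p : Walk (fun x : E × (G ⧸ H) => (src x.1, lab x.1 • x.2)) (fun x => (tgt x.1, x.2))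
        (fun x => sch H (lab x.1) x.2) x y h c') :
    ∃ g, x.2 = g • y.2 ∧ (h : G) = (Quotient.out x.2)⁻¹ * g * Quotient.out y.2 ∧
      Walk src tgt lab x.1 y.1 g (push H c') := by
  induction p with
  | nil v => exact ⟨1, by simp, by simp, by rw [map_zero]; exact Walk.nil _⟩
  | @cons e y h c' _ ih =>
    obtain ⟨g, h1, h2, h3⟩ := ih
    simp only at h1 h2 h3 ⊢
    refine ⟨lab e.1 * g, ?_, ?_, ?_⟩
    · rw [h1, mul_smul]
    · rw [Subgroup.coe_mul, h2]
      change (Quotient.out (lab e.1 • e.2))⁻¹ * lab e.1 * Quotient.out e.2 * _ = _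
      group
    · rw [map_add]
      have : push H (ev e : E × (G ⧸ H) → ℕ) = ev e.1 := push_single H e.1 e.2
      rw [this]
      exact Walk.cons e.1 h3

end finite_index

/-! ### Universe transport -/

theorem Walk.reindex {V V' E E' : Type*}  {G : Type*} [Group G]
    {src tgt : E → V} {lab : E → G} (fV : V → V') (eE : E' ≃ E) {u v : V} {g : G} {c : E → ℕ}
    (p : Walk src tgt lab u v g c) :
    Walk (fun e => fV (src (eE e))) (fun e => fV (tgt (eE e))) (fun e => lab (eE e))
      (fV u) (fV v) g (fun e => c (eE e)) := by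
  induction p with
  | nil v => exact Walk.nil _
  | @cons e v g c _ ih =>
    obtain ⟨e', rfl⟩ := eE.surjective e
    have := Walk.cons (src := fun e => fV (src (eE e))) (tgt := fun e => fV (tgt (eE e)))
      (lab := fun e => lab (eE e)) e' ih
    convert this using 1
    ext x
    simp only [Pi.add_apply]
    congr 1
    by_cases h : x = e'
    · subst h; rw [ev_self, ev_self]
    · rw [ev_ne h, ev_ne (fun h' => h (eE.injective h'))]

theorem SLI.apply {G : Type*} [Group G] (h : SLI G) {V E : Type*} [Finite V] [Finite E]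
    (src tgt : E → V) (lab : E → G) (u v : V) :
    IsSemilinearSet {c : E → ℕ | Walk src tgt lab u v 1 c} := by
  obtain ⟨n, ⟨eV⟩⟩ := Finite.exists_equiv_fin V
  obtain ⟨k, ⟨eE⟩⟩ := Finite.exists_equiv_fin E
  have h1 := h (Fin n) (Fin k) (fun e => eV (src (eE.symm e))) (fun e => eV (tgt (eE.symm e)))
    (fun e => lab (eE.symm e)) (eV u) (eV v)
  let f : (Fin k → ℕ) →+ (E → ℕ) :=
    { toFun := fun c e => c (eE e), map_zero' := rfl, map_add' := fun _ _ => rfl }
  convert h1.image f using 1
  ext c
  constructor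
  · intro p
    refine ⟨fun e => c (eE.symm e), Walk.reindex eV eE.symm p, ?_⟩
    ext e
    change c (eE.symm (eE e)) = c e
    rw [Equiv.symm_apply_apply]
  · rintro ⟨c', p, rfl⟩
    have := Walk.reindex eV.symm eE p
    simp only [Equiv.symm_apply_apply] at this
    exact this

theorem SLI.of_finiteIndex {G : Type*} [Group G] (H : Subgroup G) [H.FiniteIndex] (h : SLI H) :
    SLI G := by
  classical
  intro V E _ _ src tgt lab u v
  have := Fintype.ofFinite (G ⧸ H)
  have h1 := h.apply (fun x : E × (G ⧸ H) => (src x.1, lab x.1 • x.2)) (fun x => (tgt x.1, x.2))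
    (fun x => sch H (lab x.1) x.2) (u, ((1 : G) : G ⧸ H)) (v, ((1 : G) : G ⧸ H))
  convert h1.image (push H) using 1
  ext c
  constructor
  · intro p
    obtain ⟨c', k, h1, h2, h3⟩ := walk_lift H p ((1 : G) : G ⧸ H)
    rw [one_smul] at h2 h3
    have hk : k = 1 := by
      apply Subtype.ext
      rw [h2]; simp
    rw [hk] at h3
    exact ⟨c', h3, h1⟩
  · rintro ⟨c', p, rfl⟩
    obtain ⟨g, h1, h2, h3⟩ := walk_unlift H p
    simp only at h1 h2 h3
    have hg : g = 1 := by
      have h4 : (Quotient.out ((1 : G) : G ⧸ H))⁻¹ * g * Quotient.out ((1 : G) : G ⧸ H) = 1 := by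
        rw [← h2]; rfl
      have h5 : g = Quotient.out ((1 : G) : G ⧸ H) *
          ((Quotient.out ((1 : G) : G ⧸ H))⁻¹ * g * Quotient.out ((1 : G) : G ⧸ H)) *
          (Quotient.out ((1 : G) : G ⧸ H))⁻¹ := by group
      rw [h5, h4]; group
    rw [hg] at h3
    exact h3

end Pool.Agent.Lib.MP_60edde_al.Sli
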