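import Mathlib
import Pool.Agent.Lib.MP_60edde_al.Sli

/-!
The class of groups with semilinear word problem is closed under free products.
-/

namespace Pool.Agent.Lib.MP_60edde_al.Sli

open Parikh Monoid.CoprodI

section big_split_add

variable {A T : Type*} [AddCommMonoid A]

theorem big_split_add {Q : T → Set A} {x : A × (T → ℕ)} (hx : x ∈ Big Q) :
    ∀ d₁ d₂ : T → ℕ, x.2 = d₁ + d₂ →
      ∃ m₁ m₂, (m₁, d₁) ∈ Big Q ∧ (m₂, d₂) ∈ Big Q ∧ x.1 = m₁ + m₂ := by
  induction hx using AddSubmonoid.closure_induction with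
  | mem x hx =>
    obtain ⟨σ, z, hz, rfl⟩ := Set.mem_iUnion.1 hx
    intro d₁ d₂ h
    simp only at h
    have h1 : ∀ t, ev σ t = d₁ t + d₂ t := fun t => congrFun h t
    have h2 := h1 σ
    rw [ev_self] at h2
    have h3 : ∀ t, t ≠ σ → d₁ t = 0 ∧ d₂ t = 0 := by
      intro t ht
      have := h1 t
      rw [ev_ne ht] at this
      omega
    rcases Nat.eq_zero_or_pos (d₁ σ) with h0 | h0
    · have e1 : d₁ = 0 := by
        funext t
        by_cases ht : t = σ
        · rw [ht]; exact h0
        · exact (h3 t ht).1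
      have e2 : d₂ = ev σ := by rw [h, e1, zero_add]
      refine ⟨0, z, ?_, ?_, by simp⟩
      · rw [e1]; exact zero_mem _
      · rw [e2]; exact big_single hz
    · have e1 : d₂ = 0 := by
        funext t
        by_cases ht : t = σ
        · rw [ht]; simp only [Pi.zero_apply]; omega
        · exact (h3 t ht).2
      have e2 : d₁ = ev σ := by rw [h, e1, add_zero]
      refine ⟨z, 0, ?_, ?_, by simp⟩
      · rw [e2]; exact big_single hz
      · rw [e1]; exact zero_mem _
  | zero =>
    intro d₁ d₂ h
    have h1 : ∀ t, 0 = d₁ t + d₂ t := fun t => congrFun h t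
    have e1 : d₁ = 0 := by funext t; have := h1 t; simp only [Pi.zero_apply]; omega
    have e2 : d₂ = 0 := by funext t; have := h1 t; simp only [Pi.zero_apply]; omega
    refine ⟨0, 0, ?_, ?_, by simp⟩
    · rw [e1]; exact zero_mem _
    · rw [e2]; exact zero_mem _
  | add x y _ _ hx hy =>
    intro d₁ d₂ h
    have h1 : ∀ t, x.2 t + y.2 t = d₁ t + d₂ t := fun t => congrFun h t
    obtain ⟨p1, p2, a1, a2, a3⟩ := hx (fun t => min (x.2 t) (d₁ t))
      (fun t => x.2 t - min (x.2 t) (d₁ t)) (by
        funext t; simp only [Pi.add_apply]; omega)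
    obtain ⟨q1, q2, b1, b2, b3⟩ := hy (fun t => d₁ t - min (x.2 t) (d₁ t))
      (fun t => d₂ t - (x.2 t - min (x.2 t) (d₁ t))) (by
        funext t; simp only [Pi.add_apply]; have := h1 t; omega)
    refine ⟨p1 + q1, p2 + q2, ?_, ?_, ?_⟩
    · have := add_mem a1 b1
      convert this using 1
      rw [Prod.mk_add_mk]
      congr 1
      funext t; simp only [Pi.add_apply]; omega
    · have := add_mem a2 b2
      convert this using 1
      rw [Prod.mk_add_mk]
      congr 1
      funext t; simp only [Pi.add_apply]; have := h1 t; omega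
    · rw [Prod.fst_add, a3, b3]; abel

theorem big_ev {Q : T → Set A} {z : A} {σ : T} (h : (z, ev σ) ∈ Big Q) : z ∈ Q σ := by
  obtain ⟨z', hz', y, hy, he⟩ := big_split h σ (by simp only; rw [ev_self])
  have h2 : y.2 = 0 := by
    have := congrArg Prod.snd he
    simp only [Prod.snd_add] at this
    exact (add_eq_right.1 this.symm)
  have h1 := big_zero hy h2
  have := congrArg Prod.fst he
  simp only [Prod.fst_add, h1, zero_add] at this
  rw [this]; exact hz'

end big_split_add

section freeprod

variable {ι : Type*} {G : ι → Type*} [∀ i, Group (G i)]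
variable {V E : Type*} (src tgt : E → V) (lab : E → Option (Σ i, G i))

/-- The label in the free product. -/
def letter : Option (Σ i, G i) → Monoid.CoprodI G
  | none => 1
  | some ⟨_, x⟩ => of x

open Classical in
/-- The label in the factor `i`. -/
noncomputable def labI (i : ι) (e : E) : Option (G i) :=
  match lab e with
  | none => none
  | some ⟨j, x⟩ => if h : j = i then some (h ▸ x) else none

omit [∀ i, Group (G i)] in
theorem labI_eq_some {i : ι} {e : E} {x : G i} :
    labI lab i e = some x ↔ lab e = some ⟨i, x⟩ := by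
  unfold labI
  rcases h : lab e with _ | ⟨j, y⟩
  · simp
  · simp only
    split_ifs with hj
    · subst hj
      constructor
      · intro h; exact congrArg (fun z => some (⟨j, z⟩ : Σ i, G i)) (Option.some.inj h)
      · intro h
        have h2 := Option.some.inj h
        rw [Sigma.mk.injEq] at h2
        rw [eq_of_heq h2.2]
    · constructor
      · intro h; exact absurd h (by simp)
      · intro h
        exact absurd (congrArg Sigma.fst (Option.some.inj h)) hj

/-- Sources in the graph for the factor `i`. -/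
noncomputable def srcI (i : ι) : E ⊕ (V × V) → Option V
  | Sum.inl e => (labI lab i e).map fun _ => src e
  | Sum.inr p => some p.1

/-- Targets in the graph for the factor `i`. -/
noncomputable def tgtI (i : ι) : E ⊕ (V × V) → Option V
  | Sum.inl e => (labI lab i e).map fun _ => tgt e
  | Sum.inr p => some p.2

/-- Labels in the graph for the factor `i`. -/
noncomputable def lbI (i : ι) : E ⊕ (V × V) → G i
  | Sum.inl e => (labI lab i e).getD 1
  | Sum.inr _ => 1

/-- Counts in the graph for a factor, as a pair. -/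
def kap : (E ⊕ (V × V) → ℕ) →+ ((E → ℕ) × (V × V → ℕ)) where
  toFun c := (fun e => c (Sum.inl e), fun p => c (Sum.inr p))
  map_zero' := rfl
  map_add' _ _ := rfl

/-- The grammar. -/
def Gram (τ : V × V) : Set ((E → ℕ) × (V × V → ℕ)) :=
  {b | τ.1 = τ.2 ∧ b = 0} ∪ {b | ∃ e, lab e = none ∧ src e = τ.1 ∧ tgt e = τ.2 ∧ b = (ev e, 0)} ∪
    {b | ∃ w, b = (0, ev (τ.1, w) + ev (w, τ.2))} ∪
    ⋃ i, kap '' {c | Walk (srcI src lab i) (tgtI tgt lab i) (lbI lab i) (some τ.1) (some τ.2) 1 c}

/-- Derivable counts. -/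
def Dv (u v : V) (m : E → ℕ) : Prop :=
  Reach (Gram src tgt lab) Set.univ (tok (E → ℕ) (u, v)) (m, 0)

variable {src tgt lab}

theorem kap_ev_inl (e : E) : kap (V := V) (ev (Sum.inl e)) = (ev e, 0) := by
  unfold kap
  ext x
  · simp only [AddMonoidHom.coe_mk, ZeroHom.coe_mk]
    by_cases h : x = e
    · subst h; rw [ev_self, ev_self]
    · rw [ev_ne h, ev_ne (fun h' => h (Sum.inl_injective h'))]
  · simp only [AddMonoidHom.coe_mk, ZeroHom.coe_mk]
    rw [ev_ne (by simp)]; rfl

theorem kap_ev_inr (p : V × V) : kap (E := E) (ev (Sum.inr p)) = (0, ev p) := by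
  unfold kap
  ext x
  · simp only [AddMonoidHom.coe_mk, ZeroHom.coe_mk]
    rw [ev_ne (by simp)]; rfl
  · simp only [AddMonoidHom.coe_mk, ZeroHom.coe_mk]
    by_cases h : x = p
    · subst h; rw [ev_self, ev_self]
    · rw [ev_ne h, ev_ne (fun h' => h (Sum.inr_injective h'))]

/-! #### Soundness -/

/-- Genuine closed counts. -/
def Gen (src tgt : E → V) (lab : E → Option (Σ i, G i)) (p : V × V) : Set (E → ℕ) :=
  {c | Walk src tgt (fun e => letter (lab e)) p.1 p.2 1 c}

theorem factor_sound {i : ι} {x y : Option V} {g : G i} {c : E ⊕ (V × V) → ℕ}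
    (p : Walk (srcI src lab i) (tgtI tgt lab i) (lbI lab i) x y g c) :
    ∀ u v, x = some u → y = some v → ∀ m, (m, (kap c).2) ∈ Big (Gen src tgt lab) →
      Walk src tgt (fun e => letter (lab e)) u v (of g) ((kap c).1 + m) := by
  induction p with
  | nil z =>
    intro u v hu hv m hm
    rw [hu] at hv
    have huv : u = v := Option.some.inj hv
    subst huv
    have h0 : m = 0 := big_zero hm (by rw [map_zero]; rfl)
    rw [h0, map_zero, map_one]
    simpa using Walk.nil _
  | @cons e y g c _ ih =>
    intro u v hu hv m hm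
    rcases e with e | p
    · -- genuine edge
      rcases hl : labI lab i e with _ | x
      · simp [srcI, hl] at hu
      · have hu' : src e = u := by simpa [srcI, hl] using hu
        have ht : tgtI tgt lab i (Sum.inl e) = some (tgt e) := by simp [tgtI, hl]
        have hlb : lbI lab i (Sum.inl e : E ⊕ (V × V)) = x := by simp [lbI, hl]
        rw [map_add, kap_ev_inl] at hm ⊢
        simp only [Prod.snd_add, Prod.fst_add, zero_add] at hm ⊢
        have h1 := ih (tgt e) v ht hv m hm
        have h2 := Walk.cons (lab := fun e => letter (lab e)) e h1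
        have h3 : letter (lab e) = of x := by
          rw [(labI_eq_some lab).1 hl]; rfl
        rw [h3, ← map_mul, hu'] at h2
        rw [hlb, add_assoc]
        exact h2
    · have hu' : p.1 = u := Option.some.inj hu
      rw [map_add, kap_ev_inr] at hm ⊢
      simp only [Prod.snd_add, Prod.fst_add, zero_add] at hm ⊢
      obtain ⟨m₁, m₂, a1, a2, a3⟩ := big_split_add hm _ _ rfl
      simp only at a3
      have h1 := ih p.2 v rfl hv m₂ a2
      have h2' : m₁ ∈ Gen src tgt lab p := big_ev a1
      have h2 : Walk src tgt (fun e => letter (lab e)) p.1 p.2 1 m₁ := h2'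
      have h3 := h2.append h1
      have hlb : lbI lab i (Sum.inr p : E ⊕ (V × V)) = 1 := rfl
      rw [hlb, one_mul, a3]
      rw [one_mul, hu'] at h3
      convert h3 using 1
      abel

theorem rule_sound {τ : V × V} {b : (E → ℕ) × (V × V → ℕ)} (hb : b ∈ Gram src tgt lab τ)
    {m : E → ℕ} (hm : (m, b.2) ∈ Big (Gen src tgt lab)) : b.1 + m ∈ Gen src tgt lab τ := by
  rcases hb with ((⟨h1, rfl⟩ | ⟨e, h1, h2, h3, rfl⟩) | ⟨w, rfl⟩) | h
  · have h0 : m = 0 := big_zero hm rfl
    rw [h0]
    change Walk src tgt (fun e => letter (lab e)) τ.1 τ.2 1 (0 + 0)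
    rw [h1, add_zero]
    exact Walk.nil _
  · have h0 : m = 0 := big_zero hm rfl
    rw [h0]
    change Walk src tgt (fun e => letter (lab e)) τ.1 τ.2 1 (ev e + 0)
    have := Walk.cons (lab := fun e => letter (lab e)) (src := src) (tgt := tgt) e (Walk.nil _)
    rw [h2, h3, h1] at this
    simpa [letter] using this
  · obtain ⟨m₁, m₂, a1, a2, a3⟩ := big_split_add hm _ _ rfl
    have h1' : m₁ ∈ Gen src tgt lab (τ.1, w) := big_ev a1
    have h2' : m₂ ∈ Gen src tgt lab (w, τ.2) := big_ev a2
    have h1 : Walk src tgt (fun e => letter (lab e)) τ.1 w 1 m₁ := h1'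
    have h2 : Walk src tgt (fun e => letter (lab e)) w τ.2 1 m₂ := h2'
    have h3 := h1.append h2
    simp only at a3
    rw [a3]
    change Walk src tgt (fun e => letter (lab e)) τ.1 τ.2 1 (0 + (m₁ + m₂))
    simpa using h3
  · obtain ⟨i, c, hc, rfl⟩ := Set.mem_iUnion.1 h
    have := factor_sound hc τ.1 τ.2 rfl rfl m hm
    rwa [map_one] at this

theorem reach_sound {τ : V × V} {a : (E → ℕ) × (V × V → ℕ)}
    (h : Reach (Gram src tgt lab) Set.univ (tok (E → ℕ) τ) a) :
    ∀ m, (m, a.2) ∈ Big (Gen src tgt lab) → a.1 + m ∈ Gen src tgt lab τ := by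
  induction h with
  | refl =>
    intro m hm
    have := big_ev hm
    simpa [tok] using this
  | @step c b σ _ _ hb ih =>
    intro m hm
    obtain ⟨m₁, m₂, a1, a2, a3⟩ := big_split_add hm c.2 b.2 rfl
    simp only at a3
    have h1 := rule_sound hb a2
    have h2 := ih (m₁ + (b.1 + m₂)) (by
      have := add_mem a1 (big_single h1)
      exact this)
    rw [a3]
    simp only [tok, Prod.fst_add, add_zero] at h2 ⊢
    convert h2 using 1
    abel

theorem dv_sound {u v : V} {m : E → ℕ} (h : Dv src tgt lab u v m) :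
    Walk src tgt (fun e => letter (lab e)) u v 1 m := by
  have := reach_sound h 0 (zero_mem _)
  rw [add_zero] at this
  exact this

/-! #### Completeness -/

theorem dv_nil (v : V) : Dv src tgt lab v v 0 := by
  have : Reach (Gram src tgt lab) Set.univ (tok (E → ℕ) (v, v)) (0 + 0) :=
    Reach.step (by rw [zero_add]; exact Reach.refl) (Set.mem_univ _)
      (Or.inl (Or.inl (Or.inl ⟨rfl, rfl⟩)))
  rw [zero_add] at this
  exact this

theorem dv_edge {e : E} (he : lab e = none) : Dv src tgt lab (src e) (tgt e) (ev e) := by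
  have : Reach (Gram src tgt lab) Set.univ (tok (E → ℕ) (src e, tgt e)) (0 + (ev e, 0)) :=
    Reach.step (by rw [zero_add]; exact Reach.refl) (Set.mem_univ _)
      (Or.inl (Or.inl (Or.inr ⟨e, he, rfl, rfl, rfl⟩)))
  rw [zero_add] at this
  exact this

theorem dv_app {u w v : V} {m m' : E → ℕ} (h : Dv src tgt lab u w m) (h' : Dv src tgt lab w v m') :
    Dv src tgt lab u v (m + m') := by
  have h1 : Reach (Gram src tgt lab) Set.univ (tok (E → ℕ) (u, v))
      (0 + (0, ev (u, w) + ev (w, v))) :=
    Reach.step (by rw [zero_add]; exact Reach.refl) (Set.mem_univ _)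
      (Or.inl (Or.inr ⟨w, rfl⟩))
  have h2 := Reach.add h h'
  have e : tok (E → ℕ) (u, w) + tok (E → ℕ) (w, v) = 0 + (0, ev (u, w) + ev (w, v)) := by
    simp [tok]
  rw [e] at h2
  have h3 := h1.trans h2
  simpa [Dv] using h3

/-- Family of derivable counts. -/
def DvF (src tgt : E → V) (lab : E → Option (Σ i, G i)) (p : V × V) : Set (E → ℕ) :=
  {c | Dv src tgt lab p.1 p.2 c}

theorem reach_of_big {x : (E → ℕ) × (V × V → ℕ)} (hx : x ∈ Big (DvF src tgt lab)) :
    Reach (Gram src tgt lab) Set.univ (0, x.2) (x.1, 0) := by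
  induction hx using AddSubmonoid.closure_induction with
  | mem x hx =>
    obtain ⟨σ, z, hz, rfl⟩ := Set.mem_iUnion.1 hx
    exact hz
  | zero => exact Reach.refl
  | add x y _ _ hx hy =>
    have := hx.add hy
    simpa using this

/-- Paths in the graph of the factor `i` with virtual edges expanded. -/
def Pt (src tgt : E → V) (lab : E → Option (Σ i, G i)) (i : ι) (u v : V) (x : G i)
    (m : E → ℕ) : Prop :=
  ∃ c y, Walk (srcI src lab i) (tgtI tgt lab i) (lbI lab i) (some u) (some v) x c ∧
    (y, (kap c).2) ∈ Big (DvF src tgt lab) ∧ m = (kap c).1 + y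

theorem pt_one {i : ι} {u v : V} {m : E → ℕ} (h : Pt src tgt lab i u v 1 m) :
    Dv src tgt lab u v m := by
  obtain ⟨c, y, h1, h2, rfl⟩ := h
  have hmem : kap c ∈ Gram src tgt lab (u, v) :=
    Or.inr (Set.mem_iUnion.2 ⟨i, c, h1, rfl⟩)
  have h3 : Reach (Gram src tgt lab) Set.univ (tok (E → ℕ) (u, v)) (0 + kap c) :=
    Reach.step (by rw [zero_add]; exact Reach.refl) (Set.mem_univ _) hmem
  have h4 := (reach_of_big h2).add_right ((kap c).1, 0)
  have e : ((0 : E → ℕ), (y, (kap c).2).2) + ((kap c).1, 0) = 0 + kap c := by simp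
  rw [e] at h4
  have h5 := h3.trans h4
  unfold Dv
  have e2 : ((y, (kap c).2).1, (0 : V × V → ℕ)) + ((kap c).1, 0) = ((kap c).1 + y, 0) := by
    simp [add_comm]
  rw [e2] at h5
  exact h5

theorem pt_nil (i : ι) (v : V) : Pt src tgt lab i v v 1 0 :=
  ⟨0, 0, Walk.nil _, by rw [map_zero]; exact zero_mem _, by rw [map_zero]; simp⟩

theorem pt_edge {i : ι} {e : E} {x : G i} (he : lab e = some ⟨i, x⟩) {v : V} {g : G i}
    {m : E → ℕ} (h : Pt src tgt lab i (tgt e) v g m) :
    Pt src tgt lab i (src e) v (x * g) (ev e + m) := by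
  obtain ⟨c, y, h1, h2, rfl⟩ := h
  have hl : labI lab i e = some x := (labI_eq_some lab).2 he
  have hs : srcI src lab i (Sum.inl e) = some (src e) := by simp [srcI, hl]
  have ht : tgtI tgt lab i (Sum.inl e) = some (tgt e) := by simp [tgtI, hl]
  have hlb : lbI lab i (Sum.inl e : E ⊕ (V × V)) = x := by simp [lbI, hl]
  rw [← ht] at h1
  have h3 := Walk.cons (Sum.inl e) h1
  rw [hs, hlb] at h3
  refine ⟨_, y, h3, ?_, ?_⟩
  · rw [map_add, kap_ev_inl]; simpa using h2
  · rw [map_add, kap_ev_inl]; simp only [Prod.fst_add]; abel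

theorem pt_virtual {i : ι} {a b v : V} {z m : E → ℕ} {g : G i} (hz : Dv src tgt lab a b z)
    (h : Pt src tgt lab i b v g m) : Pt src tgt lab i a v g (z + m) := by
  obtain ⟨c, y, h1, h2, rfl⟩ := h
  have h3 := Walk.cons (src := srcI src lab i) (tgt := tgtI tgt lab i) (lab := lbI lab i)
    (Sum.inr (a, b)) h1
  have hlb : lbI lab i (Sum.inr (a, b) : E ⊕ (V × V)) = 1 := rfl
  rw [hlb, one_mul] at h3
  refine ⟨_, z + y, h3, ?_, ?_⟩
  · rw [map_add, kap_ev_inr]
    have := add_mem (big_single (Q := DvF src tgt lab) (σ := (a, b)) hz) h2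
    simpa using this
  · rw [map_add, kap_ev_inr]; simp only [Prod.fst_add]; abel

/-- The stack invariant. -/
inductive Stk (src tgt : E → V) (lab : E → Option (Σ i, G i)) (v : V) :
    V → Word G → (E → ℕ) → Prop
  | base {u : V} {m : E → ℕ} : Dv src tgt lab u v m → Stk src tgt lab v u Word.empty m
  | push {u u' : V} {i : ι} {x : G i} {w : Word G} {m m' : E → ℕ} (h1 : w.fstIdx ≠ some i)
      (hx : x ≠ 1) : Pt src tgt lab i u u' x m → Stk src tgt lab v u' w m' →
      Stk src tgt lab v u (Word.cons x w h1 hx) (m + m')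

theorem Stk.prepend {u u' v : V} {w : Word G} {z m : E → ℕ} (hz : Dv src tgt lab u' u z)
    (h : Stk src tgt lab v u w m) : Stk src tgt lab v u' w (z + m) := by
  cases h with
  | base h => exact Stk.base (dv_app hz h)
  | push h1 hx hp hs =>
    rw [← add_assoc]
    exact Stk.push h1 hx (pt_virtual hz hp) hs

theorem Stk.letter {e : E} {i : ι} {x : G i} (he : lab e = some ⟨i, x⟩) {v : V} {w : Word G}
    {m : E → ℕ} (h : Stk src tgt lab v (tgt e) w m) :
    ∃ w', Stk src tgt lab v (src e) w' (ev e + m) ∧ w'.prod = of x * w.prod := by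
  classical
  by_cases hx : x = 1
  · subst hx
    have h1 := pt_edge (src := src) (tgt := tgt) he (pt_nil i (tgt e))
    rw [mul_one, add_zero] at h1
    exact ⟨w, h.prepend (pt_one h1), by rw [map_one, one_mul]⟩
  · generalize hu : tgt e = u at h
    cases h with
    | base h =>
      subst hu
      have h1 := pt_edge (src := src) (tgt := tgt) he (pt_nil i (tgt e))
      rw [mul_one, add_zero] at h1
      have h0 : (Word.empty : Word G).fstIdx ≠ some i := by simp [Word.fstIdx, Word.empty]
      refine ⟨Word.cons x Word.empty h0 hx, Stk.push h0 hx h1 (Stk.base h), ?_⟩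
      rw [Word.prod_cons]
    | @push _ u' j y w m₁ m₂ h1 hy hp hs =>
      subst hu
      by_cases hij : j = i
      · subst hij
        have h2 := pt_edge (src := src) (tgt := tgt) he hp
        by_cases hxy : x * y = 1
        · rw [hxy] at h2
          refine ⟨w, ?_, ?_⟩
          · rw [← add_assoc]
            exact hs.prepend (pt_one h2)
          · rw [Word.prod_cons, ← mul_assoc, ← map_mul, hxy, map_one, one_mul]
        · refine ⟨Word.cons (x * y) w h1 hxy, ?_, ?_⟩
          · rw [← add_assoc]
            exact Stk.push h1 hxy h2 hs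
          · rw [Word.prod_cons, Word.prod_cons, ← mul_assoc, ← map_mul]
      · have h3 := pt_edge (src := src) (tgt := tgt) he (pt_nil i (tgt e))
        rw [mul_one, add_zero] at h3
        have h0 : (Word.cons y w h1 hy).fstIdx ≠ some i := by
          rw [Word.fstIdx_cons]
          intro h
          exact hij (Option.some.inj h)
        refine ⟨Word.cons x _ h0 hx, Stk.push h0 hx h3 (Stk.push h1 hy hp hs), ?_⟩
        rw [Word.prod_cons]

theorem walk_stk {u v : V} {g : Monoid.CoprodI G} {c : E → ℕ}
    (p : Walk src tgt (fun e => letter (lab e)) u v g c) :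
    ∃ w : Word G, Stk src tgt lab v u w c ∧ w.prod = g := by
  induction p with
  | nil v => exact ⟨Word.empty, Stk.base (dv_nil v), Word.prod_empty⟩
  | @cons e v g c _ ih =>
    obtain ⟨w, h1, h2⟩ := ih
    rcases he : lab e with _ | ⟨i, x⟩
    · refine ⟨w, h1.prepend (dv_edge he), ?_⟩
      rw [h2]
      simp [Sli.letter]
    · obtain ⟨w', h3, h4⟩ := Stk.letter he h1
      refine ⟨w', h3, ?_⟩
      rw [h4, h2]
      simp [Sli.letter]

theorem stk_empty {u v : V} {w : Word G} {c : E → ℕ} (h : Stk src tgt lab v u w c)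
    (hw : w = Word.empty) : Dv src tgt lab u v c := by
  cases h with
  | base h => exact h
  | push h1 hx hp hs =>
    exfalso
    have := congrArg Word.toList hw
    simp [Word.cons, Word.empty] at this

theorem dv_complete {u v : V} {c : E → ℕ}
    (p : Walk src tgt (fun e => letter (lab e)) u v 1 c) : Dv src tgt lab u v c := by
  classical
  obtain ⟨w, h1, h2⟩ := walk_stk p
  apply stk_empty h1
  apply (Word.equiv (M := G)).symm.injective
  change w.prod = Word.prod Word.empty
  rw [h2, Word.prod_empty]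

theorem semilinear_gram [Finite ι] [Finite V] [Finite E] (hG : ∀ i, SLI (G i)) (τ : V × V) :
    IsSemilinearSet (Gram src tgt lab τ) := by
  unfold Gram
  refine ((IsSemilinearSet.union ?_ ?_).union ?_).union ?_
  · apply IsSemilinearSet.of_finite
    exact (Set.finite_singleton 0).subset (by rintro b ⟨-, rfl⟩; rfl)
  · apply IsSemilinearSet.of_finite
    exact (Set.finite_range (fun e : E => ((ev e, 0) : (E → ℕ) × (V × V → ℕ)))).subset
      (by rintro b ⟨e, -, -, -, rfl⟩; exact ⟨e, rfl⟩)
  · apply IsSemilinearSet.of_finite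
    exact (Set.finite_range (fun w : V =>
      (((0 : E → ℕ), ev (τ.1, w) + ev (w, τ.2)) : (E → ℕ) × (V × V → ℕ)))).subset
      (by rintro b ⟨e, rfl⟩; exact ⟨e, rfl⟩)
  · apply IsSemilinearSet.iUnion
    intro i
    exact ((hG i).apply _ _ _ _ _).image kap

theorem semilinear_option [Finite ι] [Finite V] [Finite E] (hG : ∀ i, SLI (G i)) (u v : V) :
    IsSemilinearSet {c : E → ℕ | Walk src tgt (fun e => letter (lab e)) u v 1 c} := by
  have h := semilinear_language (F := Gram src tgt lab) (semilinear_gram hG) (u, v)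
  convert h using 1
  ext c
  exact ⟨dv_complete, dv_sound⟩

end freeprod

end Pool.Agent.Lib.MP_60edde_al.Sli
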