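import Mathlib
import Pool.Agent.Lib.MP_60edde_al.FreeProd

/-!
Arbitrary labels in free products, and the class of groups.
-/

namespace Pool.Agent.Lib.MP_60edde_al.Sli

open Parikh Monoid.CoprodI

section expand

variable {ι : Type*} {G : ι → Type*} [∀ i, Group (G i)]

/-- Product of a list of letters. -/
def lprod (l : List (Σ i, G i)) : Monoid.CoprodI G :=
  (l.map (fun x => letter (some x))).prod

theorem lprod_nil : lprod ([] : List (Σ i, G i)) = 1 := rfl

theorem lprod_cons (a : Σ i, G i) (l : List (Σ i, G i)) :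
    lprod (a :: l) = letter (some a) * lprod l := by
  simp [lprod]

theorem letter_head_mul (l : List (Σ i, G i)) : letter l.head? * lprod l.tail = lprod l := by
  cases l with
  | nil => simp [letter, lprod]
  | cons a l => rw [lprod_cons]; rfl

theorem exists_letters (g : Monoid.CoprodI G) : ∃ l : List (Σ i, G i), lprod l = g := by
  induction g using Monoid.CoprodI.induction_on with
  | one => exact ⟨[], rfl⟩
  | of i m => exact ⟨[⟨i, m⟩], by simp [lprod, letter]⟩
  | mul x y hx hy =>
    obtain ⟨l, rfl⟩ := hx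
    obtain ⟨l', rfl⟩ := hy
    exact ⟨l ++ l', by simp [lprod]⟩

variable {V E : Type*} (src tgt : E → V) (wrd : E → List (Σ i, G i))

/-- Suffixes of the words. -/
def Suf (wrd : E → List (Σ i, G i)) : Type _ := {l : List (Σ i, G i) // l = [] ∨ ∃ e, l <:+ wrd e}

omit [∀ i, Group (G i)] in
theorem finite_suf [Finite E] : Finite (Suf wrd) := by
  have h : {l : List (Σ i, G i) | l = [] ∨ ∃ e, l <:+ wrd e}.Finite := by
    have h1 : {l : List (Σ i, G i) | l = [] ∨ ∃ e, l <:+ wrd e} ⊆
        {[]} ∪ ⋃ e, {l | l ∈ (wrd e).tails} := by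
      intro l hl
      rcases hl with rfl | ⟨e, he⟩
      · left; rfl
      · right
        exact Set.mem_iUnion.2 ⟨e, (List.mem_tails _ _).2 he⟩
    refine Set.Finite.subset ?_ h1
    refine (Set.finite_singleton _).union (Set.finite_iUnion fun e => ?_)
    exact List.finite_toSet _
  exact h

/-- The tail of a suffix. -/
def Suf.tail (l : Suf wrd) : Suf wrd := ⟨l.1.tail, by
  rcases l.2 with h | ⟨e, he⟩
  · left; rw [h]; rfl
  · right; exact ⟨e, (List.tail_suffix l.1).trans he⟩⟩

/-- Sources. -/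
def srcX : E ⊕ (V × Suf wrd) → V × Suf wrd
  | Sum.inl e => (src e, ⟨[], Or.inl rfl⟩)
  | Sum.inr p => p

/-- Targets. -/
def tgtX : E ⊕ (V × Suf wrd) → V × Suf wrd
  | Sum.inl e => (tgt e, ⟨wrd e, Or.inr ⟨e, List.suffix_rfl⟩⟩)
  | Sum.inr p => (p.1, p.2.tail)

/-- Labels. -/
def labX : E ⊕ (V × Suf wrd) → Option (Σ i, G i)
  | Sum.inl _ => none
  | Sum.inr p => p.2.1.head?

/-- Restriction of counts. -/
def res {E V' : Type*} : (E ⊕ V' → ℕ) →+ (E → ℕ) where
  toFun c := fun e => c (Sum.inl e)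
  map_zero' := rfl
  map_add' _ _ := rfl

theorem res_inl {E V' : Type*} (e : E) : res (V' := V') (ev (Sum.inl e)) = ev e := by
  ext x
  change ev (Sum.inl e) (Sum.inl x) = ev e x
  by_cases h : x = e
  · subst h; rw [ev_self, ev_self]
  · rw [ev_ne h, ev_ne (fun h' => h (Sum.inl_injective h'))]

theorem res_inr {E V' : Type*} (p : V') : res (E := E) (ev (Sum.inr p)) = 0 := by
  ext x
  change ev (Sum.inr p) (Sum.inl x) = 0
  rw [ev_ne (by simp)]

variable {src tgt wrd}

theorem read_walk (v : V) (l : Suf wrd) {w : V × Suf wrd} {g : Monoid.CoprodI G}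
    {c : E ⊕ (V × Suf wrd) → ℕ}
    (p : Walk (srcX src wrd) (tgtX tgt wrd) (fun e => letter (labX wrd e))
      (v, ⟨[], Or.inl rfl⟩) w g c) :
    ∃ c', Walk (srcX src wrd) (tgtX tgt wrd) (fun e => letter (labX wrd e))
      (v, l) w (lprod l.1 * g) c' ∧ res c' = res c := by
  obtain ⟨l, hl⟩ := l
  induction l with
  | nil => exact ⟨c, by rw [lprod_nil, one_mul]; exact p, rfl⟩
  | cons a l ih =>
    have hl' : l = [] ∨ ∃ e, l <:+ wrd e := by
      rcases hl with h | ⟨e, he⟩
      · exact absurd h (by simp)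
      · right; exact ⟨e, (List.suffix_cons a l).trans he⟩
    obtain ⟨c', h1, h2⟩ := ih hl'
    refine ⟨ev (Sum.inr (v, ⟨a :: l, hl⟩)) + c', ?_, ?_⟩
    · have := Walk.cons (src := srcX src wrd) (tgt := tgtX tgt wrd)
        (lab := fun e => letter (labX wrd e)) (Sum.inr (v, ⟨a :: l, hl⟩)) h1
      rw [lprod_cons, mul_assoc]
      exact this
    · rw [map_add, res_inr, zero_add, h2]

theorem walk_expand {u v : V} {g : Monoid.CoprodI G} {c : E → ℕ}
    (p : Walk src tgt (fun e => lprod (wrd e)) u v g c) :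
    ∃ c', Walk (srcX src wrd) (tgtX tgt wrd) (fun e => letter (labX wrd e))
      (u, ⟨[], Or.inl rfl⟩) (v, ⟨[], Or.inl rfl⟩) g c' ∧ res c' = c := by
  induction p with
  | nil v => exact ⟨0, Walk.nil _, map_zero _⟩
  | @cons e v g c _ ih =>
    obtain ⟨c', h1, h2⟩ := ih
    obtain ⟨c'', h3, h4⟩ := read_walk (tgt e) ⟨wrd e, Or.inr ⟨e, List.suffix_rfl⟩⟩ h1
    refine ⟨ev (Sum.inl e) + c'', ?_, ?_⟩
    · have := Walk.cons (src := srcX src wrd) (tgt := tgtX tgt wrd)
        (lab := fun e => letter (labX wrd e)) (Sum.inl e) h3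
      have h5 : letter (labX wrd (Sum.inl e : E ⊕ (V × Suf wrd))) = 1 := rfl
      rw [h5, one_mul] at this
      exact this
    · rw [map_add, res_inl, h4, h2]

theorem walk_contract {x y : V × Suf wrd} {g : Monoid.CoprodI G} {c : E ⊕ (V × Suf wrd) → ℕ}
    (p : Walk (srcX src wrd) (tgtX tgt wrd) (fun e => letter (labX wrd e)) x y g c) :
    ∀ v, y = (v, ⟨[], Or.inl rfl⟩) → ∃ g₀, g = lprod x.2.1 * g₀ ∧
      Walk src tgt (fun e => lprod (wrd e)) x.1 v g₀ (res c) := by
  induction p with
  | nil z =>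
    intro v hv
    subst hv
    exact ⟨1, by simp [lprod], by rw [map_zero]; exact Walk.nil _⟩
  | @cons e y g c _ ih =>
    intro v hv
    obtain ⟨g₀, h1, h2⟩ := ih v hv
    rcases e with e | p
    · refine ⟨lprod (wrd e) * g₀, ?_, ?_⟩
      · have h5 : letter (labX wrd (Sum.inl e : E ⊕ (V × Suf wrd))) = 1 := rfl
        have h6 : (srcX src wrd (Sum.inl e)).2.1 = [] := rfl
        rw [h5, one_mul, h6, lprod_nil, one_mul, h1]
        rfl
      · rw [map_add, res_inl]
        exact Walk.cons (src := src) (tgt := tgt) (lab := fun e => lprod (wrd e)) e h2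
    · refine ⟨g₀, ?_, ?_⟩
      · change letter p.2.1.head? * g = lprod p.2.1 * g₀
        rw [h1]
        change letter p.2.1.head? * (lprod p.2.1.tail * g₀) = lprod p.2.1 * g₀
        rw [← mul_assoc, letter_head_mul]
      · rw [map_add, res_inr, zero_add]
        exact h2

end expand

theorem SLI.coprodI {ι : Type*} [Finite ι] {G : ι → Type*} [∀ i, Group (G i)]
    (hG : ∀ i, SLI (G i)) : SLI (Monoid.CoprodI G) := by
  intro V E _ _ src tgt lab u v
  choose wrd hwrd using fun e => exists_letters (lab e)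
  have hlab : lab = fun e => lprod (wrd e) := funext fun e => (hwrd e).symm
  have := finite_suf wrd
  have h := semilinear_option (src := srcX src wrd) (tgt := tgtX tgt wrd) (lab := labX wrd) hG
    (u, ⟨[], Or.inl rfl⟩) (v, ⟨[], Or.inl rfl⟩)
  convert h.image res using 1
  ext c
  constructor
  · intro p
    rw [hlab] at p
    obtain ⟨c', h1, h2⟩ := walk_expand p
    exact ⟨c', h1, h2⟩
  · rintro ⟨c', h1, rfl⟩
    obtain ⟨g₀, h2, h3⟩ := walk_contract h1 v rfl
    have h4 : g₀ = 1 := by
      have : lprod ([] : List (Σ i, G i)) * g₀ = 1 := h2.symm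
      rwa [lprod_nil, one_mul] at this
    rw [h4] at h3
    rw [hlab]
    exact h3

theorem SLI.of_subsingleton (G : Type*) [Group G] [Subsingleton G] : SLI G := by
  have h : SLI (Monoid.CoprodI (fun _ : Empty => Unit)) :=
    SLI.coprodI (fun i => Empty.elim i)
  exact h.of_injective (1 : G →* _) (Function.injective_of_subsingleton _)

end Pool.Agent.Lib.MP_60edde_al.Sli
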