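import Mathlib
import Pool.Agent.Lib.MP_60edde_al.Class

/-!
The class of groups with semilinear word problem is closed under amalgamated products over a
finite group.
-/

namespace Pool.Agent.Lib.MP_60edde_al.Sli

open Parikh

/-! ### Arbitrary targets -/

section target

variable {V E : Type*} {G : Type*} [Group G] (src tgt : E → V) (lab : E → G) (v₀ : V) (g₀ : G)

/-- Sources with an extra edge. -/
def srcT : E ⊕ Unit → Option V
  | Sum.inl e => some (src e)
  | Sum.inr _ => some v₀

/-- Targets with an extra edge. -/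
def tgtT : E ⊕ Unit → Option V
  | Sum.inl e => some (tgt e)
  | Sum.inr _ => none

/-- Labels with an extra edge. -/
def labT : E ⊕ Unit → G
  | Sum.inl e => lab e
  | Sum.inr _ => g₀⁻¹

variable {src tgt lab v₀ g₀}

theorem walk_toT {u v : V} {g : G} {c : E → ℕ} (p : Walk src tgt lab u v g c) :
    ∃ c', Walk (srcT src v₀) (tgtT tgt) (labT lab g₀) (some u) (some v) g c' ∧ res c' = c := by
  induction p with
  | nil v => exact ⟨0, Walk.nil _, map_zero _⟩
  | @cons e v g c _ ih =>
    obtain ⟨c', h1, h2⟩ := ih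
    refine ⟨ev (Sum.inl e) + c', ?_, by rw [map_add, res_inl, h2]⟩
    exact Walk.cons (src := srcT src v₀) (tgt := tgtT tgt) (lab := labT lab g₀) (Sum.inl e) h1

theorem walk_ofT {x y : Option V} {k : G} {c' : E ⊕ Unit → ℕ}
    (p : Walk (srcT src v₀) (tgtT tgt) (labT lab g₀) x y k c') : y = none →
    (∀ u, x = some u → ∃ g, k = g * g₀⁻¹ ∧ Walk src tgt lab u v₀ g (res c')) ∧
      (x = none → k = 1 ∧ res c' = 0) := by
  induction p with
  | nil z =>
    intro hz
    subst hz
    refine ⟨fun u hu => ?_, fun _ => ⟨rfl, map_zero _⟩⟩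
    exact absurd hu (by simp)
  | @cons e y k c' _ ih =>
    intro hy
    obtain ⟨i1, i2⟩ := ih hy
    rcases e with e | e
    · refine ⟨fun u hu => ?_, fun hn => absurd hn (by simp [srcT])⟩
      have hu' : src e = u := Option.some.inj hu
      obtain ⟨g, h1, h2⟩ := i1 (tgt e) rfl
      refine ⟨lab e * g, ?_, ?_⟩
      · rw [h1]; exact (mul_assoc _ _ _).symm
      · rw [map_add, res_inl, ← hu']
        exact Walk.cons e h2
    · refine ⟨fun u hu => ?_, fun hn => absurd hn (by simp [srcT])⟩
      have hu' : v₀ = u := Option.some.inj hu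
      obtain ⟨h1, h2⟩ := i2 rfl
      refine ⟨1, ?_, ?_⟩
      · rw [h1]; simp [labT]
      · rw [map_add, res_inr, zero_add, h2, ← hu']
        exact Walk.nil _

end target

theorem SLI.apply_target {G : Type*} [Group G] (h : SLI G) {V E : Type*} [Finite V] [Finite E]
    (src tgt : E → V) (lab : E → G) (u v : V) (g : G) :
    IsSemilinearSet {c : E → ℕ | Walk src tgt lab u v g c} := by
  have h1 := h.apply (srcT src v) (tgtT tgt) (labT lab g) (some u) none
  convert h1.image res using 1
  ext c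
  constructor
  · intro p
    obtain ⟨c', h2, h3⟩ := walk_toT (v₀ := v) (g₀ := g) p
    have h4 : Walk (srcT src v) (tgtT tgt) (labT lab g) (some v) none (g⁻¹ * 1)
        (ev (Sum.inr ()) + 0) :=
      Walk.cons (src := srcT src v) (tgt := tgtT tgt) (lab := labT lab g) (Sum.inr ())
        (Walk.nil _)
    have h5 := h2.append h4
    rw [mul_one, mul_inv_cancel] at h5
    exact ⟨_, h5, by rw [map_add, map_add, res_inr, map_zero, h3]; simp⟩
  · rintro ⟨c', h2, rfl⟩
    obtain ⟨g', h3, h4⟩ := (walk_ofT h2 rfl).1 u rfl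
    have h5 : g' = g := by
      have := h3.symm
      rwa [mul_inv_eq_one] at this
    rw [h5] at h4
    exact h4

section amalgam

open Monoid.PushoutI

variable {ι : Type*} {G : ι → Type*} [∀ i, Group (G i)] {H : Type*} [Group H]
variable (φ : ∀ i, H →* G i)
variable {V E : Type*} (src tgt : E → V) (lab : E → Option (Σ i, G i))

/-- The label in the amalgam. -/
def aletter : Option (Σ i, G i) → Monoid.PushoutI φ
  | none => 1
  | some ⟨_, x⟩ => of _ x

/-- Sources in the graph for the factor `i`. -/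
noncomputable def srcA (H : Type*) (i : ι) : E ⊕ ((V × V) × H) → Option V
  | Sum.inl e => (labI lab i e).map fun _ => src e
  | Sum.inr p => some p.1.1

/-- Targets in the graph for the factor `i`. -/
noncomputable def tgtA (H : Type*) (i : ι) : E ⊕ ((V × V) × H) → Option V
  | Sum.inl e => (labI lab i e).map fun _ => tgt e
  | Sum.inr p => some p.1.2

/-- Labels in the graph for the factor `i`. -/
noncomputable def lbA (i : ι) : E ⊕ ((V × V) × H) → G i
  | Sum.inl e => (labI lab i e).getD 1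
  | Sum.inr p => φ i p.2

/-- Counts as a pair. -/
def kap' {T : Type*} : (E ⊕ T → ℕ) →+ ((E → ℕ) × (T → ℕ)) where
  toFun c := (fun e => c (Sum.inl e), fun p => c (Sum.inr p))
  map_zero' := rfl
  map_add' _ _ := rfl

/-- The grammar. -/
def GramA (τ : (V × V) × H) : Set ((E → ℕ) × ((V × V) × H → ℕ)) :=
  {b | τ.1.1 = τ.1.2 ∧ τ.2 = 1 ∧ b = 0} ∪
    {b | ∃ e, lab e = none ∧ src e = τ.1.1 ∧ tgt e = τ.1.2 ∧ τ.2 = 1 ∧ b = (ev e, 0)} ∪
    {b | ∃ (w : V) (h₁ h₂ : H), h₁ * h₂ = τ.2 ∧
      b = (0, ev ((τ.1.1, w), h₁) + ev ((w, τ.1.2), h₂))} ∪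
    ⋃ i, kap' '' {c | Walk (srcA src lab H i) (tgtA tgt lab H i) (lbA φ lab i) (some τ.1.1)
      (some τ.1.2) (φ i τ.2) c}

/-- Derivable counts. -/
def DvA (u v : V) (h : H) (m : E → ℕ) : Prop :=
  Reach (GramA φ src tgt lab) Set.univ (tok (E → ℕ) ((u, v), h)) (m, 0)

variable {φ src tgt lab}

theorem kap'_ev_inl {T : Type*} (e : E) : kap' (T := T) (ev (Sum.inl e)) = (ev e, 0) := by
  unfold kap'
  ext x
  · simp only [AddMonoidHom.coe_mk, ZeroHom.coe_mk]
    by_cases h : x = e
    · subst h; rw [ev_self, ev_self]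
    · rw [ev_ne h, ev_ne (fun h' => h (Sum.inl_injective h'))]
  · simp only [AddMonoidHom.coe_mk, ZeroHom.coe_mk]
    rw [ev_ne (by simp)]; rfl

theorem kap'_ev_inr {T : Type*} (p : T) : kap' (E := E) (ev (Sum.inr p)) = (0, ev p) := by
  unfold kap'
  ext x
  · simp only [AddMonoidHom.coe_mk, ZeroHom.coe_mk]
    rw [ev_ne (by simp)]; rfl
  · simp only [AddMonoidHom.coe_mk, ZeroHom.coe_mk]
    by_cases h : x = p
    · subst h; rw [ev_self, ev_self]
    · rw [ev_ne h, ev_ne (fun h' => h (Sum.inr_injective h'))]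

/-- Genuine counts. -/
def GenA (φ : ∀ i, H →* G i) (src tgt : E → V) (lab : E → Option (Σ i, G i))
    (p : (V × V) × H) : Set (E → ℕ) :=
  {c | Walk src tgt (fun e => aletter φ (lab e)) p.1.1 p.1.2 (base φ p.2) c}

theorem factor_soundA {i : ι} {x y : Option V} {g : G i} {c : E ⊕ ((V × V) × H) → ℕ}
    (p : Walk (srcA src lab H i) (tgtA tgt lab H i) (lbA φ lab i) x y g c) :
    ∀ u v, x = some u → y = some v → ∀ m, (m, (kap' c).2) ∈ Big (GenA φ src tgt lab) →
      Walk src tgt (fun e => aletter φ (lab e)) u v (of i g) ((kap' c).1 + m) := by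
  induction p with
  | nil z =>
    intro u v hu hv m hm
    rw [hu] at hv
    have huv : u = v := Option.some.inj hv
    subst huv
    have h0 : m = 0 := big_zero hm (by rw [map_zero]; rfl)
    rw [h0, map_zero, map_one]
    simpa using Walk.nil _
  | @cons e y g c _ ih =>
    intro u v hu hv m hm
    rcases e with e | p
    · rcases hl : labI lab i e with _ | x
      · simp [srcA, hl] at hu
      · have hu' : src e = u := by simpa [srcA, hl] using hu
        have ht : tgtA tgt lab H i (Sum.inl e) = some (tgt e) := by simp [tgtA, hl]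
        have hlb : lbA φ lab i (Sum.inl e : E ⊕ ((V × V) × H)) = x := by simp [lbA, hl]
        rw [map_add, kap'_ev_inl] at hm ⊢
        simp only [Prod.snd_add, Prod.fst_add, zero_add] at hm ⊢
        have h1 := ih (tgt e) v ht hv m hm
        have h2 := Walk.cons (lab := fun e => aletter φ (lab e)) e h1
        have h3 : aletter φ (lab e) = of i x := by
          rw [(labI_eq_some lab).1 hl]; rfl
        rw [h3, ← map_mul, hu'] at h2
        rw [hlb, add_assoc]
        exact h2
    · have hu' : p.1.1 = u := Option.some.inj hu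
      rw [map_add, kap'_ev_inr] at hm ⊢
      simp only [Prod.snd_add, Prod.fst_add, zero_add] at hm ⊢
      obtain ⟨m₁, m₂, a1, a2, a3⟩ := big_split_add hm _ _ rfl
      simp only at a3
      have h1 := ih p.1.2 v rfl hv m₂ a2
      have h2' : m₁ ∈ GenA φ src tgt lab p := big_ev a1
      have h2 : Walk src tgt (fun e => aletter φ (lab e)) p.1.1 p.1.2 (base φ p.2) m₁ := h2'
      have h3 := h2.append h1
      have hlb : lbA φ lab i (Sum.inr p : E ⊕ ((V × V) × H)) = φ i p.2 := rfl
      rw [hlb, map_mul, of_apply_eq_base, a3]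
      rw [hu'] at h3
      convert h3 using 1
      abel

theorem rule_soundA {τ : (V × V) × H} {b : (E → ℕ) × ((V × V) × H → ℕ)}
    (hb : b ∈ GramA φ src tgt lab τ) {m : E → ℕ} (hm : (m, b.2) ∈ Big (GenA φ src tgt lab)) :
    b.1 + m ∈ GenA φ src tgt lab τ := by
  rcases hb with ((⟨h1, h2, rfl⟩ | ⟨e, h1, h2, h3, h4, rfl⟩) | ⟨w, k₁, k₂, hk, rfl⟩) | h
  · have h0 : m = 0 := big_zero hm rfl
    rw [h0]
    change Walk src tgt (fun e => aletter φ (lab e)) τ.1.1 τ.1.2 (base φ τ.2) (0 + 0)
    rw [h1, h2, add_zero, map_one]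
    exact Walk.nil _
  · have h0 : m = 0 := big_zero hm rfl
    rw [h0]
    change Walk src tgt (fun e => aletter φ (lab e)) τ.1.1 τ.1.2 (base φ τ.2) (ev e + 0)
    have := Walk.cons (lab := fun e => aletter φ (lab e)) (src := src) (tgt := tgt) e (Walk.nil _)
    rw [h2, h3, h1] at this
    rw [h4, map_one]
    simpa [aletter] using this
  · obtain ⟨m₁, m₂, a1, a2, a3⟩ := big_split_add hm _ _ rfl
    have h1' : m₁ ∈ GenA φ src tgt lab ((τ.1.1, w), k₁) := big_ev a1
    have h2' : m₂ ∈ GenA φ src tgt lab ((w, τ.1.2), k₂) := big_ev a2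
    have h1 : Walk src tgt (fun e => aletter φ (lab e)) τ.1.1 w (base φ k₁) m₁ := h1'
    have h2 : Walk src tgt (fun e => aletter φ (lab e)) w τ.1.2 (base φ k₂) m₂ := h2'
    have h3 := h1.append h2
    rw [← map_mul, hk] at h3
    simp only at a3
    rw [a3]
    change Walk src tgt (fun e => aletter φ (lab e)) τ.1.1 τ.1.2 (base φ τ.2) (0 + (m₁ + m₂))
    simpa using h3
  · obtain ⟨i, c, hc, rfl⟩ := Set.mem_iUnion.1 h
    have := factor_soundA hc τ.1.1 τ.1.2 rfl rfl m hm
    rwa [of_apply_eq_base] at this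

theorem reach_soundA {τ : (V × V) × H} {a : (E → ℕ) × ((V × V) × H → ℕ)}
    (h : Reach (GramA φ src tgt lab) Set.univ (tok (E → ℕ) τ) a) :
    ∀ m, (m, a.2) ∈ Big (GenA φ src tgt lab) → a.1 + m ∈ GenA φ src tgt lab τ := by
  induction h with
  | refl =>
    intro m hm
    have := big_ev hm
    simpa [tok] using this
  | @step c b σ _ _ hb ih =>
    intro m hm
    obtain ⟨m₁, m₂, a1, a2, a3⟩ := big_split_add hm c.2 b.2 rfl
    simp only at a3
    have h1 := rule_soundA hb a2
    have h2 := ih (m₁ + (b.1 + m₂)) (by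
      have := add_mem a1 (big_single h1)
      exact this)
    rw [a3]
    simp only [tok, Prod.fst_add, add_zero] at h2 ⊢
    convert h2 using 1
    abel

theorem dvA_sound {u v : V} {h : H} {m : E → ℕ} (hd : DvA φ src tgt lab u v h m) :
    Walk src tgt (fun e => aletter φ (lab e)) u v (base φ h) m := by
  have := reach_soundA hd 0 (zero_mem _)
  rw [add_zero] at this
  exact this

theorem dvA_nil (v : V) : DvA φ src tgt lab v v 1 0 := by
  have : Reach (GramA φ src tgt lab) Set.univ (tok (E → ℕ) ((v, v), (1 : H))) (0 + 0) :=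
    Reach.step (by rw [zero_add]; exact Reach.refl) (Set.mem_univ _)
      (Or.inl (Or.inl (Or.inl ⟨rfl, rfl, rfl⟩)))
  rw [zero_add] at this
  exact this

theorem dvA_edge {e : E} (he : lab e = none) :
    DvA φ src tgt lab (src e) (tgt e) 1 (ev e) := by
  have : Reach (GramA φ src tgt lab) Set.univ (tok (E → ℕ) ((src e, tgt e), (1 : H)))
      (0 + (ev e, 0)) :=
    Reach.step (by rw [zero_add]; exact Reach.refl) (Set.mem_univ _)
      (Or.inl (Or.inl (Or.inr ⟨e, he, rfl, rfl, rfl, rfl⟩)))
  rw [zero_add] at this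
  exact this

theorem dvA_app {u w v : V} {h₁ h₂ : H} {m m' : E → ℕ} (h : DvA φ src tgt lab u w h₁ m)
    (h' : DvA φ src tgt lab w v h₂ m') : DvA φ src tgt lab u v (h₁ * h₂) (m + m') := by
  have h1 : Reach (GramA φ src tgt lab) Set.univ (tok (E → ℕ) ((u, v), h₁ * h₂))
      (0 + (0, ev ((u, w), h₁) + ev ((w, v), h₂))) :=
    Reach.step (by rw [zero_add]; exact Reach.refl) (Set.mem_univ _)
      (Or.inl (Or.inr ⟨w, h₁, h₂, rfl, rfl⟩))
  have h2 := Reach.add h h'
  have e : tok (E → ℕ) ((u, w), h₁) + tok (E → ℕ) ((w, v), h₂) =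
      0 + (0, ev ((u, w), h₁) + ev ((w, v), h₂)) := by
    simp [tok]
  rw [e] at h2
  have h3 := h1.trans h2
  simpa [DvA] using h3

/-- Family of derivable counts. -/
def DvAF (φ : ∀ i, H →* G i) (src tgt : E → V) (lab : E → Option (Σ i, G i))
    (p : (V × V) × H) : Set (E → ℕ) :=
  {c | DvA φ src tgt lab p.1.1 p.1.2 p.2 c}

theorem reach_of_bigA {x : (E → ℕ) × ((V × V) × H → ℕ)} (hx : x ∈ Big (DvAF φ src tgt lab)) :
    Reach (GramA φ src tgt lab) Set.univ (0, x.2) (x.1, 0) := by
  induction hx using AddSubmonoid.closure_induction with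
  | mem x hx =>
    obtain ⟨σ, z, hz, rfl⟩ := Set.mem_iUnion.1 hx
    exact hz
  | zero => exact Reach.refl
  | add x y _ _ hx hy =>
    have := hx.add hy
    simpa using this

/-- Paths in the graph of the factor `i` with virtual edges expanded. -/
def PtA (φ : ∀ i, H →* G i) (src tgt : E → V) (lab : E → Option (Σ i, G i)) (i : ι) (u v : V)
    (x : G i) (m : E → ℕ) : Prop :=
  ∃ c y, Walk (srcA src lab H i) (tgtA tgt lab H i) (lbA φ lab i) (some u) (some v) x c ∧
    (y, (kap' c).2) ∈ Big (DvAF φ src tgt lab) ∧ m = (kap' c).1 + y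

theorem ptA_base {i : ι} {u v : V} {h : H} {m : E → ℕ}
    (hp : PtA φ src tgt lab i u v (φ i h) m) : DvA φ src tgt lab u v h m := by
  obtain ⟨c, y, h1, h2, rfl⟩ := hp
  have hmem : kap' c ∈ GramA φ src tgt lab ((u, v), h) :=
    Or.inr (Set.mem_iUnion.2 ⟨i, c, h1, rfl⟩)
  have h3 : Reach (GramA φ src tgt lab) Set.univ (tok (E → ℕ) ((u, v), h)) (0 + kap' c) :=
    Reach.step (by rw [zero_add]; exact Reach.refl) (Set.mem_univ _) hmem
  have h4 := (reach_of_bigA h2).add_right ((kap' c).1, 0)
  have e : ((0 : E → ℕ), (y, (kap' c).2).2) + ((kap' c).1, 0) = 0 + kap' c := by simp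
  rw [e] at h4
  have h5 := h3.trans h4
  unfold DvA
  have e2 : ((y, (kap' c).2).1, (0 : (V × V) × H → ℕ)) + ((kap' c).1, 0)
      = ((kap' c).1 + y, 0) := by
    simp [add_comm]
  rw [e2] at h5
  exact h5

theorem ptA_nil (i : ι) (v : V) : PtA φ src tgt lab i v v 1 0 :=
  ⟨0, 0, Walk.nil _, by rw [map_zero]; exact zero_mem _, by rw [map_zero]; simp⟩

theorem ptA_edge {i : ι} {e : E} {x : G i} (he : lab e = some ⟨i, x⟩) {v : V} {g : G i}
    {m : E → ℕ} (h : PtA φ src tgt lab i (tgt e) v g m) :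
    PtA φ src tgt lab i (src e) v (x * g) (ev e + m) := by
  obtain ⟨c, y, h1, h2, rfl⟩ := h
  have hl : labI lab i e = some x := (labI_eq_some lab).2 he
  have hs : srcA src lab H i (Sum.inl e) = some (src e) := by simp [srcA, hl]
  have ht : tgtA tgt lab H i (Sum.inl e) = some (tgt e) := by simp [tgtA, hl]
  have hlb : lbA φ lab i (Sum.inl e : E ⊕ ((V × V) × H)) = x := by simp [lbA, hl]
  rw [← ht] at h1
  have h3 := Walk.cons (Sum.inl e) h1
  rw [hs, hlb] at h3
  refine ⟨_, y, h3, ?_, ?_⟩
  · rw [map_add, kap'_ev_inl]; simpa using h2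
  · rw [map_add, kap'_ev_inl]; simp only [Prod.fst_add]; abel

theorem ptA_virtual {i : ι} {a b v : V} {h : H} {z m : E → ℕ} {g : G i}
    (hz : DvA φ src tgt lab a b h z) (hp : PtA φ src tgt lab i b v g m) :
    PtA φ src tgt lab i a v (φ i h * g) (z + m) := by
  obtain ⟨c, y, h1, h2, rfl⟩ := hp
  have h3 := Walk.cons (src := srcA src lab H i) (tgt := tgtA tgt lab H i) (lab := lbA φ lab i)
    (Sum.inr ((a, b), h)) h1
  refine ⟨_, z + y, h3, ?_, ?_⟩
  · rw [map_add, kap'_ev_inr]
    have := add_mem (big_single (Q := DvAF φ src tgt lab) (σ := ((a, b), h)) hz) h2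
    simpa using this
  · rw [map_add, kap'_ev_inr]; simp only [Prod.fst_add]; abel

/-- The stack invariant. -/
inductive StkA (φ : ∀ i, H →* G i) (src tgt : E → V) (lab : E → Option (Σ i, G i)) (v : V) :
    V → Monoid.CoprodI.Word G → H → (E → ℕ) → Prop
  | base {u : V} {h : H} {m : E → ℕ} : DvA φ src tgt lab u v h m →
      StkA φ src tgt lab v u Monoid.CoprodI.Word.empty h m
  | push {u u' : V} {i : ι} {x : G i} {w : Monoid.CoprodI.Word G} {h : H} {m m' : E → ℕ}
      (h1 : w.fstIdx ≠ some i) (h2 : x ≠ 1) (hx : x ∉ (φ i).range) :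
      PtA φ src tgt lab i u u' x m → StkA φ src tgt lab v u' w h m' →
      StkA φ src tgt lab v u (Monoid.CoprodI.Word.cons x w h1 h2) h (m + m')

/-- The element represented by a stack. -/
def val (φ : ∀ i, H →* G i) (w : Monoid.CoprodI.Word G) (h : H) : Monoid.PushoutI φ :=
  ofCoprodI w.prod * base φ h

theorem val_cons {i : ι} (x : G i) (w : Monoid.CoprodI.Word G) (h1 : w.fstIdx ≠ some i)
    (h2 : x ≠ 1) (h : H) :
    val φ (Monoid.CoprodI.Word.cons x w h1 h2) h = of i x * val φ w h := by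
  unfold val
  rw [Monoid.CoprodI.Word.prod_cons, map_mul, ofCoprodI_of, mul_assoc]

theorem ne_one_of_notMem_range {i : ι} {x : G i} (hx : x ∉ (φ i).range) : x ≠ 1 := by
  rintro rfl
  exact hx (one_mem _)

theorem StkA.prepend {u u' v : V} {w : Monoid.CoprodI.Word G} {h h' : H} {z m : E → ℕ}
    (hz : DvA φ src tgt lab u' u h' z) (hs : StkA φ src tgt lab v u w h m) :
    ∃ w' k, StkA φ src tgt lab v u' w' k (z + m) ∧
      val φ w' k = Monoid.PushoutI.base φ h' * val φ w h ∧
      w'.fstIdx = w.fstIdx := by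
  cases hs with
  | base hd =>
    refine ⟨_, _, StkA.base (dvA_app hz hd), ?_, rfl⟩
    unfold val
    rw [Monoid.CoprodI.Word.prod_empty, map_one, one_mul, one_mul, map_mul]
  | @push _ u'' i x w h m₁ m₂ h1 h2 hx hp hs =>
    have hx' : φ i h' * x ∉ (φ i).range := by
      intro hmem
      apply hx
      have h3 : x = (φ i h')⁻¹ * (φ i h' * x) := by group
      rw [h3]
      exact mul_mem (inv_mem ⟨h', rfl⟩) hmem
    have hs' := StkA.push h1 (ne_one_of_notMem_range hx') hx' (ptA_virtual hz hp) hs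
    rw [add_assoc] at hs'
    refine ⟨_, _, hs', ?_, ?_⟩
    · rw [val_cons, val_cons, map_mul, of_apply_eq_base, mul_assoc]
    · rw [Monoid.CoprodI.Word.fstIdx_cons, Monoid.CoprodI.Word.fstIdx_cons]

theorem StkA.letter {e : E} {i : ι} {x : G i} (he : lab e = some ⟨i, x⟩) {v : V}
    {w : Monoid.CoprodI.Word G} {h : H} {m : E → ℕ} (hs : StkA φ src tgt lab v (tgt e) w h m) :
    ∃ w' k, StkA φ src tgt lab v (src e) w' k (ev e + m) ∧ val φ w' k = of i x * val φ w h := by
  classical
  by_cases hx : x ∈ (φ i).range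
  · obtain ⟨h', rfl⟩ := hx
    have h1 := ptA_edge (src := src) (tgt := tgt) (φ := φ) he (ptA_nil i (tgt e))
    rw [mul_one, add_zero] at h1
    obtain ⟨w', k, a1, a2, -⟩ := hs.prepend (ptA_base h1)
    exact ⟨w', k, a1, by rw [a2, of_apply_eq_base]⟩
  · generalize hu : tgt e = u at hs
    cases hs with
    | base hd =>
      subst hu
      have h1 := ptA_edge (src := src) (tgt := tgt) (φ := φ) he (ptA_nil i (tgt e))
      rw [mul_one, add_zero] at h1
      have h0 : (Monoid.CoprodI.Word.empty : Monoid.CoprodI.Word G).fstIdx ≠ some i := by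
        simp [Monoid.CoprodI.Word.fstIdx, Monoid.CoprodI.Word.empty]
      refine ⟨_, _, StkA.push h0 (ne_one_of_notMem_range hx) hx h1 (StkA.base hd), ?_⟩
      rw [val_cons]
    | @push _ u' j y w h m₁ m₂ h1 hy1 hy hp hs =>
      subst hu
      by_cases hij : j = i
      · subst hij
        have h2 := ptA_edge (src := src) (tgt := tgt) (φ := φ) he hp
        by_cases hxy : x * y ∈ (φ j).range
        · obtain ⟨h', hh'⟩ := hxy
          rw [← hh'] at h2
          obtain ⟨w', k, a1, a2, -⟩ := hs.prepend (ptA_base h2)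
          refine ⟨w', k, ?_, ?_⟩
          · rw [← add_assoc]; exact a1
          · rw [a2, val_cons, ← mul_assoc, ← map_mul, ← hh', of_apply_eq_base]
        · have hs' := StkA.push h1 (ne_one_of_notMem_range hxy) hxy h2 hs
          rw [add_assoc] at hs'
          refine ⟨_, _, hs', ?_⟩
          rw [val_cons, val_cons, ← mul_assoc, ← map_mul]
      · have h3 := ptA_edge (src := src) (tgt := tgt) (φ := φ) he (ptA_nil i (tgt e))
        rw [mul_one, add_zero] at h3
        have h0 : (Monoid.CoprodI.Word.cons y w h1 hy1).fstIdx ≠ some i := by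
          rw [Monoid.CoprodI.Word.fstIdx_cons]
          intro h
          exact hij (Option.some.inj h)
        refine ⟨_, _, StkA.push h0 (ne_one_of_notMem_range hx) hx h3
          (StkA.push h1 hy1 hy hp hs), ?_⟩
        rw [val_cons]

theorem walk_stkA {u v : V} {g : Monoid.PushoutI φ} {c : E → ℕ}
    (p : Walk src tgt (fun e => aletter φ (lab e)) u v g c) :
    ∃ w h, StkA φ src tgt lab v u w h c ∧ val φ w h = g := by
  induction p with
  | nil v =>
    refine ⟨Monoid.CoprodI.Word.empty, 1, StkA.base (dvA_nil v), ?_⟩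
    unfold val
    rw [Monoid.CoprodI.Word.prod_empty, map_one, map_one, one_mul]
  | @cons e v g c _ ih =>
    obtain ⟨w, h, h1, h2⟩ := ih
    rcases he : lab e with _ | ⟨i, x⟩
    · obtain ⟨w', k, a1, a2, -⟩ := h1.prepend (dvA_edge he)
      refine ⟨w', k, a1, ?_⟩
      rw [a2, h2, map_one]
      rfl
    · obtain ⟨w', k, h3, h4⟩ := StkA.letter he h1
      refine ⟨w', k, h3, ?_⟩
      rw [h4, h2]
      rfl

theorem stkA_reduced {u v : V} {w : Monoid.CoprodI.Word G} {h : H} {c : E → ℕ}
    (hs : StkA φ src tgt lab v u w h c) : Reduced φ w := by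
  induction hs with
  | base _ =>
    intro g hg
    simp [Monoid.CoprodI.Word.empty] at hg
  | @push u u' i x w h m m' h1 h2 hx _ _ ih =>
    intro g hg
    simp only [Monoid.CoprodI.Word.cons, List.mem_cons] at hg
    rcases hg with rfl | hg
    · exact hx
    · exact ih g hg

theorem stkA_empty {u v : V} {w : Monoid.CoprodI.Word G} {h : H} {c : E → ℕ}
    (hs : StkA φ src tgt lab v u w h c) (hw : w = Monoid.CoprodI.Word.empty) :
    DvA φ src tgt lab u v h c := by
  cases hs with
  | base h => exact h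
  | push h1 h2 hx hp hs =>
    exfalso
    have := congrArg Monoid.CoprodI.Word.toList hw
    simp [Monoid.CoprodI.Word.cons, Monoid.CoprodI.Word.empty] at this

theorem dvA_complete (hφ : ∀ i, Function.Injective (φ i)) {u v : V} {c : E → ℕ}
    (p : Walk src tgt (fun e => aletter φ (lab e)) u v 1 c) : DvA φ src tgt lab u v 1 c := by
  obtain ⟨w, h, h1, h2⟩ := walk_stkA p
  have hw : w = Monoid.CoprodI.Word.empty := by
    apply (stkA_reduced h1).eq_empty_of_mem_range hφ
    refine ⟨h⁻¹, ?_⟩
    unfold val at h2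
    rw [map_inv, ← mul_eq_one_iff_eq_inv.1 h2]
  have hd := stkA_empty h1 hw
  have hh : h = 1 := by
    apply base_injective hφ
    unfold val at h2
    rw [hw, Monoid.CoprodI.Word.prod_empty, map_one, one_mul] at h2
    rw [h2, map_one]
  rwa [hh] at hd

theorem semilinear_gramA [Finite ι] [Finite V] [Finite E] [Finite H] (hG : ∀ i, SLI (G i))
    (τ : (V × V) × H) : IsSemilinearSet (GramA φ src tgt lab τ) := by
  unfold GramA
  refine ((IsSemilinearSet.union ?_ ?_).union ?_).union ?_
  · apply IsSemilinearSet.of_finite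
    exact (Set.finite_singleton 0).subset (by rintro b ⟨-, -, rfl⟩; rfl)
  · apply IsSemilinearSet.of_finite
    exact (Set.finite_range (fun e : E => ((ev e, 0) : (E → ℕ) × ((V × V) × H → ℕ)))).subset
      (by rintro b ⟨e, -, -, -, -, rfl⟩; exact ⟨e, rfl⟩)
  · apply IsSemilinearSet.of_finite
    exact (Set.finite_range (fun w : V × H × H =>
      (((0 : E → ℕ), ev ((τ.1.1, w.1), w.2.1) + ev ((w.1, τ.1.2), w.2.2)) :
        (E → ℕ) × ((V × V) × H → ℕ)))).subset
      (by rintro b ⟨w, k₁, k₂, -, rfl⟩; exact ⟨(w, k₁, k₂), rfl⟩)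
  · apply IsSemilinearSet.iUnion
    intro i
    exact ((hG i).apply_target _ _ _ _ _ _).image kap'

theorem semilinear_optionA [Finite ι] [Finite V] [Finite E] [Finite H]
    (hφ : ∀ i, Function.Injective (φ i)) (hG : ∀ i, SLI (G i)) (u v : V) :
    IsSemilinearSet {c : E → ℕ | Walk src tgt (fun e => aletter φ (lab e)) u v 1 c} := by
  have h := semilinear_language (F := GramA φ src tgt lab) (semilinear_gramA hG) ((u, v), 1)
  convert h using 1
  ext c
  constructor
  · exact dvA_complete hφ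
  · intro hd
    have := dvA_sound hd
    rwa [map_one] at this

end amalgam

end Pool.Agent.Lib.MP_60edde_al.Sli
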