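import Mathlib

/-!
The reflection cocycle of a Coxeter system and the strong exchange property.
-/

namespace Pool.Agent.Lib.MP_60edde_al

open CoxeterSystem

variable {B : Type*} {W : Type*} [Group W] {M : CoxeterMatrix B} (cs : CoxeterSystem M W)

open Classical in
/-- Indicator of a proposition with values in `ZMod 2`. -/
noncomputable def ind (p : Prop) : ZMod 2 := if p then 1 else 0

theorem ind_congr {p q : Prop} (h : p ↔ q) : ind p = ind q := by
  rw [propext h]

theorem ind_add_self (p : Prop) : ind p + ind p = 0 := by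
  unfold ind; split_ifs <;> decide

theorem zmod_two_add_self (x : ZMod 2) : x + x = 0 := by
  revert x; decide

theorem zmod_two_cases (x : ZMod 2) : x = 0 ∨ x = 1 := by
  revert x; decide

/-- The elementary move attached to a simple reflection. -/
noncomputable def stepFun (i : B) (p : W × ZMod 2) : W × ZMod 2 :=
  (cs.simple i * p.1 * cs.simple i, p.2 + ind (p.1 = cs.simple i))

theorem conj_eq_iff {a t : W} (ha : a * a = 1) : a * t * a = a ↔ t = a := by
  constructor
  · intro h
    have h1 : a * (a * t * a) * a = a * a * a := by rw [h]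
    have h2 : a * (a * t * a) * a = (a * a) * t * (a * a) := by group
    rw [h2, ha] at h1
    simpa using h1
  · intro h
    rw [h, ha, one_mul]

theorem stepFun_stepFun (i : B) (p : W × ZMod 2) : stepFun cs i (stepFun cs i p) = p := by
  have hs : cs.simple i * cs.simple i = 1 := cs.simple_mul_simple_self i
  obtain ⟨t, e⟩ := p
  unfold stepFun
  ext
  · simp only
    calc cs.simple i * (cs.simple i * t * cs.simple i) * cs.simple i
        = (cs.simple i * cs.simple i) * t * (cs.simple i * cs.simple i) := by group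
      _ = t := by rw [hs]; simp
  · simp only
    rw [ind_congr (conj_eq_iff (t := t) hs), add_assoc, ind_add_self, add_zero]

/-- The elementary move as a permutation. -/
noncomputable def stepPerm (i : B) : Equiv.Perm (W × ZMod 2) where
  toFun := stepFun cs i
  invFun := stepFun cs i
  left_inv := stepFun_stepFun cs i
  right_inv := stepFun_stepFun cs i

theorem stepPerm_apply (i : B) (t : W) (e : ZMod 2) :
    stepPerm cs i (t, e) = (cs.simple i * t * cs.simple i, e + ind (t = cs.simple i)) := rfl

theorem dihedral_inv_pow {a b : W} (ha : a * a = 1) (hb : b * b = 1) (k : ℕ) :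
    ((a * b) ^ k)⁻¹ * b = b * (a * b) ^ k := by
  have hai : a⁻¹ = a := inv_eq_of_mul_eq_one_left ha
  have hbi : b⁻¹ = b := inv_eq_of_mul_eq_one_left hb
  induction k with
  | zero => simp
  | succ k ih =>
    have h1 : ((a * b) ^ (k + 1))⁻¹ = ((a * b))⁻¹ * ((a * b) ^ k)⁻¹ := by
      rw [pow_succ, mul_inv_rev]
    rw [h1, mul_assoc, ih, mul_inv_rev, hai, hbi, pow_succ']
    simp only [mul_assoc]

theorem conj_iff_aux (p t s : W) : p * t * p⁻¹ = s ↔ t = p⁻¹ * s * p := by
  constructor
  · intro h
    rw [← h]; group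
  · intro h
    rw [h]; group

theorem conj_eq_b_iff {a b t : W} (ha : a * a = 1) (hb : b * b = 1) (k : ℕ) :
    (a * b) ^ k * t * ((a * b) ^ k)⁻¹ = b ↔ t = b * (a * b) ^ (2 * k) := by
  have h := dihedral_inv_pow ha hb k
  have h2 : b * (a * b) ^ (2 * k) = ((a * b) ^ k)⁻¹ * b * (a * b) ^ k := by
    rw [h, two_mul, pow_add, mul_assoc]
  rw [h2]
  exact conj_iff_aux _ _ _

theorem conj_eq_a_iff {a b t : W} (ha : a * a = 1) (hb : b * b = 1) (k : ℕ) :
    b * ((a * b) ^ k * t * ((a * b) ^ k)⁻¹) * b = a ↔ t = b * (a * b) ^ (2 * k + 1) := by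
  have h := dihedral_inv_pow ha hb k
  have h2 : b * (a * b) ^ (2 * k + 1) = ((a * b) ^ k)⁻¹ * (b * a * b) * (a * b) ^ k := by
    have : ((a * b) ^ k)⁻¹ * (b * a * b) * (a * b) ^ k
        = (((a * b) ^ k)⁻¹ * b) * ((a * b) * (a * b) ^ k) := by
      simp only [mul_assoc]
    rw [this, h, ← pow_succ', mul_assoc, ← pow_add]
    congr 2
    ring
  rw [h2, ← conj_iff_aux]
  generalize (a * b) ^ k * t * ((a * b) ^ k)⁻¹ = x
  constructor
  · intro h'
    rw [← h']
    have : b * (b * x * b) * b = (b * b) * x * (b * b) := by simp only [mul_assoc]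
    rw [this, hb]; simp
  · intro h'
    rw [h']
    have : b * (b * a * b) * b = (b * b) * a * (b * b) := by simp only [mul_assoc]
    rw [this, hb]; simp

theorem stepPerm_pow (i j : B) (k : ℕ) (t : W) (e : ZMod 2) :
    ((stepPerm cs i * stepPerm cs j) ^ k) (t, e) =
      ((cs.simple i * cs.simple j) ^ k * t * ((cs.simple i * cs.simple j) ^ k)⁻¹,
        e + ∑ l ∈ Finset.range (2 * k),
          ind (t = cs.simple j * (cs.simple i * cs.simple j) ^ l)) := by
  have ha : cs.simple i * cs.simple i = 1 := cs.simple_mul_simple_self i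
  have hb : cs.simple j * cs.simple j = 1 := cs.simple_mul_simple_self j
  have hai : (cs.simple i)⁻¹ = cs.simple i := cs.inv_simple i
  have hbi : (cs.simple j)⁻¹ = cs.simple j := cs.inv_simple j
  induction k with
  | zero => simp
  | succ k ih =>
    rw [pow_succ', Equiv.Perm.mul_apply, ih, Equiv.Perm.mul_apply, stepPerm_apply, stepPerm_apply]
    ext
    · simp only
      rw [pow_succ', mul_inv_rev, mul_inv_rev, hai, hbi]
      group
    · simp only
      rw [ind_congr (conj_eq_b_iff (t := t) ha hb k), ind_congr (conj_eq_a_iff (t := t) ha hb k)]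
      have : 2 * (k + 1) = 2 * k + 1 + 1 := by ring
      rw [this, Finset.sum_range_succ, Finset.sum_range_succ]
      ring

theorem stepPerm_liftable : M.IsLiftable (stepPerm cs) := by
  intro i j
  ext1 ⟨t, e⟩
  rw [stepPerm_pow]
  have h := cs.simple_mul_simple_pow i j
  rw [h]
  have hsum : ∑ l ∈ Finset.range (2 * M i j),
      ind (t = cs.simple j * (cs.simple i * cs.simple j) ^ l) = 0 := by
    rw [two_mul, Finset.sum_range_add]
    have : ∀ l, ind (t = cs.simple j * (cs.simple i * cs.simple j) ^ (M i j + l))
        = ind (t = cs.simple j * (cs.simple i * cs.simple j) ^ l) := by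
      intro l
      rw [pow_add, h, one_mul]
    simp only [this]
    exact zmod_two_add_self _
  rw [hsum]
  simp

/-- The action of `W` on `W × ZMod 2` extending the elementary moves. -/
noncomputable def act : W →* Equiv.Perm (W × ZMod 2) := cs.lift ⟨stepPerm cs, stepPerm_liftable cs⟩

theorem act_simple (i : B) : act cs (cs.simple i) = stepPerm cs i :=
  cs.lift_apply_simple (stepPerm_liftable cs) i

/-- The reflection cocycle. -/
noncomputable def eta (w t : W) : ZMod 2 := (act cs w (t, 0)).2

theorem act_apply (w t : W) (e : ZMod 2) :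
    act cs w (t, e) = (w * t * w⁻¹, e + eta cs w t) := by
  have key : ∀ t : W, ∀ e : ZMod 2, act cs w (t, e) = (w * t * w⁻¹, e + eta cs w t) := by
   refine cs.simple_induction_left (p := fun w => ∀ t : W, ∀ e : ZMod 2,
      act cs w (t, e) = (w * t * w⁻¹, e + eta cs w t)) w ?_ ?_
   · intro t e
     simp [eta]
   · intro w i ih t e
     unfold eta
     rw [map_mul, Equiv.Perm.mul_apply, Equiv.Perm.mul_apply, ih, ih, act_simple, stepPerm_apply,
       stepPerm_apply]
     ext
     · simp only
       rw [mul_inv_rev, cs.inv_simple]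
       simp only [mul_assoc]
     · simp only
       ring
  exact key t e

theorem eta_one (t : W) : eta cs 1 t = 0 := by simp [eta]

theorem eta_mul (x y t : W) : eta cs (x * y) t = eta cs y t + eta cs x (y * t * y⁻¹) := by
  have h : act cs (x * y) (t, 0) = act cs x (act cs y (t, 0)) := by
    rw [map_mul, Equiv.Perm.mul_apply]
  rw [act_apply, act_apply, act_apply] at h
  have := congrArg Prod.snd h
  simpa using this

theorem eta_simple (i : B) (t : W) : eta cs (cs.simple i) t = ind (t = cs.simple i) := by
  unfold eta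
  rw [act_simple, stepPerm_apply]
  simp

theorem eta_simple_self (i : B) : eta cs (cs.simple i) (cs.simple i) = 1 := by
  rw [eta_simple]; unfold ind; simp

/-- `eta` of a word counts occurrences in the right inversion sequence. -/
theorem eta_wordProd_ne_zero (ω : List B) (t : W) (h : eta cs (cs.wordProd ω) t ≠ 0) :
    t ∈ cs.rightInvSeq ω := by
  induction ω with
  | nil => simp [eta_one] at h
  | cons i ω ih =>
    rw [cs.wordProd_cons, eta_mul, eta_simple] at h
    rw [CoxeterSystem.rightInvSeq, List.mem_cons]
    by_cases h1 : eta cs (cs.wordProd ω) t = 0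
    · left
      rw [h1, zero_add] at h
      have : cs.wordProd ω * t * (cs.wordProd ω)⁻¹ = cs.simple i := by
        by_contra hne
        apply h
        unfold ind
        simp [hne]
      rw [← this]; group
    · right
      exact ih h1

theorem eta_refl_self {t : W} (ht : cs.IsReflection t) : eta cs t t = 1 := by
  obtain ⟨w, i, rfl⟩ := ht
  have h0 : eta cs (w * w⁻¹) (w * cs.simple i * w⁻¹) = 0 := by
    rw [mul_inv_cancel, eta_one]
  rw [eta_mul] at h0
  have e1 : w⁻¹ * (w * cs.simple i * w⁻¹) * w⁻¹⁻¹ = cs.simple i := by group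
  rw [e1] at h0
  rw [eta_mul, e1, eta_mul]
  have e2 : cs.simple i * cs.simple i * (cs.simple i)⁻¹ = cs.simple i := by group
  rw [e2, eta_simple_self]
  calc _ = (eta cs w⁻¹ (w * cs.simple i * w⁻¹) + eta cs w (cs.simple i)) + 1 := by ring
    _ = 1 := by rw [h0, zero_add]

theorem length_lt_of_eta {w t : W} (h : eta cs w t = 1) : cs.length (w * t) < cs.length w := by
  obtain ⟨ω, hω, rfl⟩ := cs.exists_isReduced w
  have h1 : t ∈ cs.rightInvSeq ω := eta_wordProd_ne_zero cs ω t (by rw [h]; decide)
  exact (cs.isRightInversion_of_mem_rightInvSeq hω h1).2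

theorem isReflection_of_eta {w t : W} (h : eta cs w t = 1) : cs.IsReflection t := by
  obtain ⟨ω, hω, rfl⟩ := cs.exists_isReduced w
  have h1 : t ∈ cs.rightInvSeq ω := eta_wordProd_ne_zero cs ω t (by rw [h]; decide)
  exact (cs.isRightInversion_of_mem_rightInvSeq hω h1).1

theorem eta_mul_refl {w t : W} (ht : cs.IsReflection t) : eta cs (w * t) t = 1 + eta cs w t := by
  rw [eta_mul, eta_refl_self cs ht]
  congr 2
  group

theorem eta_of_length_lt {w t : W} (ht : cs.IsReflection t)
    (h : cs.length (w * t) < cs.length w) : eta cs w t = 1 := by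
  rcases zmod_two_cases (eta cs w t) with h0 | h0
  · exfalso
    have h1 : eta cs (w * t) t = 1 := by rw [eta_mul_refl cs ht, h0, add_zero]
    have h2 := length_lt_of_eta cs h1
    rw [mul_assoc, ht.mul_self, mul_one] at h2
    omega
  · exact h0

/-- Strong exchange: for any word of `w` and any reflection `t` with `ℓ(wt) < ℓ(w)`,
`w t` is obtained by erasing one letter. -/
theorem strong_exchange (ω : List B) {t : W} (ht : cs.IsReflection t)
    (h : cs.length (cs.wordProd ω * t) < cs.length (cs.wordProd ω)) :
    ∃ j, j < ω.length ∧ cs.wordProd ω * t = cs.wordProd (ω.eraseIdx j) := by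
  have h1 := eta_of_length_lt cs ht h
  have h2 : t ∈ cs.rightInvSeq ω := eta_wordProd_ne_zero cs ω t (by rw [h1]; decide)
  obtain ⟨j, hj, hj2⟩ := List.mem_iff_getElem.1 h2
  refine ⟨j, by simpa using hj, ?_⟩
  rw [← cs.wordProd_mul_getD_rightInvSeq ω j]
  congr 1
  rw [List.getD_eq_getElem _ _ hj, hj2]

end Pool.Agent.Lib.MP_60edde_al
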