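import Mathlib
import Pool.Agent.Lib.MP_60edde_al.Cocycle

/-!
Dyer's theorem: the reflection length is the least number of letters which have to be
deleted from a given word for the element in order to obtain a word for the identity.
-/

namespace Pool.Agent.Lib.MP_60edde_al

open CoxeterSystem

variable {B : Type*} {W : Type*} [Group W] {M : CoxeterMatrix B} (cs : CoxeterSystem M W)

/-- `w` is a product of at most `k` reflections. -/
def IsRefProd (k : ℕ) (w : W) : Prop :=
  ∃ L : List W, (∀ t ∈ L, cs.IsReflection t) ∧ L.prod = w ∧ L.length ≤ k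

theorem isRefProd_one (k : ℕ) : IsRefProd cs k 1 := ⟨[], by simp, by simp, by simp⟩

theorem eq_one_of_isRefProd_zero {w : W} (h : IsRefProd cs 0 w) : w = 1 := by
  obtain ⟨L, -, h2, h3⟩ := h
  have : L = [] := List.eq_nil_of_length_eq_zero (by omega)
  rw [← h2, this]; simp

theorem IsRefProd.mono {k l : ℕ} {w : W} (h : IsRefProd cs k w) (hkl : k ≤ l) :
    IsRefProd cs l w := by
  obtain ⟨L, h1, h2, h3⟩ := h
  exact ⟨L, h1, h2, h3.trans hkl⟩

theorem IsRefProd.mul_right {k : ℕ} {w t : W} (h : IsRefProd cs k w) (ht : cs.IsReflection t) :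
    IsRefProd cs (k + 1) (w * t) := by
  obtain ⟨L, h1, h2, h3⟩ := h
  refine ⟨L ++ [t], ?_, ?_, ?_⟩
  · intro x hx
    rcases List.mem_append.1 hx with hx | hx
    · exact h1 x hx
    · rw [List.mem_singleton.1 hx]; exact ht
  · simp [h2]
  · simp; omega

theorem IsRefProd.mul_left {k : ℕ} {w t : W} (h : IsRefProd cs k w) (ht : cs.IsReflection t) :
    IsRefProd cs (k + 1) (t * w) := by
  obtain ⟨L, h1, h2, h3⟩ := h
  refine ⟨t :: L, ?_, ?_, ?_⟩
  · intro x hx
    rcases List.mem_cons.1 hx with hx | hx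
    · rw [hx]; exact ht
    · exact h1 x hx
  · simp [h2]
  · simp; omega

theorem IsRefProd.cases {k : ℕ} {w : W} (h : IsRefProd cs (k + 1) w) :
    w = 1 ∨ ∃ y r, IsRefProd cs k y ∧ cs.IsReflection r ∧ w = y * r := by
  obtain ⟨L, h1, h2, h3⟩ := h
  rcases List.eq_nil_or_concat L with h4 | ⟨L', r, h4⟩
  · left
    rw [← h2, h4]; simp
  · right
    refine ⟨L'.prod, r, ⟨L', ?_, rfl, ?_⟩, ?_, ?_⟩
    · intro t ht
      exact h1 t (by rw [h4]; simp [ht])
    · rw [h4] at h3; simp at h3; exact h3
    · exact h1 r (by rw [h4]; simp)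
    · rw [← h2, h4]; simp

theorem exists_conj_of_mem_ris (ω : List B) (t : W) (h : t ∈ cs.rightInvSeq ω) :
    ∃ h i, t = h⁻¹ * cs.simple i * h ∧ cs.length h < ω.length := by
  induction ω with
  | nil => simp at h
  | cons i ω ih =>
    rw [CoxeterSystem.rightInvSeq, List.mem_cons] at h
    rcases h with h | h
    · refine ⟨cs.wordProd ω, i, h, ?_⟩
      have := cs.length_wordProd_le ω
      rw [List.length_cons]; omega
    · obtain ⟨g, j, h1, h2⟩ := ih h
      exact ⟨g, j, h1, by rw [List.length_cons]; omega⟩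

theorem exists_conj_of_eta {g p : W} (h : eta cs g p = 1) :
    ∃ h i, p = h⁻¹ * cs.simple i * h ∧ cs.length h < cs.length g := by
  obtain ⟨ω, hω, rfl⟩ := cs.exists_isReduced g
  have h1 : p ∈ cs.rightInvSeq ω := eta_wordProd_ne_zero cs ω p (by rw [h]; decide)
  obtain ⟨h, i, h2, h3⟩ := exists_conj_of_mem_ris cs ω p h1
  exact ⟨h, i, h2, by rw [hω.eq]; exact h3⟩

theorem eta_conj_simple {g p : W} {i : B} (h : eta cs (g⁻¹ * cs.simple i * g) p = 1)
    (hne : p ≠ g⁻¹ * cs.simple i * g) :
    eta cs g p = 1 ∨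
      eta cs g ((g⁻¹ * cs.simple i * g) * p * (g⁻¹ * cs.simple i * g)) = 1 := by
  rcases zmod_two_cases (eta cs g p) with h0 | h0
  · right
    rw [eta_mul, h0, zero_add, eta_mul, eta_simple] at h
    have h1 : ind (g * p * g⁻¹ = cs.simple i) = 0 := by
      unfold ind
      rw [if_neg]
      intro h2
      apply hne
      rw [← h2]; group
    rw [h1, zero_add] at h
    have h3 : eta cs (g * g⁻¹) (cs.simple i * (g * p * g⁻¹) * (cs.simple i)⁻¹) = 0 := by
      rw [mul_inv_cancel, eta_one]
    rw [eta_mul, h] at h3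
    have h4 : g⁻¹ * (cs.simple i * (g * p * g⁻¹) * (cs.simple i)⁻¹) * g⁻¹⁻¹
        = (g⁻¹ * cs.simple i * g) * p * (g⁻¹ * cs.simple i * g) := by
      rw [cs.inv_simple]
      group
    rw [h4] at h3
    rcases zmod_two_cases (eta cs g ((g⁻¹ * cs.simple i * g) * p * (g⁻¹ * cs.simple i * g)))
      with h5 | h5
    · rw [h5] at h3
      exact absurd h3 (by decide)
    · exact h5
  · left; exact h0

/-! ### Dihedral subgroups -/

theorem dih_inv {t t' : W} (ht : t * t = 1) (ht' : t' * t' = 1) :
    t * (t * t') * t = (t * t')⁻¹ := by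
  have h1 : t⁻¹ = t := inv_eq_of_mul_eq_one_left ht
  have h2 : t'⁻¹ = t' := inv_eq_of_mul_eq_one_left ht'
  rw [mul_inv_rev, h1, h2, ← mul_assoc, ht, one_mul]

theorem dih_comm {t t' : W} (ht : t * t = 1) (ht' : t' * t' = 1) (a : ℤ) :
    (t * t') ^ a * t = t * (t * t') ^ (-a) := by
  have h1 : t⁻¹ = t := inv_eq_of_mul_eq_one_left ht
  have h := dih_inv ht ht'
  have h2 : t * (t * t') ^ a * t⁻¹ = (t * t') ^ (-a) := by
    rw [← conj_zpow, h1, h, inv_zpow, zpow_neg]
  have h3 : (t * t') ^ a * t⁻¹ = t⁻¹ * (t * t') ^ (-a) := by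
    rw [← h2]; group
  rwa [h1] at h3

theorem dih_mul {t t' : W} (ht : t * t = 1) (ht' : t' * t' = 1) (a b : ℤ) :
    (t * (t * t') ^ a) * (t * (t * t') ^ b) = (t * t') ^ (b - a) := by
  have : (t * (t * t') ^ a) * (t * (t * t') ^ b) = t * ((t * t') ^ a * t) * (t * t') ^ b := by
    simp only [mul_assoc]
  rw [this, dih_comm ht ht', ← mul_assoc, ht, one_mul, ← zpow_add]
  congr 1
  ring

theorem dih_conj {t t' : W} (ht : t * t = 1) (ht' : t' * t' = 1) (a b : ℤ) :
    (t * (t * t') ^ a) * (t * (t * t') ^ b) * (t * (t * t') ^ a) = t * (t * t') ^ (2 * a - b) := by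
  rw [dih_mul ht ht', ← mul_assoc, dih_comm ht ht', mul_assoc, ← zpow_add]
  congr 2
  ring

theorem dih_refl {t t' : W} (ht : cs.IsReflection t) (ht' : cs.IsReflection t') (a : ℤ) :
    cs.IsReflection (t * (t * t') ^ a) := by
  have h1 := ht.mul_self
  have h2 := ht'.mul_self
  rcases Int.even_or_odd' a with ⟨j, hj | hj⟩
  · have : t * (t * t') ^ a = (t * t') ^ (-j) * t * ((t * t') ^ (-j))⁻¹ := by
      rw [dih_comm h1 h2, hj, mul_assoc, neg_neg, ← zpow_neg, neg_neg, ← zpow_add]
      congr 2
      ring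
    rw [this]
    exact ht.conj _
  · have : t * (t * t') ^ a = (t * t') ^ (-j) * t' * ((t * t') ^ (-j))⁻¹ := by
      have e2 : (t * t') ^ (-j) * t' * ((t * t') ^ (-j))⁻¹ =
          (t * t') ^ (-j) * (t * (t * t')) * ((t * t') ^ (-j))⁻¹ := by
        rw [← mul_assoc t t t', h1, one_mul]
      have e3 : (t * t') ^ (-j) * (t * (t * t')) * ((t * t') ^ (-j))⁻¹ =
          ((t * t') ^ (-j) * t) * ((t * t') ^ (1 : ℤ) * ((t * t') ^ (-j))⁻¹) := by
        rw [zpow_one]; simp only [mul_assoc]
      rw [e2, e3, dih_comm h1 h2, hj, neg_neg, mul_assoc, ← zpow_neg, neg_neg, ← zpow_add,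
        ← zpow_add]
      congr 2
      ring
    rw [this]
    exact ht'.conj _

/-- Key lemma (peak removal). -/
theorem peak {x t t' : W} (ht : cs.IsReflection t) (ht' : cs.IsReflection t') (hne : t ≠ t')
    (h1 : eta cs x t = 1) (h2 : eta cs x t' = 1) :
    ∃ q q', cs.IsReflection q ∧ cs.IsReflection q' ∧ t * t' = q * q' ∧
      cs.length (x * t * q) < cs.length x := by
  classical
  have tt := ht.mul_self
  have tt' := ht'.mul_self
  have hex : ∃ n : ℕ, ∃ g i, cs.length g = n ∧
      (∃ a : ℤ, g⁻¹ * cs.simple i * g = t * (t * t') ^ a) ∧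
      eta cs x (g⁻¹ * cs.simple i * g) = 1 := by
    obtain ⟨w, i, hw⟩ := ht
    refine ⟨cs.length w⁻¹, w⁻¹, i, rfl, ⟨0, ?_⟩, ?_⟩
    · rw [inv_inv, ← hw]; simp
    · rw [inv_inv, ← hw]; exact h1
  obtain ⟨g, i, hg, ⟨a, ha⟩, hx⟩ := Nat.find_spec hex
  have hmin : ∀ h j, (∃ b : ℤ, h⁻¹ * cs.simple j * h = t * (t * t') ^ b) →
      eta cs x (h⁻¹ * cs.simple j * h) = 1 → cs.length g ≤ cs.length h := by
    intro h j hb hη
    rw [hg]
    exact Nat.find_min' hex ⟨h, j, rfl, hb, hη⟩
  set q1 := g⁻¹ * cs.simple i * g with hq1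
  have hq1r : cs.IsReflection q1 := by rw [ha]; exact dih_refl cs ht ht' a
  by_cases hcase : ∃ b : ℤ, eta cs (x * q1) (t * (t * t') ^ b) = 1
  · obtain ⟨b, hb⟩ := hcase
    refine ⟨t * (t * t') ^ (b - a), t * (t * t') ^ (b - a + 1), dih_refl cs ht ht' _,
      dih_refl cs ht ht' _, ?_, ?_⟩
    · rw [dih_mul tt tt']
      have : (b - a + 1 - (b - a)) = 1 := by ring
      rw [this, zpow_one]
    · have e : x * t * (t * (t * t') ^ (b - a)) = x * q1 * (t * (t * t') ^ b) := by
        have e1 : x * t * (t * (t * t') ^ (b - a)) = x * ((t * t) * (t * t') ^ (b - a)) := by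
          simp only [mul_assoc]
        rw [e1, tt, one_mul, mul_assoc x q1, ha, dih_mul tt tt']
      rw [e]
      have l1 := length_lt_of_eta cs hb
      have l2 := length_lt_of_eta cs hx
      omega
  · exfalso
    push Not at hcase
    have hcase' : ∀ b : ℤ, eta cs (x * q1) (t * (t * t') ^ b) = 0 := fun b => by
      rcases zmod_two_cases (eta cs (x * q1) (t * (t * t') ^ b)) with h | h
      · exact h
      · exact absurd h (hcase b)
    have hq11 : q1 * q1 = 1 := hq1r.mul_self
    have key : ∀ b : ℤ, eta cs x (t * (t * t') ^ b) = eta cs q1 (t * (t * t') ^ b) := by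
      intro b
      have e : x = (x * q1) * q1 := by rw [mul_assoc, hq11, mul_one]
      conv_lhs => rw [e]
      rw [eta_mul, hq1r.inv]
      have e2 : q1 * (t * (t * t') ^ b) * q1 = t * (t * t') ^ (2 * a - b) := by
        rw [ha, dih_conj tt tt']
      rw [e2, hcase', add_zero]
    -- choose p among t, t'
    have hp : ∃ b : ℤ, eta cs x (t * (t * t') ^ b) = 1 ∧ t * (t * t') ^ b ≠ q1 := by
      by_cases hq : q1 = t
      · refine ⟨1, ?_, ?_⟩
        · rw [zpow_one, ← mul_assoc, tt, one_mul]; exact h2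
        · rw [zpow_one, ← mul_assoc, tt, one_mul, hq]; exact fun h => hne h.symm
      · refine ⟨0, ?_, ?_⟩
        · simpa using h1
        · simpa using fun h => hq h.symm
    obtain ⟨b, hb1, hb2⟩ := hp
    set p := t * (t * t') ^ b with hpdef
    have hb3 : eta cs q1 p = 1 := by rw [← key b]; exact hb1
    rcases eta_conj_simple cs hb3 hb2 with h | h
    · obtain ⟨h', j, hj1, hj2⟩ := exists_conj_of_eta cs h
      have := hmin h' j ⟨b, by rw [← hj1]⟩ (by rw [← hj1]; exact hb1)
      omega
    · obtain ⟨h', j, hj1, hj2⟩ := exists_conj_of_eta cs h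
      have e2 : q1 * p * q1 = t * (t * t') ^ (2 * a - b) := by
        rw [ha, hpdef, dih_conj tt tt']
      have e3 : eta cs q1 (q1 * p * q1) = 1 := by
        have h0 : eta cs (q1 * q1) p = 0 := by rw [hq11, eta_one]
        rw [eta_mul, hb3, hq1r.inv] at h0
        rcases zmod_two_cases (eta cs q1 (q1 * p * q1)) with h5 | h5
        · rw [h5] at h0; exact absurd h0 (by decide)
        · exact h5
      have := hmin h' j ⟨2 * a - b, by rw [← hj1, ← e2]⟩ (by
        rw [← hj1]
        change eta cs x (q1 * p * q1) = 1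
        rw [e2, key, ← e2]; exact e3)
      omega

/-- Every nontrivial product of `k` reflections can be shortened by a reflection so that one
obtains a product of `k - 1` reflections. -/
theorem descend (k : ℕ) : ∀ w : W, IsRefProd cs k w → w ≠ 1 →
    ∃ r k', cs.IsReflection r ∧ cs.length (w * r) < cs.length w ∧ k = k' + 1 ∧
      IsRefProd cs k' (w * r) := by
  induction k using Nat.strong_induction_on with
  | _ k IH =>
    intro w hw hw1
    rcases k with _ | k
    · exact absurd (eq_one_of_isRefProd_zero cs hw) hw1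
    · have inner : ∀ n : ℕ, ∀ y r : W, cs.length y = n → IsRefProd cs k y → cs.IsReflection r →
          w = y * r → ∃ r k', cs.IsReflection r ∧ cs.length (w * r) < cs.length w ∧
            k + 1 = k' + 1 ∧ IsRefProd cs k' (w * r) := by
        intro n
        induction n using Nat.strong_induction_on with
        | _ n ih =>
          intro y r hyn hy hr hwyr
          have hrr := hr.mul_self
          have hwr : w * r = y := by rw [hwyr, mul_assoc, hrr, mul_one]
          by_cases hlt : cs.length y < cs.length w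
          · exact ⟨r, k, hr, by rw [hwr]; exact hlt, rfl, by rw [hwr]; exact hy⟩
          · have hne := hr.length_mul_left_ne y
            rw [← hwyr] at hne
            have hlt2 : cs.length (y * r) < cs.length y := by rw [← hwyr]; omega
            have hy1 : y ≠ 1 := by
              intro h
              rw [h, cs.length_one] at hlt2
              omega
            obtain ⟨r1, k', hr1, hl1, hk', hp1⟩ := IH k (Nat.lt_succ_self k) y hy hy1
            by_cases hrr1 : r1 = r
            · rw [hrr1, ← hwyr] at hp1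
              obtain ⟨r2, k'', hr2, hl2, hk'', hp2⟩ := IH k' (by omega) w hp1 hw1
              exact ⟨r2, k, hr2, hl2, rfl, hp2.mono cs (by omega)⟩
            · obtain ⟨q, q', hq, hq', hqq, hlq⟩ := peak cs hr1 hr hrr1
                (eta_of_length_lt cs hr1 hl1) (eta_of_length_lt cs hr hlt2)
              refine ih (cs.length (y * r1 * q)) (by omega) (y * r1 * q) q' rfl ?_ hq' ?_
              · rw [hk']
                exact hp1.mul_right cs hq
              · have e : y * r1 * q * q' = y * r1 * (r1 * r) := by rw [hqq]; simp only [mul_assoc]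
                rw [e, hwyr]
                have e2 : y * r1 * (r1 * r) = y * (r1 * r1) * r := by simp only [mul_assoc]
                rw [e2, hr1.mul_self, mul_one]
      rcases hw.cases cs with h | ⟨y, r, h1, h2, h3⟩
      · exact absurd h hw1
      · exact inner _ y r rfl h1 h2 h3

/-- Dyer's theorem, hard direction. -/
theorem dyer (k : ℕ) : ∀ ω : List B, IsRefProd cs k (cs.wordProd ω) →
    ∃ ω' : List B, ω'.Sublist ω ∧ cs.wordProd ω' = 1 ∧ ω.length ≤ ω'.length + k := by
  induction k with
  | zero =>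
    intro ω h
    exact ⟨ω, List.Sublist.refl _, eq_one_of_isRefProd_zero cs h, by omega⟩
  | succ k ih =>
    intro ω h
    by_cases h1 : cs.wordProd ω = 1
    · exact ⟨ω, List.Sublist.refl _, h1, by omega⟩
    · obtain ⟨r, k', hr, hl, hk, hp⟩ := descend cs (k + 1) _ h h1
      have hkk : k' = k := by omega
      subst hkk
      obtain ⟨j, hj, hj2⟩ := strong_exchange cs ω hr hl
      rw [hj2] at hp
      obtain ⟨ω', hs, hω', hlen⟩ := ih _ hp
      refine ⟨ω', hs.trans (List.eraseIdx_sublist ω j), hω', ?_⟩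
      rw [List.length_eraseIdx_of_lt hj] at hlen
      omega

/-- Dyer's theorem, easy direction. -/
theorem isRefProd_of_sublist {ω' ω : List B} (h : ω'.Sublist ω) :
    IsRefProd cs (ω.length - ω'.length) ((cs.wordProd ω')⁻¹ * cs.wordProd ω) := by
  induction h with
  | slnil => simpa using isRefProd_one cs 0
  | @cons l₁ l₂ a h ih =>
    have hle := h.length_le
    have e : (a :: l₂).length - l₁.length = (l₂.length - l₁.length) + 1 := by
      rw [List.length_cons]; omega
    rw [e, cs.wordProd_cons]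
    have e2 : (cs.wordProd l₁)⁻¹ * (cs.simple a * cs.wordProd l₂) =
        ((cs.wordProd l₁)⁻¹ * cs.simple a * (cs.wordProd l₁)⁻¹⁻¹) *
          ((cs.wordProd l₁)⁻¹ * cs.wordProd l₂) := by group
    rw [e2]
    exact ih.mul_left cs ((cs.isReflection_simple a).conj _)
  | @cons_cons l₁ l₂ a h ih =>
    have e : (a :: l₂).length - (a :: l₁).length = (l₂.length - l₁.length) := by
      rw [List.length_cons, List.length_cons]; omega
    rw [e, cs.wordProd_cons, cs.wordProd_cons]
    have e2 : (cs.simple a * cs.wordProd l₁)⁻¹ * (cs.simple a * cs.wordProd l₂) =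
        (cs.wordProd l₁)⁻¹ * cs.wordProd l₂ := by group
    rw [e2]
    exact ih

end Pool.Agent.Lib.MP_60edde_al
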