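import Mathlib
import Pool.Agent.Lib.MP_60edde_al.Amalgam

/-!
Arbitrary labels from letters.
-/

namespace Pool.Agent.Lib.MP_60edde_al.Sli

open Parikh

section expandG

variable {Λ P : Type*} [Group P] (lt : Option Λ → P) (hlt : lt none = 1)

/-- Product of a list of letters. -/
def glprod (l : List Λ) : P := (l.map (fun x => lt (some x))).prod

theorem glprod_nil : glprod lt [] = 1 := rfl

theorem glprod_cons (a : Λ) (l : List Λ) : glprod lt (a :: l) = lt (some a) * glprod lt l := by
  simp [glprod]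

include hlt in
theorem glt_head_mul (l : List Λ) : lt l.head? * glprod lt l.tail = glprod lt l := by
  cases l with
  | nil => simp [glprod, hlt]
  | cons a l => rw [glprod_cons]; rfl

variable {V E : Type*} (src tgt : E → V) (wrd : E → List Λ)

/-- SufGfixes of the words. -/
def SufG (wrd : E → List Λ) : Type _ := {l : List Λ // l = [] ∨ ∃ e, l <:+ wrd e}

theorem finite_sufG [Finite E] : Finite (SufG wrd) := by
  have h : {l : List Λ | l = [] ∨ ∃ e, l <:+ wrd e}.Finite := by
    have h1 : {l : List Λ | l = [] ∨ ∃ e, l <:+ wrd e} ⊆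
        {[]} ∪ ⋃ e, {l | l ∈ (wrd e).tails} := by
      intro l hl
      rcases hl with rfl | ⟨e, he⟩
      · left; rfl
      · right
        exact Set.mem_iUnion.2 ⟨e, (List.mem_tails _ _).2 he⟩
    refine Set.Finite.subset ?_ h1
    refine (Set.finite_singleton _).union (Set.finite_iUnion fun e => ?_)
    exact List.finite_toSet _
  exact h

/-- The tail of a suffix. -/
def SufG.tail (l : SufG wrd) : SufG wrd := ⟨l.1.tail, by
  rcases l.2 with h | ⟨e, he⟩
  · left; rw [h]; rfl
  · right; exact ⟨e, (List.tail_suffix l.1).trans he⟩⟩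

/-- Sources. -/
def srcG : E ⊕ (V × SufG wrd) → V × SufG wrd
  | Sum.inl e => (src e, ⟨[], Or.inl rfl⟩)
  | Sum.inr p => p

/-- Targets. -/
def tgtG : E ⊕ (V × SufG wrd) → V × SufG wrd
  | Sum.inl e => (tgt e, ⟨wrd e, Or.inr ⟨e, List.suffix_rfl⟩⟩)
  | Sum.inr p => (p.1, p.2.tail)

/-- Labels. -/
def labG : E ⊕ (V × SufG wrd) → Option Λ
  | Sum.inl _ => none
  | Sum.inr p => p.2.1.head?

variable {src tgt wrd}

theorem read_walkG (v : V) (l : SufG wrd) {w : V × SufG wrd} {g : P}
    {c : E ⊕ (V × SufG wrd) → ℕ}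
    (p : Walk (srcG src wrd) (tgtG tgt wrd) (fun e => lt (labG wrd e))
      (v, ⟨[], Or.inl rfl⟩) w g c) :
    ∃ c', Walk (srcG src wrd) (tgtG tgt wrd) (fun e => lt (labG wrd e))
      (v, l) w (glprod lt l.1 * g) c' ∧ res c' = res c := by
  obtain ⟨l, hl⟩ := l
  induction l with
  | nil => exact ⟨c, by rw [glprod_nil lt, one_mul]; exact p, rfl⟩
  | cons a l ih =>
    have hl' : l = [] ∨ ∃ e, l <:+ wrd e := by
      rcases hl with h | ⟨e, he⟩
      · exact absurd h (by simp)
      · right; exact ⟨e, (List.suffix_cons a l).trans he⟩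
    obtain ⟨c', h1, h2⟩ := ih hl'
    refine ⟨ev (Sum.inr (v, ⟨a :: l, hl⟩)) + c', ?_, ?_⟩
    · have := Walk.cons (src := srcG src wrd) (tgt := tgtG tgt wrd)
        (lab := fun e => lt (labG wrd e)) (Sum.inr (v, ⟨a :: l, hl⟩)) h1
      rw [glprod_cons lt, mul_assoc]
      exact this
    · rw [map_add, res_inr, zero_add, h2]

include hlt in
theorem walk_expandG {u v : V} {g : P} {c : E → ℕ}
    (p : Walk src tgt (fun e => glprod lt (wrd e)) u v g c) :
    ∃ c', Walk (srcG src wrd) (tgtG tgt wrd) (fun e => lt (labG wrd e))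
      (u, ⟨[], Or.inl rfl⟩) (v, ⟨[], Or.inl rfl⟩) g c' ∧ res c' = c := by
  induction p with
  | nil v => exact ⟨0, Walk.nil _, map_zero _⟩
  | @cons e v g c _ ih =>
    obtain ⟨c', h1, h2⟩ := ih
    obtain ⟨c'', h3, h4⟩ := read_walkG lt (tgt e) ⟨wrd e, Or.inr ⟨e, List.suffix_rfl⟩⟩ h1
    refine ⟨ev (Sum.inl e) + c'', ?_, ?_⟩
    · have := Walk.cons (src := srcG src wrd) (tgt := tgtG tgt wrd)
        (lab := fun e => lt (labG wrd e)) (Sum.inl e) h3
      have h5 : lt (labG wrd (Sum.inl e : E ⊕ (V × SufG wrd))) = 1 := hlt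
      rw [h5, one_mul] at this
      exact this
    · rw [map_add, res_inl, h4, h2]

include hlt in
theorem walk_contractG {x y : V × SufG wrd} {g : P} {c : E ⊕ (V × SufG wrd) → ℕ}
    (p : Walk (srcG src wrd) (tgtG tgt wrd) (fun e => lt (labG wrd e)) x y g c) :
    ∀ v, y = (v, ⟨[], Or.inl rfl⟩) → ∃ g₀, g = glprod lt x.2.1 * g₀ ∧
      Walk src tgt (fun e => glprod lt (wrd e)) x.1 v g₀ (res c) := by
  induction p with
  | nil z =>
    intro v hv
    subst hv
    exact ⟨1, by simp [glprod], by rw [map_zero]; exact Walk.nil _⟩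
  | @cons e y g c _ ih =>
    intro v hv
    obtain ⟨g₀, h1, h2⟩ := ih v hv
    rcases e with e | p
    · refine ⟨glprod lt (wrd e) * g₀, ?_, ?_⟩
      · have h5 : lt (labG wrd (Sum.inl e : E ⊕ (V × SufG wrd))) = 1 := hlt
        have h6 : (srcG src wrd (Sum.inl e)).2.1 = [] := rfl
        rw [h5, one_mul, h6, glprod_nil lt, one_mul, h1]
        rfl
      · rw [map_add, res_inl]
        exact Walk.cons (src := src) (tgt := tgt) (lab := fun e => glprod lt (wrd e)) e h2
    · refine ⟨g₀, ?_, ?_⟩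
      · change lt p.2.1.head? * g = glprod lt p.2.1 * g₀
        rw [h1]
        change lt p.2.1.head? * (glprod lt p.2.1.tail * g₀) = glprod lt p.2.1 * g₀
        rw [← mul_assoc, glt_head_mul lt hlt]
      · rw [map_add, res_inr, zero_add]
        exact h2

end expandG

open Monoid.PushoutI in
theorem SLI.pushoutI {ι : Type*} [Finite ι] [Nonempty ι] {G : ι → Type*} [∀ i, Group (G i)]
    {H : Type*} [Group H] [Finite H] (φ : ∀ i, H →* G i) (hφ : ∀ i, Function.Injective (φ i))
    (hG : ∀ i, SLI (G i)) : SLI (Monoid.PushoutI φ) := by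
  intro V E _ _ src tgt lab u v
  have hex : ∀ g : Monoid.PushoutI φ, ∃ l : List (Σ i, G i), glprod (aletter φ) l = g := by
    intro g
    induction g using Monoid.PushoutI.induction_on with
    | of i m => exact ⟨[⟨i, m⟩], by simp [glprod, aletter]⟩
    | base h =>
      obtain ⟨i⟩ := ‹Nonempty ι›
      exact ⟨[⟨i, φ i h⟩], by simp [glprod, aletter, of_apply_eq_base]⟩
    | mul x y hx hy =>
      obtain ⟨l, rfl⟩ := hx
      obtain ⟨l', rfl⟩ := hy
      exact ⟨l ++ l', by simp [glprod]⟩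
  choose wrd hwrd using fun e => hex (lab e)
  have hlab : lab = fun e => glprod (aletter φ) (wrd e) := funext fun e => (hwrd e).symm
  have := finite_sufG wrd
  have h := semilinear_optionA (φ := φ) (src := srcG src wrd) (tgt := tgtG tgt wrd)
    (lab := labG wrd) hφ hG (u, ⟨[], Or.inl rfl⟩) (v, ⟨[], Or.inl rfl⟩)
  convert h.image res using 1
  ext c
  constructor
  · intro p
    rw [hlab] at p
    obtain ⟨c', h1, h2⟩ := walk_expandG (aletter φ) rfl p
    exact ⟨c', h1, h2⟩
  · rintro ⟨c', h1, rfl⟩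
    obtain ⟨g₀, h2, h3⟩ := walk_contractG (aletter φ) rfl h1 v rfl
    have h4 : g₀ = 1 := by
      have : glprod (aletter φ) ([] : List (Σ i, G i)) * g₀ = 1 := h2.symm
      rwa [glprod_nil, one_mul] at this
    rw [h4] at h3
    rw [hlab]
    exact h3

end Pool.Agent.Lib.MP_60edde_al.Sli
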