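import Mathlib

/-!
Limits of subadditive sequences from bounds, and finiteness of the rank of a finitely
generated free group.
-/

namespace Pool.Agent.Lib.MP_60edde_al

open Filter Topology

theorem tendsto_of_bounds (a : ℕ → ℕ) (hsub : ∀ m n, a (m + n) ≤ a m + a n) (μ N C : ℕ)
    (hN : 1 ≤ N) (h1 : ∀ n, μ * n ≤ N * a n + C) (h2 : ∀ A, ∃ n, A ≤ n ∧ N * a n ≤ μ * n + C) :
    Tendsto (fun n : ℕ => (a n : ℝ) / n) atTop (𝓝 (((μ : ℚ) / N : ℚ) : ℝ)) := by
  have hs : Subadditive (fun n => (a n : ℝ)) := fun m n => by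
    change (a (m + n) : ℝ) ≤ (a m : ℝ) + (a n : ℝ)
    exact_mod_cast hsub m n
  have hb : BddBelow (Set.range fun n : ℕ => (a n : ℝ) / n) := ⟨0, by
    rintro _ ⟨n, rfl⟩
    positivity⟩
  have hlim := hs.tendsto_lim hb
  have hNR : (0 : ℝ) < N := by exact_mod_cast hN
  suffices hL : hs.lim = (((μ : ℚ) / N : ℚ) : ℝ) by rw [← hL]; exact hlim
  push_cast
  apply le_antisymm
  · by_contra hlt
    push Not at hlt
    obtain ⟨r, hr1, hr2⟩ := exists_between hlt
    have hev : ∀ᶠ n : ℕ in atTop, r < (a n : ℝ) / n := hlim.eventually (lt_mem_nhds hr2)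
    obtain ⟨A, hA⟩ := eventually_atTop.1 hev
    have hpos : 0 < N * r - μ := by
      rw [div_lt_iff₀ hNR] at hr1; linarith
    obtain ⟨A', hA'⟩ := exists_nat_gt (C / (N * r - μ))
    obtain ⟨n, hn, hn2⟩ := h2 (max A (max A' 1))
    have hn1 : (1 : ℕ) ≤ n := le_trans (le_trans (le_max_right _ _) (le_max_right _ _)) hn
    have hnpos : (0 : ℝ) < n := by exact_mod_cast hn1
    have e1 := hA n (le_trans (le_max_left _ _) hn)
    rw [lt_div_iff₀ hnpos] at e1
    have e2 : (A' : ℝ) ≤ n := by
      exact_mod_cast le_trans (le_trans (le_max_left _ _) (le_max_right _ _)) hn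
    have e3 : (N : ℝ) * a n ≤ μ * n + C := by exact_mod_cast hn2
    have e4 : (C : ℝ) < n * (N * r - μ) := by
      rw [div_lt_iff₀ hpos] at hA'
      nlinarith
    nlinarith
  · have hev : ∀ᶠ n : ℕ in atTop, (μ : ℝ) / N - C / N * (1 / (n : ℝ)) ≤ (a n : ℝ) / n := by
      filter_upwards [eventually_ge_atTop 1] with n hn
      have hnpos : (0 : ℝ) < n := by exact_mod_cast hn
      have e1 : (μ : ℝ) * n ≤ N * a n + C := by exact_mod_cast h1 n
      rw [le_div_iff₀ hnpos]
      have : ((μ : ℝ) / N - C / N * (1 / (n : ℝ))) * n = (μ * n - C) / N := by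
        field_simp
      rw [this, div_le_iff₀ hNR]
      linarith
    have ht : Tendsto (fun n : ℕ => (μ : ℝ) / N - C / N * (1 / (n : ℝ))) atTop
        (𝓝 ((μ : ℝ) / N - C / N * 0)) :=
      tendsto_const_nhds.sub (tendsto_const_nhds.mul tendsto_one_div_atTop_nhds_zero_nat)
    rw [mul_zero, sub_zero] at ht
    exact le_of_tendsto_of_tendsto ht hlim hev

theorem finite_of_fg_freeGroup (X : Type*) [h : Group.FG (FreeGroup X)] : Finite X := by
  classical
  obtain ⟨S, hS⟩ := h.out
  have hinj : Function.Injective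
      (fun (f : FreeGroup X →* Multiplicative (ZMod 2)) (s : S) => f s) := by
    intro f g hfg
    apply MonoidHom.eq_of_eqOn_dense hS
    intro s hs
    exact congrFun hfg ⟨s, hs⟩
  have : Finite (Multiplicative (ZMod 2)) := inferInstanceAs (Finite (ZMod 2))
  have h1 : Finite (FreeGroup X →* Multiplicative (ZMod 2)) := Finite.of_injective _ hinj
  have h2 : Finite (X → Multiplicative (ZMod 2)) :=
    Finite.of_equiv _ (FreeGroup.lift (α := X) (β := Multiplicative (ZMod 2))).symm
  refine Finite.of_injective (β := X → Multiplicative (ZMod 2))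
    (fun x => Function.update (fun _ => 1) x (Multiplicative.ofAdd 1)) ?_
  intro x y hxy
  by_contra hne
  have h3 := congrFun hxy x
  simp only [Function.update_self] at h3
  rw [Function.update_of_ne hne] at h3
  revert h3
  decide

end Pool.Agent.Lib.MP_60edde_al
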