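import Mathlib

/-!
Tree-like geometry of free groups.
-/

namespace Pool.Agent.Lib.MP_60edde_al

open FreeGroup

section cpl

variable {β : Type*} [DecidableEq β]

/-- Length of the longest common prefix. -/
def cpl : List β → List β → ℕ
  | a :: l, b :: m => if a = b then cpl l m + 1 else 0
  | _, _ => 0

theorem cpl_nil_left (m : List β) : cpl [] m = 0 := by
  cases m <;> rfl

theorem cpl_nil_right (l : List β) : cpl l [] = 0 := by
  cases l <;> rfl

theorem cpl_cons (a b : β) (l m : List β) :
    cpl (a :: l) (b :: m) = if a = b then cpl l m + 1 else 0 := rfl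

theorem cpl_comm (l m : List β) : cpl l m = cpl m l := by
  induction l generalizing m with
  | nil => rw [cpl_nil_left, cpl_nil_right]
  | cons a l ih =>
    cases m with
    | nil => rw [cpl_nil_left, cpl_nil_right]
    | cons b m =>
      rw [cpl_cons, cpl_cons, ih m]
      by_cases h : a = b
      · simp [h]
      · rw [if_neg h, if_neg (fun h' => h h'.symm)]

theorem cpl_ultra (l m n : List β) : min (cpl l m) (cpl m n) ≤ cpl l n := by
  induction l generalizing m n with
  | nil => simp [cpl_nil_left]
  | cons a l ih =>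
    cases m with
    | nil => simp [cpl_nil_left, cpl_nil_right]
    | cons b m =>
      cases n with
      | nil => simp [cpl_nil_right]
      | cons c n =>
        rw [cpl_cons, cpl_cons, cpl_cons]
        have := ih m n
        split_ifs with h1 h2 h3 h3 h2 h3 <;> simp_all

end cpl

variable {X : Type*} [DecidableEq X]

theorem isReduced_invRev {l : List (X × Bool)} (h : FreeGroup.IsReduced l) : FreeGroup.IsReduced (invRev l) := by
  rw [isReduced_iff_reduce_eq] at h ⊢
  rw [reduce_invRev, h]

theorem isReduced_tail {a : X × Bool} {l : List (X × Bool)} (h : FreeGroup.IsReduced (a :: l)) :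
    FreeGroup.IsReduced l := List.IsChain.tail h

theorem norm_inv_mul_mk (l m : List (X × Bool)) (hl : FreeGroup.IsReduced l) (hm : FreeGroup.IsReduced m) :
    FreeGroup.norm ((mk l)⁻¹ * mk m) + 2 * cpl l m = l.length + m.length := by
  induction l generalizing m with
  | nil =>
    have h1 : (mk ([] : List (X × Bool)))⁻¹ * mk m = mk m := by
      rw [← one_eq_mk]; simp
    rw [h1, FreeGroup.norm, toWord_mk, hm.reduce_eq, cpl_nil_left]
    simp
  | cons a l ih =>
    cases m with
    | nil =>
      have h1 : (mk (a :: l))⁻¹ * mk ([] : List (X × Bool)) = (mk (a :: l))⁻¹ := by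
        rw [← one_eq_mk]; simp
      rw [h1, norm_inv_eq, FreeGroup.norm, toWord_mk, hl.reduce_eq, cpl_nil_right]
      simp
    | cons b m =>
      rw [cpl_cons]
      by_cases h : a = b
      · subst h
        rw [if_pos rfl]
        have h1 : (mk (a :: l))⁻¹ * mk (a :: m) = (mk l)⁻¹ * mk m := by
          have e1 : mk (a :: l) = mk [a] * mk l := by rw [mul_mk]; rfl
          have e2 : mk (a :: m) = mk [a] * mk m := by rw [mul_mk]; rfl
          rw [e1, e2]; group
        have := ih m (isReduced_tail hl) (isReduced_tail hm)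
        rw [h1, List.length_cons, List.length_cons]
        omega
      · rw [if_neg h]
        have hred : FreeGroup.IsReduced (invRev (a :: l) ++ (b :: m)) := by
          unfold FreeGroup.IsReduced
          rw [List.isChain_append]
          refine ⟨isReduced_invRev hl, hm, ?_⟩
          intro c hc d hd
          have hc' : c = (a.1, !a.2) := by
            have : (invRev (a :: l)).getLast? = some (a.1, !a.2) := by
              simp [invRev]
            rw [this] at hc
            simpa using hc.symm
          have hd' : d = b := by simpa using hd.symm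
          rw [hc', hd']
          intro h3
          simp only at h3 ⊢
          have h4 : a.2 ≠ b.2 := fun h5 => h (Prod.ext h3 h5)
          revert h4
          cases a.2 <;> cases b.2 <;> simp
        have h1 : (mk (a :: l))⁻¹ * mk (b :: m) = mk (invRev (a :: l) ++ (b :: m)) := by
          rw [inv_mk, mul_mk]
        rw [h1, FreeGroup.norm, toWord_mk, hred.reduce_eq]
        simp [invRev_length]

theorem norm_inv_mul (x y : FreeGroup X) :
    FreeGroup.norm (x⁻¹ * y) + 2 * cpl x.toWord y.toWord = FreeGroup.norm x + FreeGroup.norm y := by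
  have := norm_inv_mul_mk x.toWord y.toWord isReduced_toWord isReduced_toWord
  rwa [mk_toWord, mk_toWord] at this

/-- Removing a point which is farthest from the base point keeps distances small. -/
theorem free_merge (o x y z : FreeGroup X) (l : ℕ) (h1 : FreeGroup.norm (x⁻¹ * y) ≤ l)
    (h2 : FreeGroup.norm (y⁻¹ * z) ≤ l) (h3 : FreeGroup.norm (o⁻¹ * x) ≤ FreeGroup.norm (o⁻¹ * y))
    (h4 : FreeGroup.norm (o⁻¹ * z) ≤ FreeGroup.norm (o⁻¹ * y)) : FreeGroup.norm (x⁻¹ * z) ≤ l := by
  have e : ∀ a b : FreeGroup X, a⁻¹ * b = (o⁻¹ * a)⁻¹ * (o⁻¹ * b) := by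
    intro a b; group
  rw [e] at h1 h2 ⊢
  have a1 := norm_inv_mul (o⁻¹ * x) (o⁻¹ * y)
  have a2 := norm_inv_mul (o⁻¹ * y) (o⁻¹ * z)
  have a3 := norm_inv_mul (o⁻¹ * x) (o⁻¹ * z)
  have a4 := cpl_ultra (o⁻¹ * x).toWord (o⁻¹ * y).toWord (o⁻¹ * z).toWord
  rcases le_total (cpl (o⁻¹ * x).toWord (o⁻¹ * y).toWord)
    (cpl (o⁻¹ * y).toWord (o⁻¹ * z).toWord) with h | h
  · rw [min_eq_left h] at a4
    omega
  · rw [min_eq_right h] at a4
    omega

theorem finite_ball [Finite X] (l : ℕ) : Finite {y : FreeGroup X // FreeGroup.norm y ≤ l} := by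
  have h1 : {L : List (X × Bool) | L.length ≤ l}.Finite := List.finite_length_le _ l
  have h2 : Finite {L : List (X × Bool) | L.length ≤ l} := h1
  refine Finite.of_injective
    (fun y : {y : FreeGroup X // FreeGroup.norm y ≤ l} =>
      (⟨y.1.toWord, y.2⟩ : {L : List (X × Bool) | L.length ≤ l})) ?_
  intro a b h
  have h3 : a.1.toWord = b.1.toWord := congrArg Subtype.val h
  exact Subtype.ext (toWord_injective h3)

end Pool.Agent.Lib.MP_60edde_al
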