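import Mathlib

/-!
Weighted binary derivations over a finite set of types, a pumping lemma with bounded pump,
and rationality of the asymptotic minimal cost.
-/

namespace Pool.Agent.Lib.MP_60edde_al

variable {T : Type*} (L : T → ℕ → Prop) (R : T → T → T → Prop)

/-- `Der τ n k`: there is a derivation of type `τ` with `n` leaves and total cost `k`. -/
inductive Der : T → ℕ → ℕ → Prop
  | leaf {τ : T} {k : ℕ} : L τ k → Der τ 1 k
  | node {τ σ ρ : T} {n n' k k' : ℕ} : R τ σ ρ → Der σ n k → Der ρ n' k' →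
      Der τ (n + n') (k + k')

/-- `Ctx σ τ a b`: a derivation of type `τ` with one hole of type `σ`, with `a` leaves and
cost `b` outside the hole. -/
inductive Ctx (σ : T) : T → ℕ → ℕ → Prop
  | hole : Ctx σ σ 0 0
  | left {τ τ₁ τ₂ : T} {a b n k : ℕ} : R τ τ₁ τ₂ → Ctx σ τ₁ a b → Der L R τ₂ n k →
      Ctx σ τ (a + n) (b + k)
  | right {τ τ₁ τ₂ : T} {a b n k : ℕ} : R τ τ₁ τ₂ → Der L R τ₁ n k → Ctx σ τ₂ a b →
      Ctx σ τ (n + a) (k + b)

/-- Derivations with exact height. -/
inductive DerH : ℕ → T → ℕ → ℕ → Prop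
  | leaf {τ : T} {k : ℕ} : L τ k → DerH 0 τ 1 k
  | nodeL {h h' : ℕ} {τ σ ρ : T} {n n' k k' : ℕ} : R τ σ ρ → DerH h σ n k → DerH h' ρ n' k' →
      h' ≤ h → DerH (h + 1) τ (n + n') (k + k')
  | nodeR {h h' : ℕ} {τ σ ρ : T} {n n' k k' : ℕ} : R τ σ ρ → DerH h' σ n k → DerH h ρ n' k' →
      h' ≤ h → DerH (h + 1) τ (n + n') (k + k')

variable {L R}

theorem Der.pos {τ : T} {n k : ℕ} (h : Der L R τ n k) : 1 ≤ n := by
  induction h with
  | leaf _ => exact le_refl 1
  | node _ _ _ ih1 _ => omega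

theorem DerH.der {h : ℕ} {τ : T} {n k : ℕ} (H : DerH L R h τ n k) : Der L R τ n k := by
  induction H with
  | leaf h => exact Der.leaf h
  | nodeL r _ _ _ ih1 ih2 => exact Der.node r ih1 ih2
  | nodeR r _ _ _ ih1 ih2 => exact Der.node r ih1 ih2

theorem DerH.le {h : ℕ} {τ : T} {n k : ℕ} (H : DerH L R h τ n k) : n ≤ 2 ^ h := by
  induction H with
  | leaf h => simp
  | nodeL r _ _ hh ih1 ih2 =>
    have := Nat.pow_le_pow_right (n := 2) (by norm_num) hh
    rw [pow_succ]; omega
  | nodeR r _ _ hh ih1 ih2 =>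
    have := Nat.pow_le_pow_right (n := 2) (by norm_num) hh
    rw [pow_succ]; omega

theorem Ctx.plug {σ τ : T} {a b n k : ℕ} (h : Ctx L R σ τ a b) (d : Der L R σ n k) :
    Der L R τ (a + n) (b + k) := by
  induction h with
  | hole => simpa using d
  | @left τ τ₁ τ₂ a b m l r _ d2 ih =>
    have := Der.node r ih d2
    convert this using 1 <;> ring
  | @right τ τ₁ τ₂ a b m l r d1 _ ih =>
    have := Der.node r d1 ih
    convert this using 1 <;> ring

theorem Ctx.comp {ρ σ τ : T} {a b c d : ℕ} (h : Ctx L R σ τ a b) (h' : Ctx L R ρ σ c d) :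
    Ctx L R ρ τ (a + c) (b + d) := by
  induction h with
  | hole => simpa using h'
  | @left τ τ₁ τ₂ a b m l r _ d2 ih =>
    have := Ctx.left r ih d2
    convert this using 1 <;> ring
  | @right τ τ₁ τ₂ a b m l r d1 _ ih =>
    have := Ctx.right r d1 ih
    convert this using 1 <;> ring

theorem Ctx.iter {σ : T} {a b : ℕ} (h : Ctx L R σ σ a b) (j : ℕ) :
    Ctx L R σ σ (j * a) (j * b) := by
  induction j with
  | zero => simpa using Ctx.hole
  | succ j ih =>
    have := ih.comp h
    convert this using 1 <;> ring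

/-- The derivation `(τ, n, k)` contains a pump with at most `K` leaves. -/
def HasPump (L : T → ℕ → Prop) (R : T → T → T → Prop) (K : ℕ) (τ : T) (n k : ℕ) : Prop :=
  ∃ (σ : T) (a b δ γ m l : ℕ), Ctx L R σ τ a b ∧ Ctx L R σ σ δ γ ∧ Der L R σ m l ∧
    1 ≤ δ ∧ δ ≤ K ∧ n = a + δ + m ∧ k = b + γ + l

theorem HasPump.left {K : ℕ} {τ σ ρ : T} {n n' k k' : ℕ} (r : R τ σ ρ)
    (h : HasPump L R K σ n k) (d : Der L R ρ n' k') : HasPump L R K τ (n + n') (k + k') := by
  obtain ⟨σ', a, b, δ, γ, m, l, h1, h2, h3, h4, h5, h6, h7⟩ := h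
  exact ⟨σ', a + n', b + k', δ, γ, m, l, Ctx.left r h1 d, h2, h3, h4, h5, by omega, by omega⟩

theorem HasPump.right {K : ℕ} {τ σ ρ : T} {n n' k k' : ℕ} (r : R τ σ ρ)
    (d : Der L R σ n k) (h : HasPump L R K ρ n' k') : HasPump L R K τ (n + n') (k + k') := by
  obtain ⟨σ', a, b, δ, γ, m, l, h1, h2, h3, h4, h5, h6, h7⟩ := h
  exact ⟨σ', n + a, k + b, δ, γ, m, l, Ctx.right r d h1, h2, h3, h4, h5, by omega, by omega⟩

/-- On a derivation of height `h`, and a set `X` of types with `|X| + h ≥ |T|`: either there is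
a pump or there is a subderivation with type in `X` with small complement. -/
theorem pump_or_hit [Fintype T] [DecidableEq T] {h : ℕ} {τ : T} {n k : ℕ}
    (H : DerH L R h τ n k) : ∀ (K : ℕ) (X : Finset T), 2 ^ h ≤ K → Fintype.card T ≤ X.card + h →
    HasPump L R K τ n k ∨ ∃ σ ∈ X, ∃ a b m l, Ctx L R σ τ a b ∧ Der L R σ m l ∧ a ≤ 2 ^ h ∧
      n = a + m ∧ k = b + l := by
  induction H with
  | @leaf τ k hl =>
    intro K X hK hX
    right
    have hX' : X = Finset.univ := Finset.eq_univ_of_card X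
      (le_antisymm (Finset.card_le_univ X) (by omega))
    exact ⟨τ, by rw [hX']; exact Finset.mem_univ τ, 0, 0, 1, k, Ctx.hole, Der.leaf hl, by simp,
      by simp, by simp⟩
  | @nodeL h h' τ σ ρ n n' k k' r H1 H2 hh ih1 ih2 =>
    intro K X hK hX
    by_cases hτ : τ ∈ X
    · right
      exact ⟨τ, hτ, 0, 0, n + n', k + k', Ctx.hole, Der.node r H1.der H2.der, by simp, by simp,
        by simp⟩
    · have hcard : (insert τ X).card = X.card + 1 := Finset.card_insert_of_notMem hτ
      have hK' : 2 ^ h ≤ K := le_trans (Nat.pow_le_pow_right (by norm_num) (Nat.le_succ h)) hK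
      have hn' : n' ≤ 2 ^ h := H2.le.trans (Nat.pow_le_pow_right (by norm_num) hh)
      rcases ih1 K (insert τ X) hK' (by omega) with hp | ⟨σ', hσ', a, b, m, l, c1, c2, c3, c4, c5⟩
      · left; exact hp.left r H2.der
      · rw [Finset.mem_insert] at hσ'
        have hpos := H2.der.pos
        have hpow : 2 ^ (h + 1) = 2 ^ h + 2 ^ h := by ring
        rcases hσ' with rfl | hσ'
        · left
          exact ⟨σ', 0, 0, a + n', b + k', m, l, Ctx.hole, Ctx.left r c1 H2.der, c2, by omega,
            by omega, by omega, by omega⟩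
        · right
          exact ⟨σ', hσ', a + n', b + k', m, l, Ctx.left r c1 H2.der, c2, by omega, by omega,
            by omega⟩
  | @nodeR h h' τ σ ρ n n' k k' r H1 H2 hh ih1 ih2 =>
    intro K X hK hX
    by_cases hτ : τ ∈ X
    · right
      exact ⟨τ, hτ, 0, 0, n + n', k + k', Ctx.hole, Der.node r H1.der H2.der, by simp, by simp,
        by simp⟩
    · have hcard : (insert τ X).card = X.card + 1 := Finset.card_insert_of_notMem hτ
      have hK' : 2 ^ h ≤ K := le_trans (Nat.pow_le_pow_right (by norm_num) (Nat.le_succ h)) hK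
      have hn' : n ≤ 2 ^ h := H1.le.trans (Nat.pow_le_pow_right (by norm_num) hh)
      rcases ih2 K (insert τ X) hK' (by omega) with hp | ⟨σ', hσ', a, b, m, l, c1, c2, c3, c4, c5⟩
      · left; exact hp.right r H1.der
      · rw [Finset.mem_insert] at hσ'
        have hpos := H1.der.pos
        have hpow : 2 ^ (h + 1) = 2 ^ h + 2 ^ h := by ring
        rcases hσ' with rfl | hσ'
        · left
          exact ⟨σ', 0, 0, n + a, k + b, m, l, Ctx.hole, Ctx.right r H1.der c1, c2, by omega,
            by omega, by omega, by omega⟩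
        · right
          exact ⟨σ', hσ', n + a, k + b, m, l, Ctx.right r H1.der c1, c2, by omega, by omega,
            by omega⟩

theorem pump_of_height [Fintype T] [DecidableEq T] {τ : T} {n k : ℕ}
    (H : DerH L R (Fintype.card T) τ n k) : HasPump L R (2 ^ Fintype.card T) τ n k := by
  rcases pump_or_hit H (2 ^ Fintype.card T) ∅ le_rfl (by simp) with h | ⟨σ, hσ, _⟩
  · exact h
  · simp at hσ

theorem height_or_pump [Fintype T] [DecidableEq T] {τ : T} {n k : ℕ} (H : Der L R τ n k) :
    (∃ h, h < Fintype.card T ∧ DerH L R h τ n k) ∨ HasPump L R (2 ^ Fintype.card T) τ n k := by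
  induction H with
  | @leaf τ k hl =>
    left
    exact ⟨0, Fintype.card_pos_iff.2 ⟨τ⟩, DerH.leaf hl⟩
  | @node τ σ ρ n n' k k' r H1 H2 ih1 ih2 =>
    rcases ih1 with ⟨h1, hh1, d1⟩ | hp
    · rcases ih2 with ⟨h2, hh2, d2⟩ | hp
      · rcases le_total h2 h1 with hle | hle
        · have d := DerH.nodeL r d1 d2 hle
          rcases Nat.lt_or_ge (h1 + 1) (Fintype.card T) with hlt | hge
          · left; exact ⟨h1 + 1, hlt, d⟩
          · right
            have : h1 + 1 = Fintype.card T := by omega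
            rw [this] at d
            exact pump_of_height d
        · have d := DerH.nodeR r d1 d2 hle
          rcases Nat.lt_or_ge (h2 + 1) (Fintype.card T) with hlt | hge
          · left; exact ⟨h2 + 1, hlt, d⟩
          · right
            have : h2 + 1 = Fintype.card T := by omega
            rw [this] at d
            exact pump_of_height d
      · right; exact hp.right r H1
    · right; exact hp.left r H2

/-- Pumping lemma with bounded pump. -/
theorem pumping [Fintype T] [DecidableEq T] {τ : T} {n k : ℕ} (H : Der L R τ n k)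
    (hn : 2 ^ Fintype.card T < n) : HasPump L R (2 ^ Fintype.card T) τ n k := by
  rcases height_or_pump H with ⟨h, hh, d⟩ | hp
  · exfalso
    have := d.le
    have := Nat.pow_le_pow_right (n := 2) (by norm_num) hh.le
    omega
  · exact hp

/-- Rationality of the asymptotic minimal cost: there are natural numbers `μ`, `N ≥ 1`, `C`
such that every derivation of type `τ₀` with `n` leaves has cost at least `(μ n - C)/N`, and there
are derivations with arbitrarily many leaves and cost at most `(μ n + C) / N`. -/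
theorem rational_slope [Finite T] (τ₀ : T)
    (hinf : ∀ N : ℕ, ∃ n k, N ≤ n ∧ Der L R τ₀ n k) :
    ∃ μ N C : ℕ, 1 ≤ N ∧ (∀ n k, Der L R τ₀ n k → μ * n ≤ N * k + C) ∧
      ∀ A : ℕ, ∃ n k, A ≤ n ∧ Der L R τ₀ n k ∧ N * k ≤ μ * n + C := by
  classical
  have : Fintype T := Fintype.ofFinite T
  set K := 2 ^ Fintype.card T with hK
  -- useful pumps
  let U : ℕ → ℕ → Prop := fun δ γ => ∃ (σ : T) (a b m l : ℕ), Ctx L R σ τ₀ a b ∧
    Ctx L R σ σ δ γ ∧ Der L R σ m l ∧ 1 ≤ δ ∧ δ ≤ K
  have hU : ∀ n k, Der L R τ₀ n k → K < n → ∃ δ γ n' k', U δ γ ∧ Der L R τ₀ n' k' ∧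
      1 ≤ δ ∧ n = δ + n' ∧ k = γ + k' := by
    intro n k d hn
    obtain ⟨σ, a, b, δ, γ, m, l, h1, h2, h3, h4, h5, h6, h7⟩ := pumping d hn
    exact ⟨δ, γ, a + m, b + l, ⟨σ, a, b, m, l, h1, h2, h3, h4, h5⟩, h1.plug h3, h4, by omega,
      by omega⟩
  have hne : ∃ x : ℕ, ∃ δ γ, U δ γ ∧ x = γ * (K.factorial / δ) := by
    obtain ⟨n, k, hn, d⟩ := hinf (K + 1)
    obtain ⟨δ, γ, n', k', h1, -⟩ := hU n k d (by omega)
    exact ⟨_, δ, γ, h1, rfl⟩
  set μ := Nat.find hne with hμ
  have hdvd : ∀ δ, 1 ≤ δ → δ ≤ K → (K.factorial / δ) * δ = K.factorial := by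
    intro δ h1 h2
    exact Nat.div_mul_cancel (Nat.dvd_factorial h1 h2)
  have hmin : ∀ δ γ, U δ γ → μ * δ ≤ γ * K.factorial := by
    intro δ γ h
    have h1 : μ ≤ γ * (K.factorial / δ) := Nat.find_min' hne ⟨δ, γ, h, rfl⟩
    obtain ⟨σ, a, b, m, l, -, -, -, h4, h5⟩ := h
    calc μ * δ ≤ γ * (K.factorial / δ) * δ := Nat.mul_le_mul_right _ h1
      _ = γ * K.factorial := by rw [mul_assoc, hdvd δ h4 h5]
  obtain ⟨δs, γs, ⟨σ, a, b, m, l, c1, c2, c3, c4, c5⟩, hs⟩ := Nat.find_spec hne
  have hs' : μ * δs = γs * K.factorial := by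
    rw [hμ, hs, mul_assoc, hdvd δs c4 c5]
  refine ⟨μ, K.factorial, μ * K + K.factorial * (b + l), Nat.factorial_pos K, ?_, ?_⟩
  · intro n
    induction n using Nat.strong_induction_on with
    | _ n ih =>
      intro k d
      rcases Nat.lt_or_ge K n with hn | hn
      · obtain ⟨δ, γ, n', k', h1, h2, h3, h4, h5⟩ := hU n k d hn
        have e1 := ih n' (by omega) k' h2
        have e2 := hmin δ γ h1
        rw [h4, h5]
        nlinarith
      · have : μ * n ≤ μ * K := Nat.mul_le_mul_left _ hn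
        have := Nat.zero_le (K.factorial * k)
        have := Nat.zero_le (K.factorial * (b + l))
        omega
  · intro A
    refine ⟨a + (A * δs + m), b + (A * γs + l), ?_, c1.plug ((c2.iter A).plug c3), ?_⟩
    · have : A ≤ A * δs := Nat.le_mul_of_pos_right A c4
      omega
    · have e1 : K.factorial * (b + (A * γs + l)) = A * (γs * K.factorial) + K.factorial * (b + l) := by
        ring
      have e2 : μ * (a + (A * δs + m)) = A * (μ * δs) + μ * (a + m) := by ring
      rw [e1, e2, hs']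
      have := Nat.zero_le (μ * (a + m))
      have := Nat.zero_le (μ * K)
      omega

end Pool.Agent.Lib.MP_60edde_al
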