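import Mathlib
import Pool.Agent.Lib.MP_60edde_al.Grammar
import Pool.Agent.Lib.MP_60edde_al.Free

/-!
Deletion of letters from powers of words in virtually free groups.
-/

namespace Pool.Agent.Lib.MP_60edde_al

section bracket

variable {α : Type*} (R' : α → α → Prop) (f : α → ℕ) (x0 : α)

/-- Points which are reached from `x0` by a chain of good pairs with increasing distance. -/
inductive Inc : α → Prop
  | base {z : α} : R' x0 z → Inc z
  | push {y z : α} : Inc y → R' y z → f y < f z → Inc z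

variable {R' f x0}

theorem Inc.step (h0 : f x0 = 0)
    (merge : ∀ x y z, R' x y → R' y z → f x ≤ f y → f z ≤ f y → R' x z)
    {y z : α} (h : Inc R' f x0 y) (h' : R' y z) : Inc R' f x0 z := by
  induction h with
  | @base y hy =>
    rcases Nat.lt_or_ge (f y) (f z) with hlt | hge
    · exact Inc.push (Inc.base hy) h' hlt
    · exact Inc.base (merge _ _ _ hy h' (by rw [h0]; exact Nat.zero_le _) hge)
  | @push y' y hy' hyy hlt ih =>
    rcases Nat.lt_or_ge (f y) (f z) with hlt' | hge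
    · exact Inc.push (Inc.push hy' hyy hlt) h' hlt'
    · exact ih (merge _ _ _ hyy h' hlt.le hge)

theorem Inc.final {l : ℕ} (close : ∀ y z, R' x0 y → R' y z → f z ≤ l → R' x0 z)
    {z : α} (h : Inc R' f x0 z) (hz : f z ≤ l) : R' x0 z := by
  induction h with
  | base h => exact h
  | @push y z hy hyz hlt ih => exact close y z (ih (by omega)) hyz hz

end bracket

variable {G : Type*} [Group G]

/-- `Del x n g k`: the element `g` is obtained from the word `x (n-1) ⋯ x 1 x 0` by deleting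
`k` letters. -/
inductive Del (x : ℕ → G) : ℕ → G → ℕ → Prop
  | zero : Del x 0 1 0
  | keep {n : ℕ} {g : G} {k : ℕ} : Del x n g k → Del x (n + 1) (x n * g) k
  | skip {n : ℕ} {g : G} {k : ℕ} : Del x n g k → Del x (n + 1) g (k + 1)

theorem del_all (x : ℕ → G) (n : ℕ) : Del x n 1 n := by
  induction n with
  | zero => exact Del.zero
  | succ n ih => exact ih.skip

section virt

variable (H : Subgroup G) {X : Type*} [DecidableEq X] (e : H ≃* FreeGroup X)

theorem out_inv_mul_mem (g : G) : (Quotient.out (g : G ⧸ H))⁻¹ * g ∈ H := by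
  rw [← QuotientGroup.eq]
  exact Quotient.out_eq _

/-- The lift of `g` to the free group. -/
noncomputable def psi (g : G) : FreeGroup X :=
  (e ⟨(Quotient.out (g : G ⧸ H))⁻¹ * g, out_inv_mul_mem H g⟩)⁻¹

theorem lab_mem (a : G) (q : G ⧸ H) :
    (Quotient.out q)⁻¹ * a⁻¹ * Quotient.out (a • q) ∈ H := by
  have h1 : ((a * Quotient.out q : G) : G ⧸ H) = ((Quotient.out (a • q) : G) : G ⧸ H) := by
    have h2 : ((Quotient.out (a • q) : G) : G ⧸ H) = a • q := Quotient.out_eq _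
    rw [h2]
    have h3 : ((Quotient.out q : G) : G ⧸ H) = q := Quotient.out_eq _
    conv_rhs => rw [← h3]
    rfl
  rw [QuotientGroup.eq] at h1
  have h4 : (a * Quotient.out q)⁻¹ * Quotient.out (a • q)
      = (Quotient.out q)⁻¹ * a⁻¹ * Quotient.out (a • q) := by
    rw [mul_inv_rev]
  rwa [h4] at h1

/-- The label of the edge from the coset `q` to the coset `a q`. -/
noncomputable def lab (a : G) (q : G ⧸ H) : FreeGroup X :=
  e ⟨(Quotient.out q)⁻¹ * a⁻¹ * Quotient.out (a • q), lab_mem H a q⟩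

omit [DecidableEq X] in
theorem psi_step (a g : G) : (psi H e g)⁻¹ * psi H e (a * g) = lab H e a (g : G ⧸ H) := by
  unfold psi lab
  rw [inv_inv, ← map_inv, ← map_mul]
  congr 1
  apply Subtype.ext
  have h : ((a * g : G) : G ⧸ H) = a • (g : G ⧸ H) := rfl
  simp only [Subgroup.coe_mul, Subgroup.coe_inv]
  rw [h]
  group

omit [DecidableEq X] in
theorem psi_inj {g g' : G} (h : psi H e g = psi H e g') (hq : (g : G ⧸ H) = (g' : G ⧸ H)) :
    g = g' := by
  unfold psi at h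
  have h1 := e.injective (inv_injective h)
  have h2 := congrArg Subtype.val h1
  simp only at h2
  rw [hq] at h2
  exact mul_left_cancel h2

variable (m : ℕ) (l : ℕ)

/-- The finite set of types. -/
abbrev Ty := (ZMod m × (G ⧸ H)) × (ZMod m × (G ⧸ H)) × {y : FreeGroup X // FreeGroup.norm y ≤ l}

/-- Leaves. -/
def LeafRel (xz : ZMod m → G) (τ : Ty (X := X) H m l) (k : ℕ) : Prop :=
  τ.2.1.1 = τ.1.1 + 1 ∧
    ((k = 0 ∧ τ.2.1.2 = xz τ.1.1 • τ.1.2 ∧ (τ.2.2 : FreeGroup X) = lab H e (xz τ.1.1) τ.1.2) ∨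
      (k = 1 ∧ τ.2.1.2 = τ.1.2 ∧ (τ.2.2 : FreeGroup X) = 1))

/-- Nodes. -/
def NodeRel (τ σ ρ : Ty (X := X) H m l) : Prop :=
  σ.1 = τ.1 ∧ ρ.1 = σ.2.1 ∧ ρ.2.1 = τ.2.1 ∧ (τ.2.2 : FreeGroup X) = σ.2.2 * ρ.2.2

variable {m l}

theorem soundness (x : ℕ → G) (xz : ZMod m → G) (hx : ∀ n : ℕ, x n = xz n)
    {τ : Ty (X := X) H m l} {n k : ℕ} (d : Der (LeafRel H e m l xz) (NodeRel H m l) τ n k) :
    ∀ (n0 : ℕ) (g : G), (n0 : ZMod m) = τ.1.1 → (g : G ⧸ H) = τ.1.2 →
      ∃ g' : G, (∀ k0, Del x n0 g k0 → Del x (n0 + n) g' (k0 + k)) ∧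
        ((n0 + n : ℕ) : ZMod m) = τ.2.1.1 ∧ (g' : G ⧸ H) = τ.2.1.2 ∧
        (psi H e g)⁻¹ * psi H e g' = τ.2.2 := by
  induction d with
  | @leaf τ k h =>
    intro n0 g hn hg
    obtain ⟨h1, ⟨hk, h2, h3⟩ | ⟨hk, h2, h3⟩⟩ := h
    · refine ⟨x n0 * g, ?_, ?_, ?_, ?_⟩
      · intro k0 hd
        rw [hk]; exact hd.keep
      · rw [h1, ← hn]; push_cast; ring
      · rw [h2, hx, hn, ← hg]; rfl
      · rw [psi_step, h3, hx, hn, hg]
    · refine ⟨g, ?_, ?_, ?_, ?_⟩
      · intro k0 hd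
        rw [hk]; exact hd.skip
      · rw [h1, ← hn]; push_cast; ring
      · rw [h2, ← hg]
      · rw [h3, inv_mul_cancel]
  | @node τ σ ρ n n' k k' r d1 d2 ih1 ih2 =>
    intro n0 g hn hg
    obtain ⟨r1, r2, r3, r4⟩ := r
    obtain ⟨g1, a1, a2, a3, a4⟩ := ih1 n0 g (by rw [r1]; exact hn) (by rw [r1]; exact hg)
    obtain ⟨g2, b1, b2, b3, b4⟩ := ih2 (n0 + n) g1 (by rw [r2]; exact a2) (by rw [r2]; exact a3)
    refine ⟨g2, ?_, ?_, ?_, ?_⟩
    · intro k0 hd
      rw [← add_assoc, ← add_assoc]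
      exact b1 _ (a1 _ hd)
    · rw [← add_assoc, b2, r3]
    · rw [b3, r3]
    · rw [r4, ← a4, ← b4]; group

/-- Good pairs. -/
def Good (xz : ZMod m → G) (p p' : ℕ × G × ℕ) : Prop :=
  ∃ (δ γ : ℕ) (hb : FreeGroup.norm ((psi H e p.2.1)⁻¹ * psi H e p'.2.1) ≤ l),
    p'.1 = p.1 + δ ∧ p'.2.2 = p.2.2 + γ ∧
    Der (LeafRel H e m l xz) (NodeRel H m l)
      (((p.1 : ZMod m), (p.2.1 : G ⧸ H)), ((p'.1 : ZMod m), (p'.2.1 : G ⧸ H)),
        ⟨(psi H e p.2.1)⁻¹ * psi H e p'.2.1, hb⟩) δ γ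

theorem good_close (xz : ZMod m → G) (p p' p'' : ℕ × G × ℕ)
    (h : Good (l := l) H e xz p p') (h' : Good (l := l) H e xz p' p'')
    (hb : FreeGroup.norm ((psi H e p.2.1)⁻¹ * psi H e p''.2.1) ≤ l) :
    Good (l := l) H e xz p p'' := by
  obtain ⟨δ, γ, hb1, h1, h2, h3⟩ := h
  obtain ⟨δ', γ', hb1', h1', h2', h3'⟩ := h'
  refine ⟨δ + δ', γ + γ', hb, by omega, by omega, Der.node ?_ h3 h3'⟩
  refine ⟨rfl, rfl, rfl, ?_⟩
  simp only
  group

/-- Distance of the lift to the base point. -/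
noncomputable def dst (p : ℕ × G × ℕ) : ℕ :=
  FreeGroup.norm ((psi H e (1 : G))⁻¹ * psi H e p.2.1)

theorem dst_one (n k : ℕ) : dst H e (n, 1, k) = 0 := by
  unfold dst
  simp

theorem good_merge (xz : ZMod m → G) (p p' p'' : ℕ × G × ℕ)
    (h : Good (l := l) H e xz p p') (h' : Good (l := l) H e xz p' p'')
    (h1 : dst H e p ≤ dst H e p') (h2 : dst H e p'' ≤ dst H e p') :
    Good (l := l) H e xz p p'' := by
  have hb := free_merge (psi H e (1 : G)) (psi H e p.2.1) (psi H e p'.2.1) (psi H e p''.2.1) l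
    h.choose_spec.choose_spec.choose h'.choose_spec.choose_spec.choose h1 h2
  exact good_close H e xz p p' p'' h h' hb

theorem completeness (x : ℕ → G) (xz : ZMod m → G) (hx : ∀ n : ℕ, x n = xz n)
    (hl : ∀ i q, FreeGroup.norm (lab H e (xz i) q) ≤ l) {n : ℕ} {g : G} {k : ℕ}
    (d : Del x n g k) :
    (n, g, k) = ((0 : ℕ), (1 : G), (0 : ℕ)) ∨
      Inc (Good (l := l) H e xz) (dst H e) (0, 1, 0) (n, g, k) := by
  induction d with
  | zero => left; rfl
  | @keep n g k d ih =>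
    right
    have hgood : Good (l := l) H e xz (n, g, k) (n + 1, x n * g, k) := by
      have hb : FreeGroup.norm ((psi H e g)⁻¹ * psi H e (x n * g)) ≤ l := by
        rw [psi_step, hx]; exact hl _ _
      refine ⟨1, 0, hb, rfl, rfl, Der.leaf ?_⟩
      refine ⟨by push_cast; ring, Or.inl ⟨rfl, ?_, ?_⟩⟩
      · simp only
        rw [← hx]; rfl
      · simp only
        rw [psi_step, hx]
    rcases ih with ih | ih
    · rw [ih] at hgood
      exact Inc.base hgood
    · exact Inc.step (dst_one H e 0 0) (good_merge H e xz) ih hgood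
  | @skip n g k d ih =>
    right
    have hgood : Good (l := l) H e xz (n, g, k) (n + 1, g, k + 1) := by
      have hb : FreeGroup.norm ((psi H e g)⁻¹ * psi H e g) ≤ l := by
        rw [inv_mul_cancel, FreeGroup.norm_one]; exact Nat.zero_le _
      refine ⟨1, 1, hb, rfl, rfl, Der.leaf ?_⟩
      refine ⟨by push_cast; ring, Or.inr ⟨rfl, rfl, ?_⟩⟩
      simp only
      rw [inv_mul_cancel]
    rcases ih with ih | ih
    · rw [ih] at hgood
      exact Inc.base hgood
    · exact Inc.step (dst_one H e 0 0) (good_merge H e xz) ih hgood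

/-- The start type. -/
def startTy : Ty (X := X) H m l :=
  (((0 : ZMod m), ((1 : G) : G ⧸ H)), ((0 : ZMod m), ((1 : G) : G ⧸ H)),
    ⟨1, by rw [FreeGroup.norm_one]; exact Nat.zero_le _⟩)

theorem del_of_der (x : ℕ → G) (xz : ZMod m → G) (hx : ∀ n : ℕ, x n = xz n) {n k : ℕ}
    (d : Der (LeafRel H e m l xz) (NodeRel H m l) (startTy (X := X) H) n k) :
    Del x n 1 k ∧ ((n : ℕ) : ZMod m) = 0 := by
  obtain ⟨g', h1, h2, h3, h4⟩ := soundness H e x xz hx d 0 1 (by simp [startTy]) rfl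
  have h5 : psi H e (1 : G) = psi H e g' := by
    have : (psi H e (1 : G))⁻¹ * psi H e g' = 1 := h4
    rw [inv_mul_eq_one] at this
    exact this
  have h6 : (1 : G) = g' := psi_inj H e h5 h3.symm
  have h7 := h1 0 Del.zero
  rw [← h6, zero_add, zero_add] at h7
  rw [zero_add] at h2
  exact ⟨h7, h2⟩

theorem der_of_del (x : ℕ → G) (xz : ZMod m → G) (hx : ∀ n : ℕ, x n = xz n)
    (hl : ∀ i q, FreeGroup.norm (lab H e (xz i) q) ≤ l) {n k : ℕ} (hn : n ≠ 0)
    (hm : (n : ZMod m) = 0) (d : Del x n 1 k) :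
    Der (LeafRel H e m l xz) (NodeRel H m l) (startTy (X := X) H) n k := by
  rcases completeness H e x xz hx hl d with h | h
  · exact absurd (congrArg Prod.fst h) hn
  · have hgood : Good (l := l) H e xz (0, 1, 0) (n, 1, k) :=
      Inc.final (l := l) (fun y z hy hyz hzl => good_close H e xz _ y z hy hyz hzl) h
        (by simp)
    obtain ⟨δ, γ, hb, h1, h2, h3⟩ := hgood
    simp only [zero_add] at h1 h2
    subst h1; subst h2
    have hτ : ((((0 : ℕ) : ZMod m), ((1 : G) : G ⧸ H)), (((n : ℕ) : ZMod m), ((1 : G) : G ⧸ H)),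
        (⟨(psi H e (1 : G))⁻¹ * psi H e (1 : G), hb⟩ : {y : FreeGroup X // FreeGroup.norm y ≤ l}))
        = startTy (X := X) H := by
      unfold startTy
      rw [hm]
      simp
    rw [← hτ]
    exact h3

end virt

/-- The asymptotic minimal number of deletions in powers of a word in a group with a free
subgroup of finite rank and finite index is rational. -/
theorem slope_virtually_free (H : Subgroup G) [H.FiniteIndex] {X : Type*} [Finite X]
    (e : H ≃* FreeGroup X) (m : ℕ) [NeZero m] (x : ℕ → G) (xz : ZMod m → G)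
    (hx : ∀ n : ℕ, x n = xz n) :
    ∃ μ N C : ℕ, 1 ≤ N ∧ (∀ n k, Del x (n * m) 1 k → μ * n ≤ N * k + C) ∧
      ∀ A : ℕ, ∃ n k, A ≤ n ∧ Del x (n * m) 1 k ∧ N * k ≤ μ * n + C := by
  classical
  have hfin : Finite (G ⧸ H) := inferInstance
  obtain ⟨l, hl⟩ : ∃ l : ℕ, ∀ p : ZMod m × (G ⧸ H), FreeGroup.norm (lab H e (xz p.1) p.2) ≤ l :=
    Finite.exists_le _
  have hl' : ∀ i q, FreeGroup.norm (lab H e (xz i) q) ≤ l := fun i q => hl (i, q)
  have hball := finite_ball (X := X) l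
  have hcast : ∀ n : ℕ, ((n * m : ℕ) : ZMod m) = 0 := by
    intro n; push_cast; simp
  have hm : 1 ≤ m := Nat.one_le_iff_ne_zero.2 (NeZero.ne m)
  obtain ⟨μ, N, C, hN, h1, h2⟩ := rational_slope (L := LeafRel H e m l xz) (R := NodeRel H m l)
    (startTy (X := X) H) (by
      intro A
      refine ⟨(A + 1) * m, (A + 1) * m, ?_, der_of_del H e x xz hx hl' ?_ (hcast _) (del_all x _)⟩
      · nlinarith
      · exact Nat.mul_ne_zero (by omega) (by omega))
  refine ⟨μ * m, N, C, hN, ?_, ?_⟩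
  · intro n k d
    by_cases hn : n = 0
    · subst hn; simp
    · have := h1 _ _ (der_of_del H e x xz hx hl' (Nat.mul_ne_zero hn (by omega)) (hcast n) d)
      calc μ * m * n = μ * (n * m) := by ring
        _ ≤ _ := this
  · intro A
    obtain ⟨n', k, hA, d, hk⟩ := h2 (A * m)
    obtain ⟨d1, d2⟩ := del_of_der H e x xz hx d
    rw [ZMod.natCast_eq_zero_iff] at d2
    obtain ⟨n, hn⟩ := d2
    refine ⟨n, k, ?_, ?_, ?_⟩
    · rw [hn, mul_comm m n] at hA
      exact Nat.le_of_mul_le_mul_right hA (by omega)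
    · rw [mul_comm n m, ← hn]; exact d1
    · calc N * k ≤ μ * n' + C := hk
        _ = μ * m * n + C := by rw [hn]; ring

end Pool.Agent.Lib.MP_60edde_al
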