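import Mathlib
import Pool.Agent.Lib.MP_60edde_al.Dyer
import Pool.Agent.Lib.MP_60edde_al.VirtFree
import Pool.Agent.Lib.MP_60edde_al.Limit

/-!
Assembly: words over a set of generators, powers, deletions, and reflection length.
-/

namespace Pool.Agent.Lib.MP_60edde_al

open CoxeterSystem Filter Topology

variable {B : Type*} {W : Type*} [Group W] {M : CoxeterMatrix B} (cs : CoxeterSystem M W)

theorem exists_isRefProd (w : W) : ∃ k, IsRefProd cs k w := by
  obtain ⟨ω, rfl⟩ := cs.wordProd_surjective w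
  refine ⟨_, (ω.map cs.simple), ?_, rfl, le_refl _⟩
  intro t ht
  obtain ⟨i, -, rfl⟩ := List.mem_map.1 ht
  exact cs.isReflection_simple i

theorem IsRefProd.mul {k l : ℕ} {v w : W} (hv : IsRefProd cs k v) (hw : IsRefProd cs l w) :
    IsRefProd cs (k + l) (v * w) := by
  obtain ⟨L, a1, a2, a3⟩ := hv
  obtain ⟨L', b1, b2, b3⟩ := hw
  refine ⟨L ++ L', ?_, ?_, ?_⟩
  · intro t ht
    rcases List.mem_append.1 ht with h | h
    · exact a1 t h
    · exact b1 t h
  · rw [List.prod_append, a2, b2]
  · rw [List.length_append]; omega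

theorem IsRefProd.conj {k : ℕ} {w : W} (hw : IsRefProd cs k w) (g : W) :
    IsRefProd cs k (g * w * g⁻¹) := by
  obtain ⟨L, a1, a2, a3⟩ := hw
  refine ⟨L.map (MulAut.conj g), ?_, ?_, ?_⟩
  · intro t ht
    obtain ⟨s, hs, rfl⟩ := List.mem_map.1 ht
    exact (a1 s hs).conj g
  · rw [← map_list_prod, a2]; rfl
  · rw [List.length_map]; exact a3

theorem exists_word (I : Set B) (w : W) (hw : w ∈ Subgroup.closure (cs.simple '' I)) :
    ∃ ω : List B, (∀ i ∈ ω, i ∈ I) ∧ cs.wordProd ω = w := by
  induction hw using Subgroup.closure_induction with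
  | mem x hx =>
    obtain ⟨i, hi, rfl⟩ := hx
    exact ⟨[i], by simpa using hi, by simp⟩
  | one => exact ⟨[], by simp, by simp⟩
  | mul x y _ _ hx hy =>
    obtain ⟨ω, h1, rfl⟩ := hx
    obtain ⟨ω', h2, rfl⟩ := hy
    refine ⟨ω ++ ω', ?_, by rw [cs.wordProd_append]⟩
    intro i hi
    rcases List.mem_append.1 hi with h | h
    · exact h1 i h
    · exact h2 i h
  | inv x _ hx =>
    obtain ⟨ω, h1, rfl⟩ := hx
    exact ⟨ω.reverse, by simpa using h1, by simp⟩

/-- The word `x (n-1) ⋯ x 1 x 0`. -/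
def wd (x : ℕ → B) : ℕ → List B
  | 0 => []
  | n + 1 => x n :: wd x n

theorem length_wd (x : ℕ → B) (n : ℕ) : (wd x n).length = n := by
  induction n with
  | zero => rfl
  | succ n ih => rw [wd, List.length_cons, ih]

theorem wd_add (x : ℕ → B) (m : ℕ) (hx : ∀ j, x (j + m) = x j) (a : ℕ) :
    wd x (a + m) = wd x a ++ wd x m := by
  induction a with
  | zero => simp [wd]
  | succ a ih =>
    have : a + 1 + m = (a + m) + 1 := by ring
    rw [this, wd, wd, ih, hx, List.cons_append]

theorem wordProd_wd_mul (x : ℕ → B) (m : ℕ) (hx : ∀ j, x (j + m) = x j) (n : ℕ) :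
    cs.wordProd (wd x (n * m)) = (cs.wordProd (wd x m)) ^ n := by
  induction n with
  | zero => simp [wd]
  | succ n ih =>
    have : (n + 1) * m = n * m + m := by ring
    rw [this, wd_add x m hx, cs.wordProd_append, ih, pow_succ]

/-- Reading a word from the right. -/
theorem wd_reverse (ω : List B) (x : ℕ → B) (hx : ∀ j (hj : j < ω.length),
    x j = ω.reverse[j]'(by simpa using hj)) : ∀ n, n ≤ ω.length →
    wd x n = (ω.reverse.take n).reverse := by
  intro n
  induction n with
  | zero => intro _; simp [wd]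
  | succ n ih =>
    intro hn
    rw [wd, ih (by omega), hx n (by omega)]
    rw [List.take_succ_eq_append_getElem (by simpa using hn)]
    simp

theorem del_of_sublist {G : Type*} [Group G] (s : B → G) (x : ℕ → B) (n : ℕ) :
    ∀ ω' : List B, ω'.Sublist (wd x n) →
      ∃ k, k + ω'.length = n ∧ Del (fun j => s (x j)) n ((ω'.map s).prod) k := by
  induction n with
  | zero =>
    intro ω' h
    rw [wd, List.sublist_nil] at h
    subst h
    exact ⟨0, rfl, Del.zero⟩
  | succ n ih =>
    intro ω' h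
    rw [wd, List.sublist_cons_iff] at h
    rcases h with h | ⟨r, rfl, h⟩
    · obtain ⟨k, h1, h2⟩ := ih ω' h
      exact ⟨k + 1, by omega, h2.skip⟩
    · obtain ⟨k, h1, h2⟩ := ih r h
      refine ⟨k, by rw [List.length_cons]; omega, ?_⟩
      rw [List.map_cons, List.prod_cons]
      exact Del.keep h2

theorem isRefProd_of_del (x : ℕ → B) {n : ℕ} {g : W} {k : ℕ}
    (d : Del (fun j => cs.simple (x j)) n g k) :
    IsRefProd cs k (g⁻¹ * cs.wordProd (wd x n)) := by
  induction d with
  | zero => simpa [wd] using isRefProd_one cs 0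
  | @keep n g k d ih =>
    rw [wd, cs.wordProd_cons]
    have : (cs.simple (x n) * g)⁻¹ * (cs.simple (x n) * cs.wordProd (wd x n))
      = g⁻¹ * cs.wordProd (wd x n) := by group
    rw [this]
    exact ih
  | @skip n g k d ih =>
    rw [wd, cs.wordProd_cons]
    have : g⁻¹ * (cs.simple (x n) * cs.wordProd (wd x n))
      = (g⁻¹ * cs.simple (x n) * g⁻¹⁻¹) * (g⁻¹ * cs.wordProd (wd x n)) := by group
    rw [this]
    exact ih.mul_left cs ((cs.isReflection_simple _).conj _)

theorem Del.map {G G' : Type*} [Group G] [Group G'] (φ : G →* G') {x : ℕ → G} {n : ℕ} {g : G}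
    {k : ℕ} (d : Del x n g k) : Del (fun j => φ (x j)) n (φ g) k := by
  induction d with
  | zero => rw [map_one]; exact Del.zero
  | keep _ ih => rw [map_mul]; exact ih.keep
  | skip _ ih => exact ih.skip

/-- Powers of the element of a word and deletions in a periodic word. -/
theorem exists_reading (I : Set B) (G : Subgroup W)
    (hG : G = Subgroup.closure (cs.simple '' I)) (ω : List B) (hω : ∀ i ∈ ω, i ∈ I)
    (hne : ω ≠ []) :
    ∃ m : ℕ, NeZero m ∧ ∃ (x : ℕ → G) (xz : ZMod m → G), (∀ n : ℕ, x n = xz n) ∧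
      ∀ n k, IsRefProd cs k ((cs.wordProd ω) ^ n) ↔ ∃ k' ≤ k, Del x (n * m) 1 k' := by
  classical
  set m := ω.length with hm
  have hm0 : m ≠ 0 := by
    intro h
    exact hne (List.eq_nil_of_length_eq_zero h)
  refine ⟨m, ⟨hm0⟩, ?_⟩
  have hmpos : 0 < m := Nat.pos_of_ne_zero hm0
  -- the periodic letter function
  let x : ℕ → B := fun j => ω.reverse[j % m]'(by
    rw [List.length_reverse]; exact Nat.mod_lt _ hmpos)
  have hxI : ∀ j, x j ∈ I := fun j => hω _ (by
    have : x j ∈ ω.reverse := List.getElem_mem _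
    simpa using this)
  have hxper : ∀ j, x (j + m) = x j := by
    intro j
    simp only [x, Nat.add_mod_right]
  have hwd : wd x m = ω := by
    rw [wd_reverse ω x (by
      intro j hj
      simp only [x]
      congr 1
      exact Nat.mod_eq_of_lt hj) m (le_refl _), hm]
    rw [← List.length_reverse, List.take_length, List.reverse_reverse]
  have hpow : ∀ n, cs.wordProd (wd x (n * m)) = (cs.wordProd ω) ^ n := by
    intro n
    rw [wordProd_wd_mul cs x m hxper, hwd]
  -- elements of the special subgroup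
  have hs : ∀ i ∈ I, cs.simple i ∈ G := fun i hi => by
    rw [hG]; exact Subgroup.subset_closure ⟨i, hi, rfl⟩
  let s : B → G := fun i => if h : i ∈ I then ⟨cs.simple i, hs i h⟩ else 1
  have hsx : ∀ j, ((s (x j) : G) : W) = cs.simple (x j) := by
    intro j
    simp only [s, dif_pos (hxI j)]
  have hsω : ∀ ω' : List B, (∀ i ∈ ω', i ∈ I) → (((ω'.map s).prod : G) : W) = cs.wordProd ω' := by
    intro ω'
    induction ω' with
    | nil => intro _; simp
    | cons i ω' ih =>
      intro h
      rw [List.map_cons, List.prod_cons, Subgroup.coe_mul, ih (fun j hj => h j (by simp [hj])),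
        cs.wordProd_cons]
      congr 1
      simp only [s, dif_pos (h i (by simp))]
  let xz : ZMod m → G := fun z => s (x z.val)
  have hxz : ∀ n : ℕ, (fun j => s (x j)) n = xz n := by
    intro n
    simp only [xz]
    congr 1
    simp only [x]
    congr 1
    rw [ZMod.val_natCast, Nat.mod_mod]
  refine ⟨fun j => s (x j), xz, hxz, ?_⟩
  intro n k
  constructor
  · intro hk
    rw [← hpow] at hk
    obtain ⟨ω', hsub, hω', hlen⟩ := dyer cs k _ hk
    rw [length_wd] at hlen
    obtain ⟨k', hk', d⟩ := del_of_sublist s x (n * m) ω' hsub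
    have hmem : ∀ i ∈ ω', i ∈ I := by
      intro i hi
      have h3 := hsub.subset hi
      have h4 : ∀ a, ∀ i ∈ wd x a, i ∈ I := by
        intro a
        induction a with
        | zero => intro i hi; simp [wd] at hi
        | succ a ih =>
          intro i hi
          rw [wd, List.mem_cons] at hi
          rcases hi with rfl | hi
          · exact hxI a
          · exact ih i hi
      exact h4 _ i h3
    have h5 : (ω'.map s).prod = 1 := by
      apply Subtype.ext
      rw [hsω ω' hmem, hω']; rfl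
    rw [h5] at d
    exact ⟨k', by omega, d⟩
  · rintro ⟨k', hk', d⟩
    have d' := d.map G.subtype
    have hfun : (fun j => G.subtype (s (x j))) = fun j => cs.simple (x j) := by
      funext j
      exact hsx j
    rw [hfun] at d'
    have := isRefProd_of_del cs x d'
    rw [hpow] at this
    have h2 : IsRefProd cs k' ((cs.wordProd ω) ^ n) := by simpa using this
    exact h2.mono cs hk'

/-- Main estimate. -/
theorem main_bounds [Finite B] (I : Set B) (G : Subgroup W)
    (hG : G = Subgroup.closure (cs.simple '' I)) (H : Subgroup G) [H.FiniteIndex] [IsFreeGroup H]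
    (ω : List B) (hω : ∀ i ∈ ω, i ∈ I) (hne : ω ≠ []) :
    ∃ μ N C : ℕ, 1 ≤ N ∧ (∀ n k, IsRefProd cs k ((cs.wordProd ω) ^ n) → μ * n ≤ N * k + C) ∧
      ∀ A : ℕ, ∃ n k, A ≤ n ∧ IsRefProd cs k ((cs.wordProd ω) ^ n) ∧ N * k ≤ μ * n + C := by
  classical
  obtain ⟨m, hm, x, xz, hxz, hiff⟩ := exists_reading cs I G hG ω hω hne
  -- the free subgroup
  have : Group.FG G := by
    rw [Group.fg_iff_subgroup_fg]
    exact ⟨(Set.toFinite (cs.simple '' I)).toFinset, by simp [hG]⟩
  have : Group.FG H := Subgroup.fg_of_index_ne_zero H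
  let e : H ≃* FreeGroup (IsFreeGroup.Generators H) := IsFreeGroup.toFreeGroup H
  have : Group.FG (FreeGroup (IsFreeGroup.Generators H)) :=
    Group.fg_of_surjective (f := e.toMonoidHom) e.surjective
  have : Finite (IsFreeGroup.Generators H) := finite_of_fg_freeGroup _
  obtain ⟨μ, N, C, hN, h1, h2⟩ := slope_virtually_free H e m x xz hxz
  refine ⟨μ, N, C, hN, ?_, ?_⟩
  · intro n k hk
    obtain ⟨k', h7, d⟩ := (hiff n k).1 hk
    have h6 := h1 n k' d
    have := Nat.mul_le_mul_left N h7
    omega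
  · intro A
    obtain ⟨n, k, hA, d, hk⟩ := h2 A
    exact ⟨n, k, hA, (hiff n k).2 ⟨k, le_refl _, d⟩, hk⟩

/-- Rationality for words over `I`. -/
theorem main_tendsto [Finite B] (I : Set B)
    (hI : ∃ H : Subgroup (Subgroup.closure (cs.simple '' I)), H.FiniteIndex ∧ IsFreeGroup H)
    (rl : W → ℕ) (hrl : ∀ w k, IsRefProd cs k w ↔ rl w ≤ k)
    (w : W) (hw : ∃ g : W, g * w * g⁻¹ ∈ Subgroup.closure (cs.simple '' I)) :
    ∃ q : ℚ, Tendsto (fun n : ℕ => (rl (w ^ n) : ℝ) / n) atTop (𝓝 (q : ℝ)) := by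
  obtain ⟨g, hg⟩ := hw
  have hconj : ∀ n : ℕ, rl (w ^ n) = rl ((g * w * g⁻¹) ^ n) := by
    intro n
    have e1 : (g * w * g⁻¹) ^ n = g * w ^ n * g⁻¹ := by rw [conj_pow]
    have e2 : w ^ n = g⁻¹ * (g * w ^ n * g⁻¹) * g⁻¹⁻¹ := by group
    apply le_antisymm
    · rw [← hrl, e1]
      have h := ((hrl (g * w ^ n * g⁻¹) _).2 (le_refl _)).conj cs g⁻¹
      rwa [← e2] at h
    · rw [← hrl, e1]
      exact ((hrl (w ^ n) _).2 (le_refl _)).conj cs g
  simp only [hconj]
  obtain ⟨ω, hω, hω2⟩ := exists_word cs I _ hg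
  rw [← hω2]
  by_cases hne : ω = []
  · refine ⟨0, ?_⟩
    subst hne
    have : rl 1 = 0 := Nat.le_zero.1 ((hrl 1 0).1 (isRefProd_one cs 0))
    simp [this]
  · obtain ⟨H, hfi, hfree⟩ := hI
    obtain ⟨μ, N, C, hN, h1, h2⟩ := main_bounds cs I _ rfl H ω hω hne
    refine ⟨(μ : ℚ) / N, ?_⟩
    refine tendsto_of_bounds (fun n => rl ((cs.wordProd ω) ^ n)) ?_ μ N C hN ?_ ?_
    · intro a b
      rw [← hrl, pow_add]
      exact ((hrl _ _).2 (le_refl _)).mul cs ((hrl _ _).2 (le_refl _))
    · intro n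
      exact h1 n _ ((hrl _ _).2 (le_refl _))
    · intro A
      obtain ⟨n, k, hA, hk, hle⟩ := h2 A
      refine ⟨n, hA, ?_⟩
      have := Nat.mul_le_mul_left N ((hrl _ _).1 hk)
      exact this.trans hle

end Pool.Agent.Lib.MP_60edde_al
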