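import Mathlib
import Pool.Agent.Lib.MP_60edde_al.Class
import Pool.Agent.Lib.MP_60edde_al.Final

/-!
Rational slopes from semilinear word problem.
-/

namespace Pool.Agent.Lib.MP_60edde_al.Sli

open Parikh Filter Topology

/-- Lower envelope of an unbounded semilinear subset of `ℕ × ℕ`. -/
theorem semilinear_slope {S : Set (ℕ × ℕ)} (hS : IsSemilinearSet S)
    (hinf : ∀ A : ℕ, ∃ p ∈ S, A ≤ p.1) :
    ∃ μ N C : ℕ, 1 ≤ N ∧ (∀ p ∈ S, μ * p.1 ≤ N * p.2 + C) ∧
      ∃ a d : ℕ, 1 ≤ d ∧ ∀ A : ℕ, ∃ k, (a + A * d, k) ∈ S ∧ N * k ≤ μ * (a + A * d) + C := by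
  classical
  obtain ⟨Fam, hfin, hlin, rfl⟩ := hS
  choose! base per hper heq using hlin
  -- the finite set of all periods with positive first coordinate
  let P : Set (ℕ × ℕ) := {p | (∃ t ∈ Fam, p ∈ per t) ∧ 1 ≤ p.1}
  have hPfin : P.Finite := by
    refine Set.Finite.subset (hfin.biUnion (fun t ht => hper t ht)) ?_
    rintro p ⟨⟨t, ht, hp⟩, -⟩
    exact Set.mem_biUnion ht hp
  have hbfin : (base '' Fam).Finite := hfin.image _
  obtain ⟨Bd, hBd⟩ : ∃ Bd : ℕ, ∀ t ∈ Fam, (base t).1 + (base t).2 ≤ Bd := by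
    obtain ⟨Bd, hBd⟩ := (hfin.image (fun t => (base t).1 + (base t).2)).bddAbove
    exact ⟨Bd, fun t ht => hBd ⟨t, ht, rfl⟩⟩
  have hPne : P.Nonempty := by
    by_contra hcon
    rw [Set.not_nonempty_iff_eq_empty] at hcon
    obtain ⟨p, ⟨t, ht, hp⟩, hA⟩ := hinf (Bd + 1)
    rw [heq t ht] at hp
    obtain ⟨y, hy, rfl⟩ := hp
    have hy0 : y.1 = 0 := by
      have key : ∀ y ∈ AddSubmonoid.closure (per t), y.1 = 0 := by
        intro y hy
        induction hy using AddSubmonoid.closure_induction with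
        | mem y hy =>
          by_contra hne
          have : y ∈ P := ⟨⟨t, ht, hy⟩, Nat.one_le_iff_ne_zero.2 hne⟩
          rw [hcon] at this
          exact this
        | zero => rfl
        | add a b _ _ ha hb => rw [Prod.fst_add, ha, hb]
      exact key y hy
    have := hBd t ht
    simp only [vadd_eq_add, Prod.fst_add, hy0, add_zero] at hA
    omega
  obtain ⟨ps, hps, hmin⟩ := Set.exists_min_image P (fun p => (p.2 : ℚ) / p.1) hPfin hPne
  obtain ⟨⟨ts, hts, hpts⟩, hps1⟩ := hps
  refine ⟨ps.2, ps.1, (ps.1 + ps.2) * Bd, hps1, ?_, (base ts).1, ps.1, hps1, ?_⟩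
  · rintro p ⟨t, ht, hp⟩
    rw [heq t ht] at hp
    obtain ⟨y, hy, rfl⟩ := hp
    have key : ∀ y ∈ AddSubmonoid.closure (per t), ps.2 * y.1 ≤ ps.1 * y.2 := by
      intro y hy
      induction hy using AddSubmonoid.closure_induction with
      | mem y hy =>
        rcases Nat.eq_zero_or_pos y.1 with h0 | h0
        · rw [h0]; simp
        · have h1 := hmin y ⟨⟨t, ht, hy⟩, h0⟩
          have hp1 : (0 : ℚ) < ps.1 := by exact_mod_cast hps1
          have hp2 : (0 : ℚ) < y.1 := by exact_mod_cast h0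
          rw [div_le_div_iff₀ hp1 hp2] at h1
          have h2 : (ps.2 : ℚ) * y.1 ≤ ps.1 * y.2 := by linarith
          exact_mod_cast h2
      | zero => simp
      | add a b _ _ ha hb =>
        simp only [Prod.fst_add, Prod.snd_add]
        nlinarith
    have h1 := key y hy
    have h2 := hBd t ht
    simp only [vadd_eq_add, Prod.fst_add, Prod.snd_add]
    have h3 : ps.2 * (base t).1 ≤ (ps.1 + ps.2) * Bd := by
      apply Nat.mul_le_mul <;> omega
    nlinarith
  · intro A
    refine ⟨(base ts).2 + A * ps.2, ⟨ts, hts, ?_⟩, ?_⟩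
    · have h1 : base ts + A • ps ∈ ts := (Set.ext_iff.1 (heq ts hts) _).2
        ⟨A • ps, AddSubmonoid.nsmul_mem _ (AddSubmonoid.subset_closure hpts) A, rfl⟩
      exact h1
    · have h2 := hBd ts hts
      have h3 : ps.1 * (base ts).2 ≤ (ps.1 + ps.2) * Bd := by
        apply Nat.mul_le_mul <;> omega
      nlinarith

/-- The minimal function of a semilinear set is eventually quasi-linear when subadditive. -/
theorem quasi_linear {S : Set (ℕ × ℕ)} (hS : IsSemilinearSet S) (f : ℕ → ℕ)
    (hf1 : ∀ n, (n, f n) ∈ S) (hf2 : ∀ n k, (n, k) ∈ S → f n ≤ k)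
    (hsub : ∀ m n, f (m + n) ≤ f m + f n) :
    ∃ p q n₀ : ℕ, 1 ≤ p ∧ ∀ n, n₀ ≤ n → f (n + p) = f n + q := by
  classical
  -- the graph is semilinear
  have hge : IsSemilinearSet ((fun k : ℕ => ((0 : ℕ), k)) '' {k : ℕ | 1 ≤ k}) :=
    semilinear_ge_one.image (AddMonoidHom.inr ℕ ℕ)
  have hGr : IsSemilinearSet {p : ℕ × ℕ | p.2 = f p.1} := by
    have h1 := hS.sdiff (hS.add hge)
    convert h1 using 1
    ext ⟨n, k⟩
    constructor
    · intro h
      have hk : k = f n := h
      subst hk
      refine ⟨hf1 n, ?_⟩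
      intro hmem
      obtain ⟨⟨n', k'⟩, h2, _, ⟨j, hj, rfl⟩, h3⟩ := Set.mem_add.1 hmem
      simp only [Prod.mk_add_mk, add_zero, Prod.mk.injEq] at h3
      obtain ⟨rfl, h4⟩ := h3
      have h5 := hf2 _ _ h2
      have h6 : 1 ≤ j := hj
      omega
    · rintro ⟨h2, h3⟩
      by_contra hne
      have hne' : k ≠ f n := hne
      have h4 := hf2 n k h2
      apply h3
      refine Set.mem_add.2 ⟨(n, f n), hf1 n, (0, k - f n), ⟨k - f n, ?_, rfl⟩, ?_⟩
      · change 1 ≤ k - f n
        omega
      · simp only [Prod.mk_add_mk, add_zero, Prod.mk.injEq, true_and]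
        omega
  obtain ⟨μ, N, C, hN, b1, a, d, hd, b2⟩ := semilinear_slope hS
    (fun A => ⟨(A, f A), hf1 A, le_refl _⟩)
  have hlow : ∀ n, μ * n ≤ N * f n + C := fun n => b1 _ (hf1 n)
  -- upper bound
  obtain ⟨B, hB⟩ : ∃ B, ∀ r, r < a + d → f r ≤ B := by
    refine ⟨∑ r ∈ Finset.range (a + d), f r, fun r hr => ?_⟩
    exact Finset.single_le_sum (f := f) (fun _ _ => Nat.zero_le _) (Finset.mem_range.2 hr)
  have hup : ∀ n, N * f n ≤ μ * n + (C + N * B) := by
    intro n
    rcases Nat.lt_or_ge n a with hlt | hge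
    · have := Nat.mul_le_mul_left N (hB n (by omega))
      have := Nat.zero_le (μ * n)
      omega
    · obtain ⟨k, hk1, hk2⟩ := b2 ((n - a) / d)
      have hdiv := Nat.div_add_mod (n - a) d
      have hmod := Nat.mod_lt (n - a) (show 0 < d by omega)
      set A := (n - a) / d
      set r := (n - a) % d
      have hn : n = (a + A * d) + r := by
        have : A * d = d * A := Nat.mul_comm _ _
        omega
      have h1 := hf2 _ _ hk1
      have h2 := hsub (a + A * d) r
      rw [← hn] at h2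
      have h3 := hB r (by omega)
      have h4 : N * f n ≤ N * k + N * B := by
        rw [← Nat.mul_add]
        exact Nat.mul_le_mul_left N (by omega)
      have h5 : μ * (a + A * d) ≤ μ * n := Nat.mul_le_mul_left μ (by omega)
      omega
  set J := C + (C + N * B) with hJ
  -- level sets
  have hlev : ∀ j : ℕ, IsSemilinearSet {n : ℕ | N * f n + C = μ * n + j} := by
    intro j
    let F1 : ℕ × ℕ →+ ℕ := (AddMonoidHom.mulLeft N).comp (AddMonoidHom.snd ℕ ℕ)
    let F2 : ℕ × ℕ →+ ℕ := (AddMonoidHom.mulLeft μ).comp (AddMonoidHom.fst ℕ ℕ)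
    have h1 := isSemilinearSet_setOfPred_eq C j F1 F2
    have h2 := (hGr.inter h1).image (AddMonoidHom.fst ℕ ℕ)
    convert h2 using 1
    ext n
    constructor
    · intro h
      have h' : N * f n + C = μ * n + j := h
      refine ⟨(n, f n), ⟨rfl, ?_⟩, rfl⟩
      change C + N * f n = j + μ * n
      omega
    · rintro ⟨⟨n', k⟩, ⟨h3, h4⟩, rfl⟩
      have h3' : k = f n' := h3
      subst h3'
      have h4' : C + N * f n' = j + μ * n' := h4
      change N * f n' + C = μ * n' + j
      omega
  have hper : ∀ j : ℕ, ∃ k, ∃ p > 0, ∀ x ≥ k, (x ∈ {n : ℕ | N * f n + C = μ * n + j} ↔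
      x + p ∈ {n : ℕ | N * f n + C = μ * n + j}) :=
    fun j => Nat.isSemilinearSet_iff_ultimately_periodic.1 (hlev j)
  choose kk pp hpp hkk using hper
  set Pr := ∏ j ∈ Finset.range (J + 1), pp j with hPr
  have hPrpos : 0 < Pr := Finset.prod_pos fun j _ => hpp j
  set n₀ := ∑ j ∈ Finset.range (J + 1), kk j with hn₀
  have hmult : ∀ j t n, kk j ≤ n → N * f n + C = μ * n + j →
      N * f (n + t * pp j) + C = μ * (n + t * pp j) + j := by
    intro j t
    induction t with
    | zero => intro n _ h; simpa using h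
    | succ t ih =>
      intro n hn h
      have h1 := ih n hn h
      have h2 := (hkk j (n + t * pp j) (by omega)).1 h1
      have e : n + (t + 1) * pp j = n + t * pp j + pp j := by ring
      rw [e]
      exact h2
  refine ⟨N * Pr, μ * Pr, n₀, Nat.mul_pos hN hPrpos, ?_⟩
  intro n hn
  obtain ⟨j, hj⟩ : ∃ j, N * f n + C = μ * n + j := ⟨N * f n + C - μ * n, by
    have := hlow n; omega⟩
  have hjJ : j < J + 1 := by
    have := hup n; omega
  have hjmem : j ∈ Finset.range (J + 1) := Finset.mem_range.2 hjJ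
  have hkj : kk j ≤ n := by
    have : kk j ≤ n₀ := Finset.single_le_sum (f := kk) (fun _ _ => Nat.zero_le _) hjmem
    omega
  obtain ⟨t, ht⟩ : pp j ∣ N * Pr := (Finset.dvd_prod_of_mem pp hjmem).mul_left N
  have h1 := hmult j t n hkj hj
  have e : t * pp j = N * Pr := by rw [ht, mul_comm]
  rw [e] at h1
  have h2 : N * f (n + N * Pr) = N * (f n + μ * Pr) := by
    have e1 : μ * (n + N * Pr) = μ * n + N * (μ * Pr) := by ring
    have e2 : N * (f n + μ * Pr) = N * f n + N * (μ * Pr) := by ring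
    omega
  exact Nat.eq_of_mul_eq_mul_left hN h2

/-- Consequence for the limit. -/
theorem tendsto_of_quasi_linear (f : ℕ → ℕ) (hsub : ∀ m n, f (m + n) ≤ f m + f n) (p q n₀ : ℕ)
    (hp : 1 ≤ p) (h : ∀ n, n₀ ≤ n → f (n + p) = f n + q) :
    Tendsto (fun n : ℕ => (f n : ℝ) / n) atTop (𝓝 (((q : ℚ) / p : ℚ) : ℝ)) := by
  -- bounds on a full period
  obtain ⟨B, hB⟩ : ∃ B, ∀ r, r < n₀ + p → f r ≤ B := by
    refine ⟨∑ r ∈ Finset.range (n₀ + p), f r, fun r hr => ?_⟩
    exact Finset.single_le_sum (f := f) (fun _ _ => Nat.zero_le _) (Finset.mem_range.2 hr)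
  have hbd : ∀ n, q * n ≤ p * f n + q * (n₀ + p) ∧ p * f n ≤ q * n + p * B := by
    intro n
    induction n using Nat.strong_induction_on with
    | _ n ih =>
      rcases Nat.lt_or_ge n (n₀ + p) with hlt | hge
      · constructor
        · have := Nat.mul_le_mul_left q hlt.le
          omega
        · have := Nat.mul_le_mul_left p (hB n hlt)
          omega
      · obtain ⟨i1, i2⟩ := ih (n - p) (by omega)
        have h1 := h (n - p) (by omega)
        have h2 : n - p + p = n := by omega
        rw [h2] at h1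
        have h3 : q * (n - p) + q * p = q * n := by
          rw [← Nat.mul_add, h2]
        rw [h1, Nat.mul_add]
        have h4 : p * q = q * p := Nat.mul_comm _ _
        constructor <;> omega
  refine tendsto_of_bounds f hsub q p (q * (n₀ + p) + p * B) hp ?_ ?_
  · intro n
    have := (hbd n).1
    omega
  · intro A
    refine ⟨A, le_refl _, ?_⟩
    have := (hbd A).2
    omega

section cyc

variable {G : Type*} [Group G] (m : ℕ) (xz : ZMod m → G)

/-- Labels of the cyclic graph: keep or skip a letter. -/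
def cycLab : ZMod m × Bool → G := fun e => if e.2 then xz e.1 else 1

/-- (number of letters, number of skipped letters). -/
def cnt [Fintype (ZMod m)] : (ZMod m × Bool → ℕ) →+ ℕ × ℕ where
  toFun c := (∑ e, c e, ∑ i, c (i, false))
  map_zero' := by simp
  map_add' _ _ := by simp [Finset.sum_add_distrib]

theorem cnt_ev [Fintype (ZMod m)] (e : ZMod m × Bool) :
    cnt m (ev e) = (1, if e.2 then 0 else 1) := by
  unfold cnt
  ext
  · simp only [AddMonoidHom.coe_mk, ZeroHom.coe_mk]
    exact sum_ev e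
  · simp only [AddMonoidHom.coe_mk, ZeroHom.coe_mk]
    obtain ⟨i, b⟩ := e
    cases b
    · simp only [Bool.false_eq_true, if_false]
      rw [Finset.sum_eq_single i]
      · rw [ev_self]
      · intro j _ hj
        rw [ev_ne]
        intro h; exact hj (congrArg Prod.fst h)
      · intro h; exact absurd (Finset.mem_univ i) h
    · simp only [if_true]
      apply Finset.sum_eq_zero
      intro j _
      rw [ev_ne]
      intro h; exact absurd (congrArg Prod.snd h) (by simp)

theorem walk_of_del [Fintype (ZMod m)] (x : ℕ → G) (hx : ∀ n : ℕ, x n = xz n) {n k : ℕ} {g : G}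
    (d : Del x n g k) :
    ∃ c, Walk (fun e : ZMod m × Bool => e.1 + 1) (fun e => e.1) (cycLab m xz)
      (n : ZMod m) 0 g c ∧ cnt m c = (n, k) := by
  induction d with
  | zero => exact ⟨0, by rw [Nat.cast_zero]; exact Walk.nil _, map_zero _⟩
  | @keep n g k d ih =>
    obtain ⟨c, h1, h2⟩ := ih
    refine ⟨ev ((n : ZMod m), true) + c, ?_, ?_⟩
    · have := Walk.cons (src := fun e : ZMod m × Bool => e.1 + 1) (tgt := fun e => e.1)
        (lab := cycLab m xz) ((n : ZMod m), true) h1
      rw [Nat.cast_add, Nat.cast_one, hx]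
      exact this
    · rw [map_add, h2, cnt_ev]
      simp [add_comm]
  | @skip n g k d ih =>
    obtain ⟨c, h1, h2⟩ := ih
    refine ⟨ev ((n : ZMod m), false) + c, ?_, ?_⟩
    · have := Walk.cons (src := fun e : ZMod m × Bool => e.1 + 1) (tgt := fun e => e.1)
        (lab := cycLab m xz) ((n : ZMod m), false) h1
      rw [Nat.cast_add, Nat.cast_one]
      have h3 : cycLab m xz ((n : ZMod m), false) = 1 := rfl
      rw [h3, one_mul] at this
      exact this
    · rw [map_add, h2, cnt_ev]
      simp [add_comm]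

theorem del_of_walk [Fintype (ZMod m)] (x : ℕ → G) (hx : ∀ n : ℕ, x n = xz n) {u v : ZMod m}
    {g : G} {c : ZMod m × Bool → ℕ}
    (p : Walk (fun e : ZMod m × Bool => e.1 + 1) (fun e => e.1) (cycLab m xz) u v g c) :
    v = 0 → Del x (cnt m c).1 g (cnt m c).2 ∧ (((cnt m c).1 : ℕ) : ZMod m) = u := by
  induction p with
  | nil v =>
    intro hv
    subst hv
    rw [map_zero]
    exact ⟨Del.zero, by simp⟩
  | @cons e v g c _ ih =>
    intro hv
    obtain ⟨h1, h2⟩ := ih hv
    rw [map_add, cnt_ev]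
    obtain ⟨i, b⟩ := e
    simp only at h2
    cases b
    · simp only [Bool.false_eq_true, if_false, Prod.fst_add, Prod.snd_add]
      refine ⟨?_, by rw [add_comm, Nat.cast_add, h2, Nat.cast_one]⟩
      have h3 : cycLab m xz (i, false) = 1 := rfl
      rw [h3, one_mul, add_comm 1, add_comm 1]
      exact h1.skip
    · simp only [if_true, Prod.fst_add, Prod.snd_add, zero_add]
      refine ⟨?_, by rw [add_comm, Nat.cast_add, h2, Nat.cast_one]⟩
      have h3 : cycLab m xz (i, true) = x (cnt m c).1 := by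
        rw [hx, h2]; rfl
      rw [h3, add_comm 1]
      exact h1.keep

/-- The set of pairs (power, deletions) is semilinear. -/
theorem semilinear_del (hG : SLI G) [NeZero m] (x : ℕ → G) (hx : ∀ n : ℕ, x n = xz n) :
    IsSemilinearSet {p : ℕ × ℕ | Del x (p.1 * m) 1 p.2} := by
  classical
  have := Fintype.ofFinite (ZMod m)
  have hm : 1 ≤ m := Nat.one_le_iff_ne_zero.2 (NeZero.ne m)
  have hcast : ∀ n : ℕ, ((n * m : ℕ) : ZMod m) = 0 := by
    intro n; push_cast; simp
  have h1 := hG.apply (fun e : ZMod m × Bool => e.1 + 1) (fun e => e.1) (cycLab m xz) 0 0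
  have h2 := h1.image (cnt m)
  let φ : ℕ × ℕ →+ ℕ × ℕ :=
    { toFun := fun p => (p.1 * m, p.2)
      map_zero' := by simp
      map_add' := by intro a b; simp [add_mul] }
  have h3 := h2.preimage φ
  convert h3 using 1
  ext ⟨n, k⟩
  constructor
  · intro d
    obtain ⟨c, h4, h5⟩ := walk_of_del m xz x hx (show Del x (n * m) 1 k from d)
    rw [hcast n] at h4
    exact ⟨c, h4, h5⟩
  · rintro ⟨c, h4, h5⟩
    obtain ⟨h6, -⟩ := del_of_walk m xz x hx h4 rfl
    rw [h5] at h6
    exact h6

end cyc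

end Pool.Agent.Lib.MP_60edde_al.Sli
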