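import Mathlib
import Pool.Agent.Lib.MP_60edde_al.Slope
import Pool.Agent.Lib.MP_60edde_al.Expand

/-!
Eventually quasi-linear reflection length of powers for groups with semilinear word problem.
-/

namespace Pool.Agent.Lib.MP_60edde_al

open CoxeterSystem Filter Topology Sli

variable {B : Type*} {W : Type*} [Group W] {M : CoxeterMatrix B} (cs : CoxeterSystem M W)

theorem main_quasi_linear [Finite B] (I : Set B)
    (hI : SLI (Subgroup.closure (cs.simple '' I)))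
    (rl : W → ℕ) (hrl : ∀ w k, IsRefProd cs k w ↔ rl w ≤ k)
    (w : W) (hw : ∃ g : W, g * w * g⁻¹ ∈ Subgroup.closure (cs.simple '' I)) :
    ∃ p q n₀ : ℕ, 1 ≤ p ∧ (∀ n, n₀ ≤ n → rl (w ^ (n + p)) = rl (w ^ n) + q) ∧
      Tendsto (fun n : ℕ => (rl (w ^ n) : ℝ) / n) atTop (𝓝 (((q : ℚ) / p : ℚ) : ℝ)) := by
  have hsub : ∀ m n, rl (w ^ (m + n)) ≤ rl (w ^ m) + rl (w ^ n) := by
    intro a b
    rw [← hrl, pow_add]
    exact ((hrl _ _).2 (le_refl _)).mul cs ((hrl _ _).2 (le_refl _))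
  suffices h : ∃ p q n₀ : ℕ, 1 ≤ p ∧ (∀ n, n₀ ≤ n → rl (w ^ (n + p)) = rl (w ^ n) + q) by
    obtain ⟨p, q, n₀, h1, h2⟩ := h
    exact ⟨p, q, n₀, h1, h2, tendsto_of_quasi_linear (fun n => rl (w ^ n)) hsub p q n₀ h1 h2⟩
  obtain ⟨g, hg⟩ := hw
  have hconj : ∀ n : ℕ, rl (w ^ n) = rl ((g * w * g⁻¹) ^ n) := by
    intro n
    have e1 : (g * w * g⁻¹) ^ n = g * w ^ n * g⁻¹ := by rw [conj_pow]
    have e2 : w ^ n = g⁻¹ * (g * w ^ n * g⁻¹) * g⁻¹⁻¹ := by group
    apply le_antisymm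
    · rw [← hrl, e1]
      have h := ((hrl (g * w ^ n * g⁻¹) _).2 (le_refl _)).conj cs g⁻¹
      rwa [← e2] at h
    · rw [← hrl, e1]
      exact ((hrl (w ^ n) _).2 (le_refl _)).conj cs g
  obtain ⟨ω, hω, hω2⟩ := exists_word cs I _ hg
  by_cases hne : ω = []
  · refine ⟨1, 0, 0, le_refl _, ?_⟩
    intro n _
    have h1 : g * w * g⁻¹ = 1 := by rw [← hω2, hne]; simp
    have h2 : w = 1 := by
      have : w = g⁻¹ * (g * w * g⁻¹) * g := by group
      rw [this, h1]; group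
    rw [h2, one_pow, one_pow, add_zero]
  · obtain ⟨m, hm, x, xz, hxz, hiff⟩ := exists_reading cs I _ rfl ω hω hne
    have hS := semilinear_del m xz hI x hxz
    have hrlD : ∀ n k, rl (w ^ n) ≤ k ↔ ∃ k' ≤ k, Del x (n * m) 1 k' := by
      intro n k
      rw [hconj, ← hω2, ← hrl]
      exact hiff n k
    refine quasi_linear hS (fun n => rl (w ^ n)) ?_ ?_ hsub
    · intro n
      obtain ⟨k', hk', d⟩ := (hrlD n _).1 (le_refl _)
      have h2 : rl (w ^ n) ≤ k' := (hrlD n k').2 ⟨k', le_refl _, d⟩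
      have h3 : k' = rl (w ^ n) := le_antisymm hk' h2
      rw [h3] at d
      exact d
    · intro n k d
      exact (hrlD n k).2 ⟨k, le_refl _, d⟩

end Pool.Agent.Lib.MP_60edde_al
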